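import Pool.Agent.Lib.SS3.Blue3
import Pool.Agent.Lib.SS3.Data

/-! The lower bound for `Phi` read from the accumulator. -/

open Real

namespace Pool.Agent.Lib.SS3

open Pool.Agent.Lib.MP_3a1514_mp

namespace AccL

lemma term_le {u J σ s c q : ℝ} (hu : 0 ≤ u) (hJ : 0 < J) (hs : 0 < s) (hq : 0 < q)
    (h : u * J ^ 2 ≤ 2 ^ 44 * exp (-(J / 128))) :
    s * exp c * (128 * (u * J) * (2 - c) + u * J ^ 2 - 128 * σ * (u * J * q) - 2 ^ 14 * s * (u * q))
      ≤ 2 ^ 44 * psi σ q := by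
  set t := 128 * s * q / J with ht
  have ht0 : 0 < t := by positivity
  set y := 2 - c + J / 128 - σ * q - t with hy
  have e1 : s * exp c * (128 * (u * J) * (2 - c) + u * J ^ 2 - 128 * σ * (u * J * q)
      - 2 ^ 14 * s * (u * q)) = exp c * (u * J ^ 2) * (t * y) / q := by
    rw [hy, ht]; field_simp; ring
  have hp : 0 ≤ psi σ q := psi_nonneg σ hq.le
  rw [e1]
  rcases le_total y 0 with hy0 | hy0
  · refine le_trans ?_ (by positivity)
    refine div_nonpos_of_nonpos_of_nonneg ?_ hq.le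
    exact mul_nonpos_of_nonneg_of_nonpos (by positivity) (mul_nonpos_of_nonneg_of_nonpos ht0.le hy0)
  have h1 : t ≤ exp (t - 1) := by linarith [add_one_le_exp (t - 1)]
  have h2 : y ≤ exp (y - 1) := by linarith [add_one_le_exp (y - 1)]
  have h3 : t * y ≤ exp (t - 1) * exp (y - 1) := mul_le_mul h1 h2 hy0 (exp_pos _).le
  have e2 : exp c * (2 ^ 44 * exp (-(J / 128))) * (exp (t - 1) * exp (y - 1))
      = 2 ^ 44 * exp (-(σ * q)) := by
    have : -(σ * q) = c + -(J / 128) + (t - 1) + (y - 1) := by rw [hy]; ring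
    rw [this, exp_add, exp_add, exp_add]; ring
  unfold psi
  rw [← mul_div_assoc, ← e2]
  gcongr

def sqv (v : Z3) : ℕ → ℕ
  | 0 => 1
  | 1 => v.1.natAbs ^ 2
  | 2 => v.2.1.natAbs ^ 2
  | 3 => v.2.2.natAbs ^ 2
  | 4 => (v.1 - v.2.1).natAbs ^ 2
  | 5 => (v.1 - v.2.2).natAbs ^ 2
  | 6 => (v.2.1 - v.2.2).natAbs ^ 2
  | _ => 0

def SS (v : Z3) : ℕ := ∑ k ∈ Finset.range 7, sqv v k * (2 ^ 56) ^ (3 * k)

noncomputable def okW (vl : WL) : List Z3 → Prop :=
  WL.rec (motive := fun _ => List Z3 → Prop) (fun L => L = [])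
    (fun _ s _ _ ih L => ∃ v M, L = v :: M ∧ s = SS v ∧ ih M) vl

def linD (p : SP) (D : ℕ → ℕ) (r : ℕ) : ℝ :=
  ell p (D (3 + r)) (D (6 + r)) (D (9 + r)) (D (12 + r)) (D (15 + r)) (D (18 + r))

lemma sum_spec {tt : ℕ} (ht : ∀ j, ValidT (lookT tt j)) (wp n : ℕ) {p : SP} (h : p.PD) {σ s c : ℝ}
    (hs : 0 < s) (vl : WL) : ∀ L : List Z3, okW vl L → (∀ v ∈ L, v ≠ 0 ∧ ∀ k < 7, sqv v k ≤ 16) →
    ∃ D : ℕ → ℕ, sumv tt wp n vl = ∑ k ∈ Finset.range 21, D k * (2 ^ 56) ^ k ∧
      (∀ k, D k ≤ L.length * 2 ^ 48) ∧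
      s * exp c * (128 * (D 1 : ℝ) * (2 - c) + D 2 - 128 * σ * linD p D 1 - 2 ^ 14 * s * linD p D 0)
        ≤ 2 ^ 44 * (L.map fun v => psi σ (p.Q v)).sum := by
  have zero : ∀ L : List Z3, ∃ D : ℕ → ℕ, 0 = ∑ k ∈ Finset.range 21, D k * (2 ^ 56) ^ k ∧
      (∀ k, D k ≤ L.length * 2 ^ 48) ∧
      s * exp c * (128 * (D 1 : ℝ) * (2 - c) + D 2 - 128 * σ * linD p D 1 - 2 ^ 14 * s * linD p D 0)
        ≤ 2 ^ 44 * (L.map fun v => psi σ (p.Q v)).sum := fun L => by
    refine ⟨fun _ => 0, by simp, fun _ => Nat.zero_le _, ?_⟩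
    have : 0 ≤ (L.map fun v => psi σ (p.Q v)).sum :=
      List.sum_nonneg fun x hx => by
        obtain ⟨y, _, rfl⟩ := List.mem_map.1 hx
        exact psi_nonneg _ (h.Q_nonneg y)
    simpa [linD, ell] using this
  induction vl with
  | nil => intro L _ _; exact zero L
  | cons i S r t ih =>
    rintro L ⟨v, M, rfl, hS, hM⟩ hL
    obtain ⟨D, hD, hb, hle⟩ := ih M hM fun x hx => hL x (List.mem_cons_of_mem _ hx)
    obtain ⟨hv, hv'⟩ := hL v List.mem_cons_self
    have e : sumv tt wp n (WL.cons i S r t) = cond (Nat.blt i n)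
        (lookT tt (Nat.land (Nat.shiftRight (Nat.mul wp r) 256) 4294967295) * S
          + sumv tt wp n t) 0 := rfl
    rw [e]
    cases Nat.blt i n
    · exact zero _
    obtain ⟨u, J, hJ, hT, hu⟩ := ht (Nat.land (Nat.shiftRight (Nat.mul wp r) 256) 4294967295)
    rw [cond_true, hT, hD, hS]
    have hJ' : (0 : ℝ) < J := by exact_mod_cast hJ
    have hu2 : u * J ^ 2 ≤ 2 ^ 44 := by
      have h1 : exp (-((J : ℝ) / 128)) ≤ 1 := by
        rw [exp_le_one_iff]; linarith
      have : (u : ℝ) * (J : ℝ) ^ 2 ≤ 2 ^ 44 := by linarith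
      exact_mod_cast this
    refine ⟨fun k => D k + u * J ^ (k % 3) * sqv v (k / 3), ?_, fun k => ?_, ?_⟩
    · rw [SS, show (2 : ℕ) ^ 112 = (2 ^ 56) ^ 2 by norm_num]
      generalize (2 : ℕ) ^ 56 = B
      simp only [Finset.sum_range_succ, Finset.range_zero, Finset.sum_empty, Nat.reduceMod,
        Nat.reduceDiv, Nat.reduceMul, sqv]
      ring
    · have h1 : u * J ^ (k % 3) ≤ 2 ^ 44 :=
        le_trans (Nat.mul_le_mul_left u (Nat.pow_le_pow_right hJ (by omega))) hu2
      have h2 : sqv v (k / 3) ≤ 16 := by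
        by_cases hk : k / 3 < 7
        · exact hv' _ hk
        · obtain ⟨j, hj⟩ := Nat.exists_eq_add_of_le (show 7 ≤ k / 3 by omega)
          rw [hj, add_comm]
          exact Nat.zero_le _
      have h3 := Nat.mul_le_mul h1 h2
      have h4 := hb k
      simp only [List.length_cons]
      omega
    · have h1 := term_le (σ := σ) (c := c) (Nat.cast_nonneg u) hJ' hs (h.Q_pos hv) hu
      simp only [List.map_cons, List.sum_cons, mul_add]
      refine le_trans (le_of_eq ?_) (add_le_add h1 hle)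
      simp only [linD, ell, SP.Q, SP.q]
      norm_num [sqv]
      ring

lemma digit (B : ℕ) (hB : 0 < B) (j : ℕ) : ∀ (N : ℕ) (D : ℕ → ℕ), (∀ k, D k < B) → j < N →
    (∑ k ∈ Finset.range N, D k * B ^ k) / B ^ j % B = D j := by
  have e : ∀ (N : ℕ) (D : ℕ → ℕ), ∑ k ∈ Finset.range (N + 1), D k * B ^ k
      = D 0 + B * ∑ k ∈ Finset.range N, D (k + 1) * B ^ k := fun N D => by
    rw [Finset.sum_range_succ', Finset.mul_sum, add_comm]
    congr 1
    · simp
    · exact Finset.sum_congr rfl fun k _ => by ring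
  induction j with
  | zero =>
    intro N D hD hN
    obtain ⟨N, rfl⟩ := Nat.exists_eq_add_one.2 hN
    rw [e, pow_zero, Nat.div_one, Nat.add_mul_mod_self_left, Nat.mod_eq_of_lt (hD 0)]
  | succ j ih =>
    intro N D hD hN
    obtain ⟨N, rfl⟩ := Nat.exists_eq_add_one.2 (show 0 < N by omega)
    rw [e, pow_succ', ← Nat.div_div_eq_div_mul, Nat.add_mul_div_left _ _ hB,
      Nat.div_eq_of_lt (hD 0), zero_add]
    exact ih N (fun k => D (k + 1)) (fun k => hD _) (by omega)

lemma fld_eq (x j : ℕ) : fld x (56 * j) = x / (2 ^ 56) ^ j % 2 ^ 56 := by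
  change (x >>> (56 * j)) &&& (2 ^ 56 - 1) = _
  rw [Nat.and_two_pow_sub_one_eq_mod, Nat.shiftRight_eq_div_pow, pow_mul]

lemma Q_neg (p : SP) (n : Z3) : p.Q (-n) = p.Q n := by
  simp only [SP.Q, SP.q, Prod.fst_neg, Prod.snd_neg]; push_cast; ring

lemma two_list_le {p : SP} (h : p.PD) {σ : ℝ} (hσ : 0 < σ) (L : List Z3)
    (hL : (L ++ L.map fun n => -n).Nodup) :
    2 * (L.map fun n => psi σ (p.Q n)).sum ≤ Phi p σ := by
  have := (summable_psi h hσ).sum_le_tsum
    (L ++ L.map fun n => -n).toFinset fun n _ => psi_nonneg σ (h.Q_nonneg n)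
  rw [List.sum_toFinset _ hL, List.map_append, List.sum_append, List.map_map] at this
  have e : ((fun n => psi σ (p.Q n)) ∘ fun n => -n) = fun n => psi σ (p.Q n) := by
    funext n; simp [Q_neg]
  rw [e] at this
  unfold Phi
  linarith

noncomputable def okB (vl : WL) : List Z3 → Bool :=
  WL.rec (motive := fun _ => List Z3 → Bool) (fun L => L.isEmpty)
    (fun _ s _ _ ih L => match L with
      | [] => false
      | v :: M => (Nat.beq s (SS v)).and (ih M)) vl

lemma okW_of (vl : WL) : ∀ L, okB vl L = true → okW vl L := by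
  induction vl with
  | nil => intro L h; exact List.isEmpty_iff.1 h
  | cons i s r t ih =>
    intro L h
    cases L with
    | nil => exact absurd h (by simp [okB])
    | cons v M =>
      have h' : ((Nat.beq s (SS v)).and (okB t M)) = true := h
      rw [Bool.and_eq_true, Nat.beq_eq] at h'
      exact ⟨v, M, rfl, h'.1, ih M h'.2⟩

lemma ok_w : okB wlist vecs = true := by decide +kernel

lemma vecs_nodup : (vecs ++ vecs.map fun n => -n).Nodup := by decide +kernel

lemma vecs_ok : ∀ v ∈ vecs, v ≠ 0 ∧ ∀ k < 7, sqv v k ≤ 16 := by decide +kernel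

lemma vecs_len : vecs.length = 86 := by decide +kernel

end AccL

open AccL

theorem st_ACC : St_ACC wlist := by
  intro tt ht wp n p h σ s c hσ hs
  obtain ⟨D, hD, hb, hle⟩ := sum_spec ht wp n h (σ := σ) (c := c) hs wlist vecs
    (okW_of _ _ ok_w) vecs_ok
  have hB : ∀ k, D k < 2 ^ 56 := fun k => by
    have := hb k
    rw [vecs_len] at this
    omega
  have hf : ∀ j, j < 21 → fld (sumv tt wp n wlist) (56 * j) = D j := fun j hj => by
    rw [fld_eq, hD]; exact digit _ (by norm_num) j 21 D hB hj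
  have h2 := two_list_le h hσ vecs vecs_nodup
  generalize sumv tt wp n wlist = acc at hf
  have f1 : fld acc 56 = D 1 := hf 1 (by norm_num)
  have f2 : fld acc 112 = D 2 := hf 2 (by norm_num)
  have f3 : fld acc 168 = D 3 := hf 3 (by norm_num)
  have f4 : fld acc 224 = D 4 := hf 4 (by norm_num)
  have f6 : fld acc 336 = D 6 := hf 6 (by norm_num)
  have f7 : fld acc 392 = D 7 := hf 7 (by norm_num)
  have f9 : fld acc 504 = D 9 := hf 9 (by norm_num)
  have f10 : fld acc 560 = D 10 := hf 10 (by norm_num)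
  have f12 : fld acc 672 = D 12 := hf 12 (by norm_num)
  have f13 : fld acc 728 = D 13 := hf 13 (by norm_num)
  have f15 : fld acc 840 = D 15 := hf 15 (by norm_num)
  have f16 : fld acc 896 = D 16 := hf 16 (by norm_num)
  have f18 : fld acc 1008 = D 18 := hf 18 (by norm_num)
  have f19 : fld acc 1064 = D 19 := hf 19 (by norm_num)
  have e1 : ellAcc p 1 0 acc = linD p D 1 := by
    simp [ellAcc, linD, f4, f7, f10, f13, f16, f19]
  have e0 : ellAcc p 0 1 acc = linD p D 0 := by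
    simp [ellAcc, linD, f3, f6, f9, f12, f15, f18]
  rw [f1, f2, e1, e0]
  linarith

end Pool.Agent.Lib.SS3
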