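import Pool.Agent.Lib.SS3.Blue

/-! From forms to lattices: the BCC lattice and the continued zeta function. -/

open MeasureTheory Module

namespace Pool.Agent.Lib.SS3

open Pool.Agent.Lib.MP_3a1514_mp

namespace B71

def e3 : Z3 ≃ (Fin 3 → ℤ) where
  toFun n := ![n.1, n.2.1, n.2.2]
  invFun x := (x 0, x 1, x 2)
  left_inv n := by simp
  right_inv x := by funext i; fin_cases i <;> simp

noncomputable def ofMat (A : Matrix (Fin 3) (Fin 3) ℝ) : SP :=
  ⟨∑ i, A i 0 * (A i 0 + A i 1 + A i 2), ∑ i, A i 1 * (A i 0 + A i 1 + A i 2),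
    ∑ i, A i 2 * (A i 0 + A i 1 + A i 2), -(∑ i, A i 0 * A i 1),
    -(∑ i, A i 0 * A i 2), -(∑ i, A i 1 * A i 2)⟩

lemma ofMat_q (A : Matrix (Fin 3) (Fin 3) ℝ) (x y z : ℝ) :
    (ofMat A).q x y z = ∑ i, (A.mulVec ![x, y, z] i) ^ 2 := by
  simp [SP.q, ofMat, Matrix.mulVec, dotProduct, Fin.sum_univ_three]; ring

lemma ofMat_kap (A : Matrix (Fin 3) (Fin 3) ℝ) : (ofMat A).kap = A.det ^ 2 := by
  simp only [SP.kap, ofMat, Matrix.det_fin_three, Fin.sum_univ_three]; ring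

lemma ofMat_PD {A : Matrix (Fin 3) (Fin 3) ℝ} (hA : A.det ≠ 0) : (ofMat A).PD := by
  intro x y z h
  rw [ofMat_q]
  refine lt_of_le_of_ne (Finset.sum_nonneg fun i _ => sq_nonneg _) fun h0 => h ?_
  have h1 := (Finset.sum_eq_zero_iff_of_nonneg fun i _ => sq_nonneg _).1 h0.symm
  have h2 : A.mulVec ![x, y, z] = 0 := by
    funext i; simpa using h1 i (Finset.mem_univ i)
  have h3 := Matrix.eq_zero_of_mulVec_eq_zero hA h2
  exact ⟨by simpa using congrFun h3 0, by simpa using congrFun h3 1, by simpa using congrFun h3 2⟩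

lemma vol_one (e : OrthonormalBasis (Fin 3) ℝ E) :
    (volume : Measure E).real (ZSpan.fundamentalDomain e.toBasis) = 1 := by
  rw [measureReal_congr (ZSpan.fundamentalDomain_ae_parallelepiped e.toBasis volume)]
  have := e.volume_parallelepiped
  simp only [Measure.real, OrthonormalBasis.coe_toBasis]
  rw [this]; simp

lemma cpow_two_mul {r : ℝ} (hr : 0 ≤ r) (s : ℂ) : (r : ℂ) ^ (2 * s) = ((r ^ 2 : ℝ) : ℂ) ^ s := by
  rw [sq, Complex.ofReal_mul, Complex.mul_cpow_ofReal_nonneg hr hr, ← sq]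
  exact Complex.cpow_ofNat_mul _ 2 s

/-- the point of the lattice spanned by `c` with integer coordinates `n` -/
noncomputable def pt (c : Basis (Fin 3) ℝ E) (n : Z3) : E := ∑ j, e3 n j • c j

lemma pt_norm (e : OrthonormalBasis (Fin 3) ℝ E) (c : Basis (Fin 3) ℝ E) (n : Z3) :
    ‖pt c n‖ ^ 2 = (ofMat (e.toBasis.toMatrix c)).Q n := by
  rw [← e.repr.norm_map, EuclideanSpace.real_norm_sq_eq, SP.Q, ofMat_q]
  refine Finset.sum_congr rfl fun i _ => congrArg (fun s : ℝ => s ^ 2) ?_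
  simp [pt, e3, Matrix.mulVec, dotProduct, Basis.toMatrix_apply, Fin.sum_univ_three,
    ← Int.cast_smul_eq_zsmul ℝ, mul_comm]

lemma pt_repr (c : Basis (Fin 3) ℝ E) (n : Z3) (i : Fin 3) : c.repr (pt c n) i = e3 n i := by
  simp [pt, ← Int.cast_smul_eq_zsmul ℝ, Finsupp.single_apply]

lemma pt_inj (c : Basis (Fin 3) ℝ E) : Function.Injective (pt c) := fun m n h => by
  refine e3.injective (funext fun i => ?_)
  have := pt_repr c m i
  rw [h, pt_repr] at this
  exact_mod_cast this.symm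

lemma pt_zero (c : Basis (Fin 3) ℝ E) : pt c 0 = 0 := by simp [pt, e3, Fin.sum_univ_three]

lemma bridge (e : OrthonormalBasis (Fin 3) ℝ E) (c : Basis (Fin 3) ℝ E) {L : Submodule ℤ E}
    (hL : L = Submodule.span ℤ (Set.range c)) :
    (ofMat (e.toBasis.toMatrix c)).PD ∧
    (ofMat (e.toBasis.toMatrix c)).kap = ZLattice.covolume L volume ^ 2 ∧
    ∀ ζ : ℂ → ℂ, (DifferentiableOn ℂ ζ {s | s ≠ 3 / 2} ∧ ∀ s : ℂ, 3 / 2 < s.re →
      HasSum (fun n : {n : Z3 // n ≠ 0} =>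
        1 / (((ofMat (e.toBasis.toMatrix c)).Q n.1 : ℝ) : ℂ) ^ s) (ζ s)) → IsEpsteinZeta L ζ := by
  refine ⟨ofMat_PD ?_, ?_, fun ζ hζ => ⟨hζ.1, fun s hs => ?_⟩⟩
  · rw [← Basis.det_apply]
    exact (e.toBasis.isUnit_det c).ne_zero
  · rw [hL, ZLattice.covolume_eq_measure_fundamentalDomain _ volume
      (ZSpan.isAddFundamentalDomain c volume),
      ZSpan.measureReal_fundamentalDomain c volume e.toBasis, vol_one, mul_one, sq_abs, ofMat_kap,
      Basis.det_apply]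
  · let g : {n : Z3 // n ≠ 0} → {q : E // q ∈ L ∧ q ≠ 0} := fun n =>
      ⟨pt c n.1, by
        rw [hL, Submodule.mem_span_range_iff_exists_fun]
        exact ⟨_, rfl⟩, fun h0 => n.2 (pt_inj c (h0.trans (pt_zero c).symm))⟩
    have hg : Function.Bijective g := by
      refine ⟨fun m n h => Subtype.ext (pt_inj c
        (congrArg (fun q : {q : E // q ∈ L ∧ q ≠ 0} => q.1) h)), ?_⟩
      rintro ⟨q, hq, hq0⟩
      have hq' := hq
      rw [hL, Submodule.mem_span_range_iff_exists_fun] at hq'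
      obtain ⟨x, hx⟩ := hq'
      have h1 : pt c (e3.symm x) = q := by rw [pt, e3.apply_symm_apply, hx]
      exact ⟨⟨e3.symm x, fun h0 => hq0 (by rw [← h1, h0, pt_zero])⟩, Subtype.ext h1⟩
    refine (Equiv.ofBijective g hg).hasSum_iff.1 ?_
    have e1 : ((fun q : {q : E // q ∈ L ∧ q ≠ 0} => 1 / ((‖q.1‖ : ℝ) : ℂ) ^ (2 * s)) ∘
        Equiv.ofBijective g hg) = fun n : {n : Z3 // n ≠ 0} =>
          1 / (((ofMat (e.toBasis.toMatrix c)).Q n.1 : ℝ) : ℂ) ^ s := by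
      funext n
      change 1 / ((‖pt c n.1‖ : ℝ) : ℂ) ^ (2 * s) = _
      rw [cpow_two_mul (norm_nonneg _), pt_norm e]
    rw [e1]
    exact hζ.2 s hs

/-- a basis of a BCC lattice whose dual form is a multiple of the FCC form -/
lemma bcc_basis {B : Submodule ℤ E} (hB : IsBCC B) :
    ∃ (e : OrthonormalBasis (Fin 3) ℝ E) (c : Basis (Fin 3) ℝ E),
      B = Submodule.span ℤ (Set.range c) ∧
      ∃ a : ℝ, 0 < a ∧ ∀ k, (ofMat (e.toBasis.toMatrix c)).Qd k = a * fcc.Q k := by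
  obtain ⟨t, e, ht, hB⟩ := hB
  let v : Fin 3 → E := ![t • e 0 - t • e 1 + t • e 2, t • e 0 + t • e 1 + t • e 2, (2 * t) • e 0]
  have hm : e.toBasis.toMatrix v = !![t, t, 2 * t; -t, t, 0; t, t, 0] := by
    ext i j
    fin_cases i <;> fin_cases j <;> simp [v, Basis.toMatrix_apply]
  have hd : e.toBasis.det v = -(4 * t ^ 3) := by
    rw [Basis.det_apply, hm, Matrix.det_fin_three]; simp; ring
  have hu : IsUnit (e.toBasis.det v) := by
    rw [hd]; exact isUnit_iff_ne_zero.2 (neg_ne_zero.2 (by positivity))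
  obtain ⟨hli, hsp⟩ := (e.toBasis.is_basis_iff_det).2 hu
  let c : Basis (Fin 3) ℝ E := Basis.mk hli hsp.ge
  have hc : ∀ i, c i = v i := fun i => Basis.mk_apply _ _ i
  have hcv : (c : Fin 3 → E) = v := funext hc
  refine ⟨e, c, le_antisymm ?_ ?_, 1 / (4 * t ^ 2), by positivity, fun k => ?_⟩
  · intro q hq
    obtain ⟨x, ⟨a, ha⟩, ⟨b, hb⟩, rfl⟩ := (hB q).1 hq
    rw [Submodule.mem_span_range_iff_exists_fun]
    refine ⟨![-b, x 2 + b, a + b], ?_⟩
    have ha' : (x 0 : ℝ) - x 1 = a + a := by exact_mod_cast ha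
    have hb' : (x 1 : ℝ) - x 2 = b + b := by exact_mod_cast hb
    simp only [Fin.sum_univ_three, hc, v, ← Int.cast_smul_eq_zsmul ℝ]
    simp only [Matrix.cons_val_zero, Matrix.cons_val_one, Matrix.cons_val_two, Matrix.tail_cons,
      Matrix.head_cons, Int.cast_add, Int.cast_neg]
    have h1 : (x 1 : ℝ) = x 2 + 2 * b := by linarith
    have h0 : (x 0 : ℝ) = x 2 + 2 * b + 2 * a := by linarith
    rw [h0, h1]
    module
  · rw [Submodule.span_le]
    rintro _ ⟨i, rfl⟩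
    rw [hc]
    refine (hB _).2 ?_
    fin_cases i
    · exact ⟨![1, -1, 1], by decide, by decide, by simp [v, Fin.sum_univ_three, sub_eq_add_neg]⟩
    · exact ⟨![1, 1, 1], by decide, by decide, by simp [v, Fin.sum_univ_three]⟩
    · exact ⟨![2, 0, 0], by decide, by decide, by simp [v, Fin.sum_univ_three, mul_comm]⟩
  · rw [SP.Qd, ofMat_kap, ← Basis.det_apply, hcv, hd, hm]
    simp only [SP.adj, SP.g11, SP.g22, SP.g33, SP.Q, SP.q, fcc, ofMat, Fin.sum_univ_three]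
    simp
    field_simp
    ring

end B71

open B71 in
theorem st_BCC (h : St_ZETA) : St_BCC := by
  intro L B _ _ hB hV
  obtain ⟨zeta, h1, h2⟩ := h
  obtain ⟨e, c, hc, ha⟩ := bcc_basis hB
  have hr : finrank ℤ L = 3 := by rw [ZLattice.rank ℝ L]; simp
  let b : Basis (Fin 3) ℤ L := Module.finBasisOfFinrankEq ℤ L hr
  obtain ⟨p1, k1, z1⟩ := bridge e (b.ofZLatticeBasis ℝ L) (b.ofZLatticeBasis_span ℝ).symm
  obtain ⟨p2, k2, z2⟩ := bridge e c hc
  exact ⟨_, _, z1 _ (h1 _ p1), z2 _ (h1 _ p2), h2 _ _ p1 p2 (by rw [k1, k2, hV]) ha⟩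

end Pool.Agent.Lib.SS3
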