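import Mathlib

/-! Definitions used in the statements about lattice sums in Euclidean 3-space. -/

open scoped ENNReal

namespace Pool.Agent.Lib.SS3

/-- Euclidean 3-space. -/
abbrev E : Type := EuclideanSpace ℝ (Fin 3)

/-- The lattice sum of `|q|^(-a)` over the nonzero points of `L`, in `[0, ∞]`. -/
noncomputable def Z (a : ℝ) (L : Submodule ℤ E) : ℝ≥0∞ :=
  ∑' q : {q : E // q ∈ L ∧ q ≠ 0}, ENNReal.ofReal (1 / ‖q.1‖ ^ a)

/-- `F` is a face-centred cubic lattice: a positive multiple of `D₃` in some orthonormal frame. -/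
def IsFCC (F : Submodule ℤ E) : Prop :=
  ∃ (t : ℝ) (e : OrthonormalBasis (Fin 3) ℝ E), 0 < t ∧
    ∀ q : E, q ∈ F ↔ ∃ x : Fin 3 → ℤ, Even (x 0 + x 1 + x 2) ∧ q = ∑ i, (t * (x i : ℝ)) • e i

/-- `B` is a body-centred cubic lattice: in some orthonormal frame, a positive multiple of the
set of integer points whose three coordinates have the same parity. -/
def IsBCC (B : Submodule ℤ E) : Prop :=
  ∃ (t : ℝ) (e : OrthonormalBasis (Fin 3) ℝ E), 0 < t ∧
    ∀ q : E, q ∈ B ↔ ∃ x : Fin 3 → ℤ, Even (x 0 - x 1) ∧ Even (x 1 - x 2) ∧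
      q = ∑ i, (t * (x i : ℝ)) • e i

/-- `ζ` is the Epstein zeta function of `L`: holomorphic outside `s = 3/2`, and equal to the sum
of `|q|^(-2s)` over the nonzero points of `L` when the real part of `s` exceeds `3/2`. -/
def IsEpsteinZeta (L : Submodule ℤ E) (ζ : ℂ → ℂ) : Prop :=
  DifferentiableOn ℂ ζ {s | s ≠ 3 / 2} ∧
    ∀ s : ℂ, 3 / 2 < s.re →
      HasSum (fun q : {q : E // q ∈ L ∧ q ≠ 0} => 1 / ((‖q.1‖ : ℝ) : ℂ) ^ (2 * s)) (ζ s)

end Pool.Agent.Lib.SS3
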