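import Pool.Agent.Lib.SS3.Defs
import Pool.Agent.Lib.SS3.Stmt

/-! Statements of the blocks of the project. -/

open MeasureTheory

namespace Pool.Agent.Lib.SS3

open Pool.Agent.Lib.MP_3a1514_mp

/-- Theorem Y for forms of determinant 4. -/
def St_Y : Prop :=
  ∀ p : SP, p.PD → p.kap = 4 → ∀ σ : ℝ, 0 < σ → Phi fcc σ ≤ Phi p σ

/-- Theorem Y in the box around the FCC form. -/
def St_NEAR : Prop :=
  ∀ p : SP, p.PD → p.kap = 4 → 0 ≤ p.p03 → p.p03 ≤ p.p01 / 8 → 0 ≤ p.p12 → p.p12 ≤ p.p01 / 8 →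
    7 / 8 * p.p01 ≤ p.p02 → p.p02 ≤ p.p01 → 7 / 8 * p.p01 ≤ p.p13 → p.p13 ≤ p.p01 →
    7 / 8 * p.p01 ≤ p.p23 → p.p23 ≤ p.p01 → ∀ σ : ℝ, 0 < σ → Phi fcc σ ≤ Phi p σ

/-- First hand-in: FCC is minimal for every exponent `a > 3`. -/
def St_FCC : Prop :=
  ∀ (a : ℝ), 3 < a → ∀ (L F : Submodule ℤ E) [DiscreteTopology L] [IsZLattice ℝ L], IsFCC F →
    ZLattice.covolume F volume = ZLattice.covolume L volume → Z a F ≤ Z a L

/-- Second hand-in: BCC is minimal for the continued zeta function at `0 < s ≤ 1/2`. -/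
def St_BCC : Prop :=
  ∀ (L B : Submodule ℤ E) [DiscreteTopology L] [IsZLattice ℝ L], IsBCC B →
    ZLattice.covolume B volume = ZLattice.covolume L volume →
    ∃ ζL ζB : ℂ → ℂ, IsEpsteinZeta L ζL ∧ IsEpsteinZeta B ζB ∧
      ∀ s : ℝ, 0 < s → s ≤ 1 / 2 → (ζB s).re ≤ (ζL s).re

/-- Form level version of the continuation: `zeta p` for every positive form, and the comparison
with any form `b` of the same determinant whose dual form is a multiple of the FCC form. -/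
def St_ZETA : Prop :=
  ∃ zeta : SP → ℂ → ℂ,
    (∀ p : SP, p.PD → DifferentiableOn ℂ (zeta p) {s | s ≠ 3 / 2} ∧ ∀ s : ℂ, 3 / 2 < s.re →
      HasSum (fun n : {n : Z3 // n ≠ 0} => 1 / ((p.Q n.1 : ℝ) : ℂ) ^ s) (zeta p s)) ∧
    ∀ p b : SP, p.PD → b.PD → b.kap = p.kap → (∃ c : ℝ, 0 < c ∧ ∀ k, b.Qd k = c * fcc.Q k) →
      ∀ s : ℝ, 0 < s → s ≤ 1 / 2 → (zeta b s).re ≤ (zeta p s).re

end Pool.Agent.Lib.SS3
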