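import Pool.Agent.Lib.MP_3a1514_mp.CheckDefs

/-! Boolean checker (natural-number arithmetic only) for the subdivision certificate in the five
shape parameters and the scale. -/

namespace Pool.Agent.Lib.SS3

open Pool.Agent.Lib.MP_3a1514_mp (force mid)

/-- list of lattice vectors: index, packed squares, packed squares in reverse order -/
inductive WL : Type
  | nil : WL
  | cons (i s r : Nat) (t : WL) : WL

def lookT (t j : Nat) : Nat :=
  Nat.land (Nat.shiftRight t (Nat.mul 168 j))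
    374144419156711147060143317175368453031918731001855

def fld (x p : Nat) : Nat := Nat.land (Nat.shiftRight x p) 72057594037927935

noncomputable def vE (Ca Cb A6 B6 la lb k0 k1 e : Nat) : Bool :=
  force (Nat.add k0 (Nat.mul e k1)) fun k =>
  (Nat.ble (Nat.pow (Nat.add la (Nat.mul A6 e)) 3) (Nat.mul Ca k)).and
    (Nat.ble (Nat.pow (Nat.add lb (Nat.mul B6 e)) 3) (Nat.mul Cb k))

noncomputable def vD (Ca Cb A5 B5 A6 B6 la lb u x ab b c e0 e1 d : Nat) : Bool :=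
  force (Nat.add b d) fun v =>
  force (Nat.add (Nat.mul x v) (Nat.mul (Nat.mul b d) u)) fun k0 =>
  force (Nat.add (Nat.mul 1024 (Nat.add u v)) (Nat.mul ab (Nat.add c d))) fun k1 =>
  force (Nat.add la (Nat.mul A5 d)) fun la' =>
  force (Nat.add lb (Nat.mul B5 d)) fun lb' =>
  (vE Ca Cb A6 B6 la' lb' k0 k1 e0).and (vE Ca Cb A6 B6 la' lb' k0 k1 e1)

noncomputable def vB (Ca Cb A3 B3 A5 B5 A6 B6 la lb u x a c d0 d1 e0 e1 b : Nat) : Bool :=
  force (Nat.add a b) fun ab =>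
  force (Nat.add la (Nat.mul A3 b)) fun la' =>
  force (Nat.add lb (Nat.mul B3 b)) fun lb' =>
  (vD Ca Cb A5 B5 A6 B6 la' lb' u x ab b c e0 e1 d0).and
    (vD Ca Cb A5 B5 A6 B6 la' lb' u x ab b c e0 e1 d1)

noncomputable def vC (Ca Cb A3 B3 A4 B4 A5 B5 A6 B6 la lb a b0 b1 d0 d1 e0 e1 c : Nat) : Bool :=
  force (Nat.add a c) fun u =>
  force (Nat.add (Nat.mul 1024 u) (Nat.mul a c)) fun x =>
  force (Nat.add la (Nat.mul A4 c)) fun la' =>
  force (Nat.add lb (Nat.mul B4 c)) fun lb' =>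
  (vB Ca Cb A3 B3 A5 B5 A6 B6 la' lb' u x a c d0 d1 e0 e1 b0).and
    (vB Ca Cb A3 B3 A5 B5 A6 B6 la' lb' u x a c d0 d1 e0 e1 b1)

noncomputable def vA (Ca Cb A1 B1 A2 B2 A3 B3 A4 B4 A5 B5 A6 B6 b0 b1 c0 c1 d0 d1 e0 e1 a : Nat) :
    Bool :=
  force (Nat.add (Nat.mul A1 1024) (Nat.mul A2 a)) fun la =>
  force (Nat.add (Nat.mul B1 1024) (Nat.mul B2 a)) fun lb =>
  (vC Ca Cb A3 B3 A4 B4 A5 B5 A6 B6 la lb a b0 b1 d0 d1 e0 e1 c0).and
    (vC Ca Cb A3 B3 A4 B4 A5 B5 A6 B6 la lb a b0 b1 d0 d1 e0 e1 c1)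

/-- the bound allowed at one end of a slice -/
def cap (E W F : Nat) : Nat :=
  Nat.add (Nat.mul 2 E) (Nat.div (Nat.sub (Nat.mul 7 (Nat.mul W W)) (Nat.mul F F))
    (Nat.add (Nat.mul 2 F) W))

def quarter (C : Nat) : Nat := Nat.shiftRight (Nat.pow C 3) 2

noncomputable def two (m n m' n' acc p q : Nat) (k : Nat → Nat → Bool) : Bool :=
  force (fld acc p) fun R => force (fld acc q) fun P =>
  force (Nat.add (Nat.mul m P) (Nat.mul n R)) fun A =>
  force (Nat.add (Nat.mul m' P) (Nat.mul n' R)) fun B => k A B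

noncomputable def verts (Ca Cb m n m' n' a0 a1 b0 b1 c0 c1 d0 d1 e0 e1 acc : Nat) : Bool :=
  two m n m' n' acc 168 224 fun A1 B1 =>
  two m n m' n' acc 336 392 fun A2 B2 =>
  two m n m' n' acc 504 560 fun A3 B3 =>
  two m n m' n' acc 672 728 fun A4 B4 =>
  two m n m' n' acc 840 896 fun A5 B5 =>
  two m n m' n' acc 1008 1064 fun A6 B6 =>
  (vA Ca Cb A1 B1 A2 B2 A3 B3 A4 B4 A5 B5 A6 B6 b0 b1 c0 c1 d0 d1 e0 e1 a0).and
    (vA Ca Cb A1 B1 A2 B2 A3 B3 A4 B4 A5 B5 A6 B6 b0 b1 c0 c1 d0 d1 e0 e1 a1)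

noncomputable def final (tf sc a0 a1 b0 b1 c0 c1 d0 d1 e0 e1 sa sb acc : Nat) : Bool :=
  force (fld acc 56) fun P0 => force (fld acc 112) fun E =>
  force (Nat.mul 128 P0) fun W => force (Nat.mul 128 sc) fun n =>
  force (Nat.succ (Nat.div (fld tf (Nat.mul 56 sa)) sc)) fun Fa =>
  (Nat.ble Fa (Nat.mul 2 W)).and <|
  force (quarter (cap E W Fa)) fun Ca =>
  cond (Nat.ble 1024 sb)
    (force (quarter (Nat.mul 2 P0)) fun Cb =>
      verts Ca Cb sa n 1 0 a0 a1 b0 b1 c0 c1 d0 d1 e0 e1 acc)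
    (force (Nat.succ (Nat.div (fld tf (Nat.mul 56 sb)) sc)) fun Fb =>
      (Nat.ble Fb (Nat.mul 2 W)).and <|
      force (quarter (cap E W Fb)) fun Cb =>
      verts Ca Cb sa n sb n a0 a1 b0 b1 c0 c1 d0 d1 e0 e1 acc)

noncomputable def sumv (tt wp n : Nat) (vl : WL) : Nat :=
  WL.rec (motive := fun _ => Nat) 0
    (fun i s r _ ih =>
      cond (Nat.blt i n)
        (Nat.add (Nat.mul (lookT tt
          (Nat.land (Nat.shiftRight (Nat.mul wp r) 256) 4294967295)) s) ih)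
        0)
    vl

noncomputable def leaf (i0 tt tf : Nat) (vl : WL) (h a0 a1 b0 b1 c0 c1 d0 d1 e0 e1 sa sb : Nat) :
    Bool :=
  force (Nat.land h 1023) fun sc =>
  force (Nat.land tt (Nat.sub (Nat.shiftLeft 1
    (Nat.mul 168 (Nat.land (Nat.shiftRight h 10) 1023))) 1)) fun tt' =>
  force (Nat.land (Nat.shiftRight h 20) 127) fun n =>
  force (Nat.mul (Nat.shiftRight h 27) (Nat.add 2048 (Nat.shiftLeft (Nat.add (Nat.add a0 a1)
    (Nat.shiftLeft (Nat.add (Nat.add b0 b1) (Nat.shiftLeft (Nat.add (Nat.add c0 c1)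
    (Nat.shiftLeft (Nat.add (Nat.add d0 d1) (Nat.shiftLeft (Nat.add e0 e1) 48)) 48)) 48)) 48)) 48)))
    fun wp =>
  ((Nat.ble 1 sc).and ((Nat.ble i0 sa).and (Nat.blt sa 1024))).and
    (force (sumv tt' wp n vl) fun acc => final tf sc a0 a1 b0 b1 c0 c1 d0 d1 e0 e1 sa sb acc)

noncomputable def chk (i0 tt tf : Nat) (vl : WL) (fuel : Nat) :
    Nat → Nat → Nat → Nat → Nat → Nat → Nat → Nat → Nat → Nat → Nat → Nat → Nat → Bool :=
  Nat.rec (motive := fun _ =>
      Nat → Nat → Nat → Nat → Nat → Nat → Nat → Nat → Nat → Nat → Nat → Nat → Nat → Bool)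
    (fun _ _ _ _ _ _ _ _ _ _ _ _ _ => false)
    (fun _ ih s a0 a1 b0 b1 c0 c1 d0 d1 e0 e1 sa sb =>
      force (Nat.land s 15) fun tag =>
      cond (Nat.ble tag 3)
        (cond (Nat.ble tag 0)
          (force (Nat.shiftRight s 4) fun h =>
            leaf i0 tt tf vl h a0 a1 b0 b1 c0 c1 d0 d1 e0 e1 sa sb)
          (cond (Nat.ble tag 1)
            ((Nat.blt a1 1024).and ((Nat.ble a1 b0).or ((Nat.ble a1 c0).or (Nat.ble a1 d0))))
            (cond (Nat.ble tag 2)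
              ((Nat.ble 896 a0).and ((Nat.ble b1 128).and ((Nat.ble c1 128).and
                ((Nat.ble 896 d0).and (Nat.ble 896 e0)))))
              ((Nat.ble a1 8).and (Nat.ble e1 8)))))
        (force (Nat.land (Nat.shiftRight s 4) 65535) fun len =>
          force (Nat.shiftRight s 20) fun r2 =>
          force (Nat.mod r2 (Nat.shiftLeft 1 len)) fun l =>
          force (Nat.shiftRight r2 len) fun r =>
          cond (Nat.ble tag 6)
            (cond (Nat.ble tag 4)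
              (force (mid a0 a1) fun m => (ih l a0 m b0 b1 c0 c1 d0 d1 e0 e1 sa sb).and
                (ih r m a1 b0 b1 c0 c1 d0 d1 e0 e1 sa sb))
              (cond (Nat.ble tag 5)
                (force (mid b0 b1) fun m => (ih l a0 a1 b0 m c0 c1 d0 d1 e0 e1 sa sb).and
                  (ih r a0 a1 m b1 c0 c1 d0 d1 e0 e1 sa sb))
                (force (mid c0 c1) fun m => (ih l a0 a1 b0 b1 c0 m d0 d1 e0 e1 sa sb).and
                  (ih r a0 a1 b0 b1 m c1 d0 d1 e0 e1 sa sb))))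
            (cond (Nat.ble tag 7)
              (force (mid d0 d1) fun m => (ih l a0 a1 b0 b1 c0 c1 d0 m e0 e1 sa sb).and
                (ih r a0 a1 b0 b1 c0 c1 m d1 e0 e1 sa sb))
              (cond (Nat.ble tag 8)
                (force (mid e0 e1) fun m => (ih l a0 a1 b0 b1 c0 c1 d0 d1 e0 m sa sb).and
                  (ih r a0 a1 b0 b1 c0 c1 d0 d1 m e1 sa sb))
                (force (mid sa sb) fun m => (ih l a0 a1 b0 b1 c0 c1 d0 d1 e0 e1 sa m).and
                  (ih r a0 a1 b0 b1 c0 c1 d0 d1 e0 e1 m sb))))))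
    fuel

end Pool.Agent.Lib.SS3
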