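import Pool.Agent.Lib.SS3.Blue
import Pool.Agent.Lib.SS3.Check

/-! Statements of the blocks of the soundness proof of the checker. -/

namespace Pool.Agent.Lib.SS3

open Pool.Agent.Lib.MP_3a1514_mp

lemma force_eq {α : Type} (n : Nat) (k : Nat → α) : force n k = k n := by
  cases n <;> rfl

def ell (p : SP) (P1 P2 P3 P4 P5 P6 : ℝ) : ℝ :=
  P1 * p.p01 + P2 * p.p02 + P3 * p.p03 + P4 * p.p12 + P5 * p.p13 + P6 * p.p23

def sp (l a b c d e : ℝ) : SP := ⟨l * 1024, l * a, l * b, l * c, l * d, l * e⟩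

structure Dom (l a b c d e : ℝ) : Prop where
  pos : 0 < l
  pd : (sp l a b c d e).PD
  kap : (sp l a b c d e).kap = 4
  ba : b ≤ a
  ca : c ≤ a
  da : d ≤ a
  a1 : a ≤ 1024
  e1 : e ≤ 1024

/-- the claim on a box (half open in the first coordinate) and a range of scales; a lower end
at most `180` means all small scales, an upper end at least `1024` means all large scales -/
def Good (a0 a1 b0 b1 c0 c1 d0 d1 e0 e1 sa sb : ℕ) : Prop :=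
  ∀ l a b c d e σ : ℝ, Dom l a b c d e → (a0 : ℝ) ≤ a → (a < a1 ∨ 1024 ≤ a1) → (b0 : ℝ) ≤ b →
    b ≤ b1 → (c0 : ℝ) ≤ c → c ≤ c1 → (d0 : ℝ) ≤ d → d ≤ d1 → (e0 : ℝ) ≤ e → e ≤ e1 → 0 < σ →
    (sa ≤ 180 ∨ (sa : ℝ) / 256 ≤ σ) → (1024 ≤ sb ∨ σ ≤ (sb : ℝ) / 256) →
    Phi fcc σ ≤ Phi (sp l a b c d e) σ

/-- the linear form read from the accumulator -/
def ellAcc (p : SP) (m n acc : ℕ) : ℝ :=
  ell p (m * fld acc 224 + n * fld acc 168) (m * fld acc 392 + n * fld acc 336)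
    (m * fld acc 560 + n * fld acc 504) (m * fld acc 728 + n * fld acc 672)
    (m * fld acc 896 + n * fld acc 840) (m * fld acc 1064 + n * fld acc 1008)

def St_VERT : Prop :=
  ∀ Ca Cb m n m' n' a0 a1 b0 b1 c0 c1 d0 d1 e0 e1 acc : ℕ,
    verts (quarter Ca) (quarter Cb) m n m' n' a0 a1 b0 b1 c0 c1 d0 d1 e0 e1 acc = true →
    ∀ l a b c d e : ℝ, 0 < l → (sp l a b c d e).kap = 4 → (a0 : ℝ) ≤ a → a ≤ a1 → (b0 : ℝ) ≤ b →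
      b ≤ b1 → (c0 : ℝ) ≤ c → c ≤ c1 → (d0 : ℝ) ≤ d → d ≤ d1 → (e0 : ℝ) ≤ e → e ≤ e1 →
      ellAcc (sp l a b c d e) m n acc ≤ Ca ∧ ellAcc (sp l a b c d e) m' n' acc ≤ Cb

/-- a short vector exists in the corner -/
def St_COR : Prop :=
  ∀ l a b c d e : ℝ, Dom l a b c d e → 0 ≤ b → 0 ≤ c → 0 ≤ d → 0 ≤ e → a ≤ 8 → e ≤ 8 →
    ∃ n : Z3, n ≠ 0 ∧ n ≠ -n ∧ (sp l a b c d e).Q n ≤ 0.58

/-- forms with a short vector -/
def St_SHORT : Prop :=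
  ∀ p : SP, p.PD → p.kap = 4 → ∀ n : Z3, n ≠ 0 → n ≠ -n → p.Q n ≤ 0.58 →
    ∀ σ : ℝ, 0 < σ → Phi fcc σ ≤ Phi p σ

def St_LEAF (tt tf : ℕ) (vl : WL) : Prop :=
  ∀ h a0 a1 b0 b1 c0 c1 d0 d1 e0 e1 sa sb : ℕ,
    leaf 180 tt tf vl h a0 a1 b0 b1 c0 c1 d0 d1 e0 e1 sa sb = true →
    Good a0 a1 b0 b1 c0 c1 d0 d1 e0 e1 sa sb

def St_TREE (tt tf : ℕ) (vl : WL) : Prop :=
  ∀ fuel s a0 a1 b0 b1 c0 c1 d0 d1 e0 e1 sa sb : ℕ,
    chk 180 tt tf vl fuel s a0 a1 b0 b1 c0 c1 d0 d1 e0 e1 sa sb = true →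
    Good a0 a1 b0 b1 c0 c1 d0 d1 e0 e1 sa sb

end Pool.Agent.Lib.SS3
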