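import Pool.Agent.Lib.SS3.Blue2

/-! Statements about the two tables and the accumulator. -/

open Real

namespace Pool.Agent.Lib.SS3

open Pool.Agent.Lib.MP_3a1514_mp

/-- a valid entry of the first table -/
def ValidT (t : ℕ) : Prop :=
  ∃ u J : ℕ, 0 < J ∧ t = u + u * J * 2 ^ 56 + u * J ^ 2 * 2 ^ 112 ∧
    (u : ℝ) * (J : ℝ) ^ 2 ≤ 2 ^ 44 * exp (-((J : ℝ) / 128))

/-- the truncated table -/
def trunc (tt m : ℕ) : ℕ := Nat.land tt (Nat.sub (Nat.shiftLeft 1 (Nat.mul 168 m)) 1)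

def St_TT (tt : ℕ) : Prop := ∀ m j : ℕ, ValidT (lookT (trunc tt m) j)

def St_TF (tf : ℕ) : Prop :=
  ∀ i : ℕ, 180 ≤ i → i < 1024 →
    2 ^ 51 * (Phi fcc ((i : ℝ) / 256) + if i = 180 then 0.000082 else 0)
      ≤ (fld tf (Nat.mul 56 i) : ℝ)

/-- the lower bound for `Phi` read from the accumulator -/
def St_ACC (vl : WL) : Prop :=
  ∀ tt : ℕ, (∀ j, ValidT (lookT tt j)) → ∀ wp n : ℕ, ∀ p : SP, p.PD → ∀ σ s c : ℝ, 0 < σ → 0 < s →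
    s * exp c * (256 * (fld (sumv tt wp n vl) 56 : ℝ) * (2 - c) + 2 * (fld (sumv tt wp n vl) 112 : ℝ)
      - 256 * σ * ellAcc p 1 0 (sumv tt wp n vl) - 2 ^ 15 * s * ellAcc p 0 1 (sumv tt wp n vl))
      ≤ 2 ^ 44 * Phi p σ

end Pool.Agent.Lib.SS3
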