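import Pool.Agent.Lib.SS3.Cert00
import Pool.Agent.Lib.SS3.Cert01
import Pool.Agent.Lib.SS3.Cert02
import Pool.Agent.Lib.SS3.Cert03
import Pool.Agent.Lib.SS3.Cert04
import Pool.Agent.Lib.SS3.Cert05
import Pool.Agent.Lib.SS3.Cert06
import Pool.Agent.Lib.SS3.Cert07
import Pool.Agent.Lib.SS3.Cert08
import Pool.Agent.Lib.SS3.Cert09
import Pool.Agent.Lib.SS3.Cert10
import Pool.Agent.Lib.SS3.Cert11
import Pool.Agent.Lib.SS3.Cert12
import Pool.Agent.Lib.SS3.Cert13
import Pool.Agent.Lib.SS3.Cert14
import Pool.Agent.Lib.SS3.Cert15
import Pool.Agent.Lib.SS3.Cert16
import Pool.Agent.Lib.SS3.Cert17
import Pool.Agent.Lib.SS3.Cert18
import Pool.Agent.Lib.SS3.Cert19
import Pool.Agent.Lib.SS3.Cert20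
import Pool.Agent.Lib.SS3.Cert21
import Pool.Agent.Lib.SS3.Cert22
import Pool.Agent.Lib.SS3.Cert23

/-! The certificate covers the whole domain. -/

namespace Pool.Agent.Lib.SS3

open Cert

theorem cov_all : Cov 0 1024 0 1024 0 1024 0 1024 0 1024 180 1284 :=
  (Cov.xa 512
  g0
  (Cov.xb 512
   (Cov.xc 512
    (Cov.xd 512
     (Cov.xe 512
      g1
      (Cov.xa 768
       g2
       g3))
     (Cov.xe 512
      g4
      (Cov.xa 768
       g5
       (Cov.xb 256
        (Cov.xc 256
         (Cov.xd 768
          g6
          (Cov.xe 768
           g7
           (Cov.xa 896
            g8
            (Cov.xb 128
             (Cov.xc 128
              g9
              (Cov.xd 896
               g10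
               (Cov.xe 896
                g11
                (Cov.xs 732
                 (Cov.xs 456
                  (Cov.xs 318
                   (Cov.xs 249
                    (Cov.xs 214
                     (Cov.xs 197
                      g12
                      g13)
                     g14)
                    g15)
                   g16)
                  g17)
                 g18))))
             (Cov.xc 128
              (Cov.xd 896
               g19
               (Cov.xe 896
                g20
                (Cov.xs 732
                 (Cov.xs 456
                  (Cov.xs 318
                   (Cov.xs 249
                    (Cov.xs 214
                     (Cov.xs 197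
                      g21
                      g22)
                     g23)
                    g24)
                   g25)
                  g26)
                 g27)))
              (Cov.xd 896
               g28
               (Cov.xe 896
                g29
                (Cov.xs 732
                 (Cov.xs 456
                  (Cov.xs 318
                   (Cov.xs 249
                    (Cov.xs 214
                     (Cov.xs 197
                      g30
                      g31)
                     g32)
                    g33)
                   g34)
                  g35)
                 g36))))))))
         (Cov.xd 768
          g37
          (Cov.xe 768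
           g38
           (Cov.xa 896
            g39
            (Cov.xb 128
             g40
             (Cov.xc 384
              g41
              g42))))))
        (Cov.xc 256
         (Cov.xd 768
          g43
          (Cov.xe 768
           g44
           (Cov.xa 896
            g45
            (Cov.xb 384
             g46
             g47))))
         (Cov.xd 768
          g48
          (Cov.xe 768
           g49
           (Cov.xa 896
            g50
            (Cov.xb 384
             (Cov.xc 384
              g51
              g52)
             g53)))))))))
    (Cov.xd 512
     (Cov.xe 512
      g54
      g55)
     (Cov.xe 512
      g56
      (Cov.xa 768
       g57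
       (Cov.xb 256
        g58
        (Cov.xc 768
         (Cov.xd 768
          g59
          (Cov.xe 768
           g60
           g61))
         g62))))))
   (Cov.xc 512
    (Cov.xd 512
     (Cov.xe 512
      g63
      (Cov.xa 768
       g64
       g65))
     (Cov.xe 512
      g66
      (Cov.xa 768
       g67
       (Cov.xb 768
        (Cov.xc 256
         g68
         (Cov.xd 768
          g69
          g70))
        g71))))
    (Cov.xd 512
     (Cov.xe 512
      g72
      (Cov.xa 768
       g73
       g74))
     (Cov.xe 512
      g75
      (Cov.xa 768
       g76
       (Cov.xb 768
        (Cov.xc 768
         (Cov.xd 768
          g77
          (Cov.xe 768
           g78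
           (Cov.xa 896
            g79
            (Cov.xb 640
             (Cov.xc 640
              g80
              g81)
             (Cov.xc 640
              g82
              g83)))))
         (Cov.xd 768
          g84
          (Cov.xe 768
           g85
           (Cov.xa 896
            g86
            g87))))
        (Cov.xc 768
         (Cov.xd 768
          g88
          (Cov.xe 768
           g89
           (Cov.xa 896
            g90
            g91)))
         (Cov.xd 768
          g92
          (Cov.xe 768
           g93
           (Cov.xa 896
            g94
            (Cov.xb 896
             (Cov.xc 896
              (Cov.xd 896
               g95
               (Cov.xe 896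
                g96
                (Cov.xs 732
                 (Cov.xs 456
                  (Cov.xs 318
                   (Cov.xs 249
                    g97
                    g98)
                   g99)
                  g100)
                 g101)))
              g102)
             (Cov.xc 896
              g103
              (Cov.xd 896
               g104
               g105))))))))))))))

end Pool.Agent.Lib.SS3
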