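import Pool.Agent.Lib.SS3.Data

/-! Boxes covered by accepted pieces of the certificate. -/

namespace Pool.Agent.Lib.SS3

inductive Cov : Nat → Nat → Nat → Nat → Nat → Nat → Nat → Nat → Nat → Nat → Nat → Nat → Prop
  | of {fuel s a0 a1 b0 b1 c0 c1 d0 d1 e0 e1 sa sb : Nat}
      (h : Fact (chk 180 tT tF wlist fuel s a0 a1 b0 b1 c0 c1 d0 d1 e0 e1 sa sb = true)) :
      Cov a0 a1 b0 b1 c0 c1 d0 d1 e0 e1 sa sb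
  | xa {a0 a1 b0 b1 c0 c1 d0 d1 e0 e1 sa sb : Nat} (m : Nat)
      (l : Cov a0 m b0 b1 c0 c1 d0 d1 e0 e1 sa sb) (r : Cov m a1 b0 b1 c0 c1 d0 d1 e0 e1 sa sb) :
      Cov a0 a1 b0 b1 c0 c1 d0 d1 e0 e1 sa sb
  | xb {a0 a1 b0 b1 c0 c1 d0 d1 e0 e1 sa sb : Nat} (m : Nat)
      (l : Cov a0 a1 b0 m c0 c1 d0 d1 e0 e1 sa sb) (r : Cov a0 a1 m b1 c0 c1 d0 d1 e0 e1 sa sb) :
      Cov a0 a1 b0 b1 c0 c1 d0 d1 e0 e1 sa sb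
  | xc {a0 a1 b0 b1 c0 c1 d0 d1 e0 e1 sa sb : Nat} (m : Nat)
      (l : Cov a0 a1 b0 b1 c0 m d0 d1 e0 e1 sa sb) (r : Cov a0 a1 b0 b1 m c1 d0 d1 e0 e1 sa sb) :
      Cov a0 a1 b0 b1 c0 c1 d0 d1 e0 e1 sa sb
  | xd {a0 a1 b0 b1 c0 c1 d0 d1 e0 e1 sa sb : Nat} (m : Nat)
      (l : Cov a0 a1 b0 b1 c0 c1 d0 m e0 e1 sa sb) (r : Cov a0 a1 b0 b1 c0 c1 m d1 e0 e1 sa sb) :
      Cov a0 a1 b0 b1 c0 c1 d0 d1 e0 e1 sa sb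
  | xe {a0 a1 b0 b1 c0 c1 d0 d1 e0 e1 sa sb : Nat} (m : Nat)
      (l : Cov a0 a1 b0 b1 c0 c1 d0 d1 e0 m sa sb) (r : Cov a0 a1 b0 b1 c0 c1 d0 d1 m e1 sa sb) :
      Cov a0 a1 b0 b1 c0 c1 d0 d1 e0 e1 sa sb
  | xs {a0 a1 b0 b1 c0 c1 d0 d1 e0 e1 sa sb : Nat} (m : Nat)
      (l : Cov a0 a1 b0 b1 c0 c1 d0 d1 e0 e1 sa m) (r : Cov a0 a1 b0 b1 c0 c1 d0 d1 e0 e1 m sb) :
      Cov a0 a1 b0 b1 c0 c1 d0 d1 e0 e1 sa sb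

end Pool.Agent.Lib.SS3
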