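import Pool.Agent.Lib.MP_3a1514_mp.FccSums
import Pool.Agent.Lib.MP_3a1514_mp.Reduce

/-! The sums `Phi p σ = ∑ exp (-σ Q n) / Q n` and their comparison at different `σ`. -/

open Real MeasureTheory

namespace Pool.Agent.Lib.SS3

open Pool.Agent.Lib.MP_3a1514_mp

noncomputable def psi (σ q : ℝ) : ℝ := exp (-(σ * q)) / q

noncomputable def Phi (p : SP) (σ : ℝ) : ℝ := ∑' n : Z3, psi σ (p.Q n)

lemma psi_nonneg (σ : ℝ) {q : ℝ} (hq : 0 ≤ q) : 0 ≤ psi σ q := by
  unfold psi; positivity

@[simp] lemma psi_zero (σ : ℝ) : psi σ 0 = 0 := by simp [psi]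

variable {p p' : SP}

lemma exists_Q_ge (h : p.PD) : ∃ ε : ℝ, 0 < ε ∧ ∀ n : Z3, n ≠ 0 → ε ≤ p.Q n := by
  obtain ⟨ε, hε, hb⟩ := exists_eps p.q p.q_cont p.q_hom h
  refine ⟨ε, hε, fun n hn => ?_⟩
  have h1 := one_le_normsq hn
  have h2 := hb n.1 n.2.1 n.2.2
  unfold SP.Q
  nlinarith

lemma summable_psi (h : p.PD) {σ : ℝ} (hσ : 0 < σ) : Summable fun n => psi σ (p.Q n) := by
  obtain ⟨ε, hε, hb⟩ := exists_Q_ge h
  refine ((h.summable_theta hσ).div_const ε).of_nonneg_of_le
    (fun n => psi_nonneg σ (h.Q_nonneg n)) fun n => ?_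
  by_cases hn : n = 0
  · subst hn
    rw [SP.Q_zero, psi_zero]; positivity
  · unfold psi
    exact div_le_div_of_nonneg_left (exp_pos _).le hε (hb n hn)

lemma Phi_nonneg (h : p.PD) (σ : ℝ) : 0 ≤ Phi p σ :=
  tsum_nonneg fun n => psi_nonneg σ (h.Q_nonneg n)

lemma integral_exp_psi (σ τ : ℝ) {q : ℝ} (hq : q ≠ 0) :
    ∫ t in σ..τ, exp (-(t * q)) = psi σ q - psi τ q := by
  have h : ∀ t : ℝ, HasDerivAt (fun t => -(exp (-(t * q)) / q)) (exp (-(t * q))) t := by
    intro t
    have h1 : HasDerivAt (fun t => exp (-(t * q))) (exp (-(t * q)) * (-q)) t := by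
      have := ((hasDerivAt_id t).mul_const q).neg.exp
      simpa using this
    refine HasDerivAt.congr_deriv (h1.div_const q).fun_neg ?_
    field_simp
  rw [intervalIntegral.integral_eq_sub_of_hasDerivAt (fun t _ => h t)
    (Continuous.intervalIntegrable (by fun_prop) _ _)]
  simp only [psi]; ring

/-- Comparison of the difference of two sums at `σ ≤ τ` from a lower bound for the
difference of the theta functions. -/
lemma ewald1 (h : p.PD) (h' : p'.PD) {σ τ c : ℝ} (hσ : 0 < σ) (hστ : σ ≤ τ) (hc : 0 ≤ c) (m : ℕ)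
    (hb : ∀ t, 0 < t → t ≤ τ → -(c * t ^ m) ≤ p.theta t - p'.theta t) :
    Phi p τ - Phi p' τ - c * (τ ^ (m + 1) / (m + 1)) ≤ Phi p σ - Phi p' σ := by
  have hτ : 0 < τ := hσ.trans_le hστ
  let F : Z3 → ℝ → ℝ := fun n t => exp (-(t * p.Q n)) - exp (-(t * p'.Q n))
  have hFc : ∀ n, Continuous (F n) := fun n => by simp only [F]; fun_prop
  have hint : ∀ n, Integrable (F n) (volume.restrict (Set.Ioc σ τ)) := fun n =>
    ((hFc n).intervalIntegrable σ τ).1
  have hval : ∀ n, ∫ t in Set.Ioc σ τ, F n t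
      = (psi σ (p.Q n) - psi σ (p'.Q n)) - (psi τ (p.Q n) - psi τ (p'.Q n)) := by
    intro n
    by_cases hn : n = 0
    · subst hn; simp [F]
    rw [← intervalIntegral.integral_of_le hστ]
    simp only [F]
    rw [intervalIntegral.integral_sub (Continuous.intervalIntegrable (by fun_prop) _ _)
      (Continuous.intervalIntegrable (by fun_prop) _ _), integral_exp_psi σ τ (h.Q_pos hn).ne',
      integral_exp_psi σ τ (h'.Q_pos hn).ne']
    ring
  have hsum : Summable fun n => ∫ t in Set.Ioc σ τ, ‖F n t‖ := by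
    refine ((summable_psi h hσ).add (summable_psi h' hσ)).of_nonneg_of_le
      (fun n => integral_nonneg fun t => norm_nonneg _) fun n => ?_
    by_cases hn : n = 0
    · subst hn; simp [F]
    have e1 := integral_exp_psi σ τ (h.Q_pos hn).ne'
    have e2 := integral_exp_psi σ τ (h'.Q_pos hn).ne'
    have b1 := psi_nonneg τ (h.Q_nonneg n)
    have b2 := psi_nonneg τ (h'.Q_nonneg n)
    have : ∫ t in σ..τ, ‖F n t‖ ≤ ∫ t in σ..τ, (exp (-(t * p.Q n)) + exp (-(t * p'.Q n))) := by
      refine intervalIntegral.integral_mono_on hστ ((hFc n).norm.intervalIntegrable _ _)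
        (Continuous.intervalIntegrable (by fun_prop) _ _) fun t _ => ?_
      have a1 := exp_pos (-(t * p.Q n))
      have a2 := exp_pos (-(t * p'.Q n))
      simp only [F]
      rw [Real.norm_eq_abs, abs_le]
      constructor <;> linarith
    rw [intervalIntegral.integral_add (Continuous.intervalIntegrable (by fun_prop) _ _)
      (Continuous.intervalIntegrable (by fun_prop) _ _), e1, e2,
      intervalIntegral.integral_of_le hστ] at this
    linarith
  have hs := hasSum_integral_of_summable_integral_norm hint hsum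
  have hs2 : HasSum (fun n => ∫ t in Set.Ioc σ τ, F n t)
      ((Phi p σ - Phi p' σ) - (Phi p τ - Phi p' τ)) := by
    simp_rw [hval]
    exact ((summable_psi h hσ).hasSum.sub (summable_psi h' hσ).hasSum).sub
      ((summable_psi h hτ).hasSum.sub (summable_psi h' hτ).hasSum)
  have e := hs.unique hs2
  have hlow : -(c * (τ ^ (m + 1) / (m + 1))) ≤ ∫ t in Set.Ioc σ τ, ∑' n, F n t := by
    by_cases hI : Integrable (fun t => ∑' n, F n t) (volume.restrict (Set.Ioc σ τ))
    · have e1 : ∫ t in Set.Ioc σ τ, -(c * t ^ m)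
          = -(c * ((τ ^ (m + 1) - σ ^ (m + 1)) / (m + 1))) := by
        rw [← intervalIntegral.integral_of_le hστ, intervalIntegral.integral_neg,
          intervalIntegral.integral_const_mul, integral_pow]
      have e2 : -(c * (τ ^ (m + 1) / (m + 1)))
          ≤ -(c * ((τ ^ (m + 1) - σ ^ (m + 1)) / (m + 1))) := by
        have : 0 ≤ σ ^ (m + 1) := by positivity
        have : (τ ^ (m + 1) - σ ^ (m + 1)) / (m + 1) ≤ τ ^ (m + 1) / (m + 1) := by
          gcongr; linarith
        nlinarith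
      refine e2.trans ?_
      rw [← e1]
      refine setIntegral_mono_on
        (Continuous.intervalIntegrable (u := fun t => -(c * t ^ m)) (by fun_prop) σ τ).1 hI
        measurableSet_Ioc fun t ht => ?_
      have ht0 : 0 < t := hσ.trans ht.1
      have : ∑' n, F n t = p.theta t - p'.theta t := by
        simp only [F]
        rw [(h.summable_theta ht0).tsum_sub (h'.summable_theta ht0), SP.theta, SP.theta]
      rw [this]
      exact hb t ht0 ht.2
    · rw [integral_undef hI]
      have : 0 ≤ c * (τ ^ (m + 1) / (m + 1)) := by positivity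
      linarith
  linarith

/-- tangent line bound -/
lemma psi_linear {σ q0 q : ℝ} (hσ : 0 ≤ σ) (h0 : 0 < q0) (hq : 0 < q) :
    psi σ q0 - exp (-(σ * q0)) * (σ / q0 + 1 / q0 ^ 2) * (q - q0) ≤ psi σ q := by
  have e1 : exp (-(σ * q)) = exp (-(σ * q0)) * exp (-(σ * (q - q0))) := by
    rw [← exp_add]; congr 1; ring
  have h1 : 1 - σ * (q - q0) ≤ exp (-(σ * (q - q0))) := by
    linarith [add_one_le_exp (-(σ * (q - q0)))]
  have h2 : exp (-(σ * q0)) * ((1 - σ * (q - q0)) / q) ≤ psi σ q := by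
    unfold psi
    rw [e1, mul_div_assoc]
    gcongr
  have e2 : exp (-(σ * q0)) * ((1 - σ * (q - q0)) / q)
      - (psi σ q0 - exp (-(σ * q0)) * (σ / q0 + 1 / q0 ^ 2) * (q - q0))
      = exp (-(σ * q0)) * ((q - q0) ^ 2 * (σ * q0 + 1) / (q * q0 ^ 2)) := by
    unfold psi; field_simp; ring
  have h3 : 0 ≤ exp (-(σ * q0)) * ((q - q0) ^ 2 * (σ * q0 + 1) / (q * q0 ^ 2)) := by positivity
  linarith

end Pool.Agent.Lib.SS3
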