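import Pool.Agent.Lib.MP_3a1514_mp.Reduce

/-! Generic Selling reduction, Mellin transform, and transfer from forms to lattices. -/

open MeasureTheory Module Real
open scoped ENNReal

namespace Pool.Agent.Lib.SS3

open Pool.Agent.Lib.MP_3a1514_mp

/-- Selling reduction for any property that is invariant under change of basis. -/
lemma reduceP (P : SP → Prop)
    (hP : ∀ (p : SP) (u v w : Z3), det3 u v w ^ 2 = 1 → P (p.chg u v w) → P p)
    (H : ∀ a b c d e f : ℝ, 0 ≤ b → 0 ≤ c → 0 ≤ d → 0 ≤ e → 0 ≤ f → c ≤ b → d ≤ b → e ≤ b →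
      b ≤ a → f ≤ a → (⟨a, b, c, d, e, f⟩ : SP).PD → (⟨a, b, c, d, e, f⟩ : SP).kap = 4 →
      P ⟨a, b, c, d, e, f⟩) {p : SP} (hp : p.PD) (hk : p.kap = 4) : P p := by
  let G : ℝ → ℝ → ℝ → ℝ → ℝ → ℝ → Prop := fun a b c d e f =>
    (⟨a, b, c, d, e, f⟩ : SP).PD → (⟨a, b, c, d, e, f⟩ : SP).kap = 4 → P ⟨a, b, c, d, e, f⟩
  have gc : ∀ {p p' : SP} {u v w : Z3}, det3 u v w ^ 2 = 1 → p.chg u v w = p' →
      (p'.PD → p'.kap = 4 → P p') → p.PD → p.kap = 4 → P p := by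
    intro p p' u v w h e H h1 h2
    subst e
    exact hP p u v w h (H (h1.chg h) (by rw [p.chg_kap' h, h2]))
  have s01 : ∀ {a b c d e f : ℝ}, G a d e b c f → G a b c d e f := fun H =>
    gc (by decide) (SP.perm_01 _) H
  have s12 : ∀ {a b c d e f : ℝ}, G b a c d f e → G a b c d e f := fun H =>
    gc (by decide) (SP.perm_12 _) H
  have s23 : ∀ {a b c d e f : ℝ}, G a c b e d f → G a b c d e f := fun H =>
    gc (by decide) (SP.perm_23 _) H
  have H1 : ∀ a b c d e f : ℝ, 0 ≤ b → 0 ≤ c → 0 ≤ d → 0 ≤ e → 0 ≤ f → b ≤ a → c ≤ a → d ≤ a →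
      e ≤ a → f ≤ a → G a b c d e f := by
    intro a b c d e f hb hc hd he hf ba ca da ea fa
    rcases max4 b c d e with ⟨x, y, z⟩ | ⟨x, y, z⟩ | ⟨x, y, z⟩ | ⟨x, y, z⟩
    · exact H a b c d e f hb hc hd he hf x y z ba fa
    · exact s23 (H a c b e d f hc hb he hd hf x z y ca fa)
    · exact s01 (H a d e b c f hd he hb hc hf z x y da fa)
    · exact s01 (s23 (H a e d c b f he hd hc hb hf z y x ea fa))
  have H2 : ∀ a b c d e f : ℝ, 0 ≤ a → 0 ≤ b → 0 ≤ c → 0 ≤ d → 0 ≤ e → 0 ≤ f →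
      G a b c d e f := by
    intro a b c d e f ha hb hc hd he hf
    rcases max6 a b c d e f with ⟨x1, x2, x3, x4, x5⟩ | ⟨x1, x2, x3, x4, x5⟩ | ⟨x1, x2, x3, x4, x5⟩
      | ⟨x1, x2, x3, x4, x5⟩ | ⟨x1, x2, x3, x4, x5⟩ | ⟨x1, x2, x3, x4, x5⟩
    · apply H1 <;> assumption
    · apply s12; apply H1 <;> assumption
    · apply s23; apply s12; apply H1 <;> assumption
    · apply s01; apply s12; apply H1 <;> assumption
    · apply s01; apply s23; apply s12; apply H1 <;> assumption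
    · apply s12; apply s01; apply s23; apply s12; apply H1 <;> assumption
  obtain ⟨u, v, w, h, h1, h2, h3, h4, h5, h6⟩ := hp.selling
  exact gc h rfl (H2 _ _ _ _ _ _ h1 h2 h3 h4 h5 h6) hp hk

/-- sums of a function of the form are invariant under change of basis -/
lemma chg_tsum (f : ℝ → ℝ) (p : SP) {u v w : Z3} (h : det3 u v w ^ 2 = 1) :
    ∑' n, f ((p.chg u v w).Q n) = ∑' n, f (p.Q n) := by
  simp_rw [SP.chg_Q]
  exact (linEquiv u v w h).tsum_eq fun n => f (p.Q n)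

/-! ### Mellin transform -/

lemma summable_Y {p : SP} (h : p.PD) {σ : ℝ} (hσ : 0 < σ) :
    Summable fun n => exp (-(σ * p.Q n)) / p.Q n := by
  refine (h.summable_Z.mul_left σ⁻¹).of_nonneg_of_le
    (fun n => div_nonneg (exp_pos _).le (h.Q_nonneg n)) fun n => ?_
  by_cases hn : n = 0
  · subst hn; simp
  have hq := h.Q_pos hn
  have h1 : σ * p.Q n ≤ exp (σ * p.Q n) := by linarith [add_one_le_exp (σ * p.Q n)]
  have h2 : exp (-(σ * p.Q n)) ≤ (σ * p.Q n)⁻¹ := by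
    rw [exp_neg]; exact inv_anti₀ (by positivity) h1
  calc exp (-(σ * p.Q n)) / p.Q n ≤ (σ * p.Q n)⁻¹ / p.Q n := by gcongr
    _ = σ⁻¹ * (p.Q n ^ 2)⁻¹ := by field_simp

lemma mellin_one {s q : ℝ} (hs : 1 < s) (hq : 0 ≤ q) :
    ∫⁻ t in Set.Ioi (0 : ℝ), ENNReal.ofReal (t ^ (s - 2)) * ENNReal.ofReal (exp (-(t * q)) / q)
      = ENNReal.ofReal (Gamma (s - 1)) * ENNReal.ofReal (1 / q ^ s) := by
  rcases hq.eq_or_lt with rfl | hq
  · simp [Real.zero_rpow (show s ≠ 0 by linarith)]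
  have h1 := integral_rpow_mul_exp_neg_mul_Ioi (a := s - 1) (r := q) (by linarith) hq
  have h2 : IntegrableOn (fun t : ℝ => t ^ (s - 1 - 1) * exp (-(q * t))) (Set.Ioi 0) := by
    have := integrableOn_rpow_mul_exp_neg_mul_rpow (p := 1) (s := s - 1 - 1) (b := q)
      (by linarith) one_pos hq
    simpa only [Real.rpow_one, neg_mul] using this
  have h3 := ofReal_integral_eq_lintegral_ofReal (h2.div_const q) (by
    filter_upwards [ae_restrict_mem measurableSet_Ioi] with t ht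
    have : 0 < t := ht
    simp only [Pi.zero_apply]
    positivity)
  rw [integral_div, h1] at h3
  rw [← ENNReal.ofReal_mul (Gamma_pos_of_pos (by linarith)).le]
  have e : Gamma (s - 1) * (1 / q ^ s) = (1 / q) ^ (s - 1) * Gamma (s - 1) / q := by
    rw [Real.div_rpow zero_le_one hq.le, Real.one_rpow, Real.rpow_sub_one hq.ne']
    field_simp
  rw [e, h3]
  refine setLIntegral_congr_fun measurableSet_Ioi fun t ht => ?_
  have : 0 < t := ht
  rw [← ENNReal.ofReal_mul (by positivity), mul_div_assoc, mul_comm q t,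
    show s - 1 - 1 = s - 2 by ring]

lemma mellin_sum {p : SP} (h : p.PD) {s : ℝ} (hs : 1 < s) :
    ∫⁻ t in Set.Ioi (0 : ℝ), ENNReal.ofReal (t ^ (s - 2))
        * ENNReal.ofReal (∑' n, exp (-(t * p.Q n)) / p.Q n)
      = ENNReal.ofReal (Gamma (s - 1)) * ∑' n, ENNReal.ofReal (1 / p.Q n ^ s) := by
  rw [← ENNReal.tsum_mul_left]
  simp_rw [← mellin_one hs (h.Q_nonneg _)]
  rw [← lintegral_tsum fun n => by fun_prop]
  refine setLIntegral_congr_fun measurableSet_Ioi fun t ht => ?_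
  rw [ENNReal.tsum_mul_left, ENNReal.ofReal_tsum_of_nonneg
    (fun n => div_nonneg (exp_pos _).le (h.Q_nonneg n)) (summable_Y h ht)]

lemma epstein_le {p p' : SP} (h : p.PD) (h' : p'.PD)
    (hY : ∀ σ : ℝ, 0 < σ →
      ∑' n, exp (-(σ * p.Q n)) / p.Q n ≤ ∑' n, exp (-(σ * p'.Q n)) / p'.Q n)
    {s : ℝ} (hs : 1 < s) :
    ∑' n, ENNReal.ofReal (1 / p.Q n ^ s) ≤ ∑' n, ENNReal.ofReal (1 / p'.Q n ^ s) := by
  have hG : ENNReal.ofReal (Gamma (s - 1)) ≠ 0 :=
    (ENNReal.ofReal_pos.2 (Gamma_pos_of_pos (by linarith))).ne'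
  rw [← ENNReal.mul_le_mul_iff_right hG ENNReal.ofReal_ne_top, ← mellin_sum h hs,
    ← mellin_sum h' hs]
  refine setLIntegral_mono' measurableSet_Ioi fun t ht => ?_
  exact mul_le_mul_right (ENNReal.ofReal_le_ofReal (hY t ht)) _

/-! ### from forms to lattices -/

def e3 : Z3 ≃ (Fin 3 → ℤ) where
  toFun n := ![n.1, n.2.1, n.2.2]
  invFun x := (x 0, x 1, x 2)
  left_inv n := by simp
  right_inv x := by funext i; fin_cases i <;> simp

noncomputable def ofMat (A : Matrix (Fin 3) (Fin 3) ℝ) (s : ℝ) : SP :=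
  ⟨s * ∑ i, A i 0 * (A i 0 + A i 1 + A i 2), s * ∑ i, A i 1 * (A i 0 + A i 1 + A i 2),
    s * ∑ i, A i 2 * (A i 0 + A i 1 + A i 2), -(s * ∑ i, A i 0 * A i 1),
    -(s * ∑ i, A i 0 * A i 2), -(s * ∑ i, A i 1 * A i 2)⟩

lemma ofMat_q (A : Matrix (Fin 3) (Fin 3) ℝ) (s x y z : ℝ) :
    (ofMat A s).q x y z = s * ∑ i, (A.mulVec ![x, y, z] i) ^ 2 := by
  simp [SP.q, ofMat, Matrix.mulVec, dotProduct, Fin.sum_univ_three]; ring

lemma ofMat_kap (A : Matrix (Fin 3) (Fin 3) ℝ) (s : ℝ) :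
    (ofMat A s).kap = s ^ 3 * A.det ^ 2 := by
  have e : (ofMat A s).gram = s • (A.transpose * A) := by
    ext i j
    fin_cases i <;> fin_cases j <;>
      simp [-mul_eq_mul_left_iff, SP.gram, Matrix.mul_apply, Fin.sum_univ_three, ofMat, SP.g11,
        SP.g22, SP.g33] <;> ring
  rw [SP.kap_eq_det, e, Matrix.det_smul, Matrix.det_mul, Matrix.det_transpose]
  simp [sq]

lemma ofMat_PD {A : Matrix (Fin 3) (Fin 3) ℝ} (hA : A.det ≠ 0) {s : ℝ} (hs : 0 < s) :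
    (ofMat A s).PD := by
  intro x y z h
  rw [ofMat_q]
  refine mul_pos hs (lt_of_le_of_ne (Finset.sum_nonneg fun i _ => sq_nonneg _) fun h0 => h ?_)
  have h1 := (Finset.sum_eq_zero_iff_of_nonneg fun i _ => sq_nonneg _).1 h0.symm
  have h2 : A.mulVec ![x, y, z] = 0 := by
    funext i; simpa using h1 i (Finset.mem_univ i)
  have h3 := Matrix.eq_zero_of_mulVec_eq_zero hA h2
  exact ⟨by simpa using congrFun h3 0, by simpa using congrFun h3 1, by simpa using congrFun h3 2⟩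

abbrev E3 : Type := EuclideanSpace ℝ (Fin 3)

lemma vol_one (e : OrthonormalBasis (Fin 3) ℝ E3) :
    (volume : Measure E3).real (ZSpan.fundamentalDomain e.toBasis) = 1 := by
  rw [measureReal_congr (ZSpan.fundamentalDomain_ae_parallelepiped e.toBasis volume)]
  have := e.volume_parallelepiped
  simp only [Measure.real, OrthonormalBasis.coe_toBasis]
  rw [this]; simp

lemma norm_sq_eq (e : OrthonormalBasis (Fin 3) ℝ E3) (q : E3) :
    ‖q‖ ^ 2 = ∑ i, (e.repr q i) ^ 2 := by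
  rw [← e.repr.norm_map q, EuclideanSpace.real_norm_sq_eq]

lemma repr_sum (e : OrthonormalBasis (Fin 3) ℝ E3) (c : Fin 3 → ℝ) (i : Fin 3) :
    e.repr (∑ j, c j • e j) i = c i := by
  simp [map_sum, Pi.single_apply]

lemma covol_fcc (F : Submodule ℤ E3) {t : ℝ} (ht : 0 < t) (e : OrthonormalBasis (Fin 3) ℝ E3)
    (hF : ∀ q : E3, q ∈ F ↔
      ∃ x : Fin 3 → ℤ, Even (x 0 + x 1 + x 2) ∧ q = ∑ i, (t * (x i : ℝ)) • e i) :
    ZLattice.covolume F volume = 2 * t ^ 3 := by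
  let v : Fin 3 → E3 := ![t • e 0 + t • e 1, t • e 0 + t • e 2, t • e 1 + t • e 2]
  have hm : e.toBasis.toMatrix v = !![t, t, 0; t, 0, t; 0, t, t] := by
    ext i j
    fin_cases i <;> fin_cases j <;> simp [v, Basis.toMatrix_apply]
  have hd : e.toBasis.det v = -(2 * t ^ 3) := by
    rw [Basis.det_apply, hm, Matrix.det_fin_three]; simp; ring
  have hu : IsUnit (e.toBasis.det v) := by
    rw [hd]; exact isUnit_iff_ne_zero.2 (neg_ne_zero.2 (by positivity))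
  obtain ⟨hli, hsp⟩ := (e.toBasis.is_basis_iff_det).2 hu
  let c : Basis (Fin 3) ℝ E3 := Basis.mk hli hsp.ge
  have hc : ∀ i, c i = v i := fun i => Basis.mk_apply _ _ i
  have hFc : F = Submodule.span ℤ (Set.range c) := by
    apply le_antisymm
    · intro q hq
      obtain ⟨x, ⟨k, hk⟩, rfl⟩ := (hF q).1 hq
      rw [Submodule.mem_span_range_iff_exists_fun]
      refine ⟨![k - x 2, k - x 1, k - x 0], ?_⟩
      have hk' : (x 0 : ℝ) + x 1 + x 2 = k + k := by exact_mod_cast hk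
      simp only [Fin.sum_univ_three, hc, v, ← Int.cast_smul_eq_zsmul ℝ]
      simp only [Matrix.cons_val_zero, Matrix.cons_val_one, Matrix.cons_val_two, Matrix.tail_cons,
        Matrix.head_cons, Int.cast_sub]
      have hk0 : (k : ℝ) = (x 0 + x 1 + x 2) / 2 := by linarith
      rw [hk0]
      module
    · rw [Submodule.span_le]
      rintro _ ⟨i, rfl⟩
      rw [hc]
      refine (hF _).2 ?_
      fin_cases i
      · exact ⟨![1, 1, 0], by decide, by simp [v, Fin.sum_univ_three]⟩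
      · exact ⟨![1, 0, 1], by decide, by simp [v, Fin.sum_univ_three]⟩
      · exact ⟨![0, 1, 1], by decide, by simp [v, Fin.sum_univ_three]⟩
  have hcv : (c : Fin 3 → E3) = v := funext hc
  rw [hFc, ZLattice.covolume_eq_measure_fundamentalDomain _ volume
    (ZSpan.isAddFundamentalDomain c volume), ZSpan.measureReal_fundamentalDomain c volume e.toBasis,
    vol_one, mul_one, hcv, hd, abs_neg, abs_of_pos (by positivity)]

/-- The nonzero points of a lattice, parametrised by a form of determinant four. -/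
lemma exists_form (L : Submodule ℤ E3) [DiscreteTopology L] [IsZLattice ℝ L] {t : ℝ} (ht : 0 < t)
    (hL : ZLattice.covolume L volume = 2 * t ^ 3) :
    ∃ p : SP, p.PD ∧ p.kap = 4 ∧ ∃ f : {n : Z3 // n ≠ 0} ≃ {q : E3 // q ∈ L ∧ q ≠ 0},
      ∀ n, ‖(f n).1‖ ^ 2 = t ^ 2 * p.Q n.1 := by
  let e : OrthonormalBasis (Fin 3) ℝ E3 := EuclideanSpace.basisFun (Fin 3) ℝ
  have hr : finrank ℤ L = 3 := by rw [ZLattice.rank ℝ L]; simp
  let b : Basis (Fin 3) ℤ L := Module.finBasisOfFinrankEq ℤ L hr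
  set A := e.toBasis.toMatrix ((↑) ∘ b) with hA
  have hd : |A.det| = 2 * t ^ 3 := by
    rw [← hL, ZLattice.covolume_eq_det_mul_measureReal L volume b e.toBasis, vol_one, mul_one,
      Basis.det_apply]
  have hd0 : A.det ≠ 0 := fun h => by
    rw [h, abs_zero] at hd
    have : 0 < 2 * t ^ 3 := by positivity
    linarith
  let g : Z3 ≃ L := e3.trans b.equivFun.symm.toEquiv
  have hg : ∀ n, g n = b.equivFun.symm (e3 n) := fun n => rfl
  have g0 : ∀ n, g n = 0 ↔ n = 0 := fun n => by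
    rw [hg, b.equivFun.symm.map_eq_zero_iff, ← e3.eq_symm_apply]
    rfl
  refine ⟨ofMat A (t ^ 2)⁻¹, ofMat_PD hd0 (by positivity), ?_,
    ⟨fun n => ⟨(g n.1 : E3), (g n.1).2, fun h => n.2 ((g0 _).1 (Subtype.ext h))⟩,
      fun q => ⟨g.symm ⟨q.1, q.2.1⟩, fun h => q.2.2 ?_⟩, fun n => ?_, fun q => ?_⟩, fun n => ?_⟩
  · rw [ofMat_kap, ← sq_abs A.det, hd]
    field_simp; norm_num
  · have := (g0 _).2 h
    rw [g.apply_symm_apply] at this
    exact congrArg Subtype.val this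
  · exact Subtype.ext (g.symm_apply_apply n.1)
  · exact Subtype.ext (congrArg (fun z : L => (z : E3)) (g.apply_symm_apply ⟨q.1, q.2.1⟩))
  · change ‖(g n.1 : E3)‖ ^ 2 = _
    rw [SP.Q, ofMat_q, ← mul_assoc, mul_inv_cancel₀ (by positivity), one_mul, norm_sq_eq e]
    refine Finset.sum_congr rfl fun i _ => congrArg (fun s : ℝ => s ^ 2) ?_
    have : (![(n.1.1 : ℝ), n.1.2.1, n.1.2.2] : Fin 3 → ℝ) = fun j => ((e3 n.1 j : ℤ) : ℝ) := by
      funext j; fin_cases j <;> simp [e3]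
    rw [this, hg, hA]
    simp only [Basis.equivFun_symm_apply, Matrix.mulVec, dotProduct, Basis.toMatrix_apply,
      Submodule.coe_sum, map_sum, Function.comp]
    rw [WithLp.ofLp_sum, Finset.sum_apply]
    refine Finset.sum_congr rfl fun j _ => ?_
    rw [Submodule.coe_smul, ← Int.cast_smul_eq_zsmul ℝ, map_smul]
    simp [mul_comm]

/-- The nonzero points of a face-centred cubic lattice. -/
lemma fcc_form (F : Submodule ℤ E3) {t : ℝ} (ht : 0 < t) (e : OrthonormalBasis (Fin 3) ℝ E3)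
    (hF : ∀ q : E3, q ∈ F ↔
      ∃ x : Fin 3 → ℤ, Even (x 0 + x 1 + x 2) ∧ q = ∑ i, (t * (x i : ℝ)) • e i) :
    ∃ f : {n : Z3 // n ≠ 0} ≃ {q : E3 // q ∈ F ∧ q ≠ 0},
      ∀ n, ‖(f n).1‖ ^ 2 = t ^ 2 * fcc.Q n.1 := by
  let X : Z3 → Fin 3 → ℤ := fun n => ![n.2.2, n.2.1 - n.1, n.1 + n.2.1 - n.2.2]
  have hn : ∀ n : Z3, ‖∑ i, (t * (X n i : ℝ)) • e i‖ ^ 2 = t ^ 2 * fcc.Q n := fun n => by
    rw [norm_sq_eq e, SP.Q, fcc_q]
    simp only [repr_sum]
    simp [X, Fin.sum_univ_three]; ring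
  let f : {n : Z3 // n ≠ 0} → {q : E3 // q ∈ F ∧ q ≠ 0} := fun n =>
    ⟨∑ i, (t * (X n.1 i : ℝ)) • e i,
      (hF _).2 ⟨X n.1, ⟨n.1.2.1, by simp [X]; ring⟩, rfl⟩, fun h0 => by
        have h1 := hn n.1
        have h2 := fcc_PD.Q_pos n.2
        rw [h0, norm_zero] at h1
        have : 0 < t ^ 2 * fcc.Q n.1 := by positivity
        linarith⟩
  refine ⟨Equiv.ofBijective f ⟨fun m n h => ?_, ?_⟩, fun n => hn n.1⟩
  · have h1 : ∀ i, X m.1 i = X n.1 i := fun i => by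
      have h1 := congrArg (fun q : {q : E3 // q ∈ F ∧ q ≠ 0} => e.repr q.1 i) h
      simp only [f, repr_sum] at h1
      exact_mod_cast mul_left_cancel₀ ht.ne' h1
    have a0 := h1 0
    have a1 := h1 1
    have a2 := h1 2
    simp [X] at a0 a1 a2
    exact Subtype.ext (Prod.ext (by omega) (Prod.ext (by omega) a0))
  · rintro ⟨q, hq, hq0⟩
    obtain ⟨x, ⟨k, hk⟩, rfl⟩ := (hF q).1 hq
    have hX : X (k - x 1, k, x 0) = x := by
      funext i; fin_cases i <;> simp [X]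
      omega
    refine ⟨⟨(k - x 1, k, x 0), fun h0 => hq0 ?_⟩, Subtype.ext ?_⟩
    · rw [← hX, h0]; simp [X, Fin.sum_univ_three]
    · simp only [f, hX]

/-- Transfer of an inequality between sums over forms to sums over lattices. -/
theorem transfer (g : ℝ → ℝ≥0∞)
    (H : ∀ p : SP, p.PD → p.kap = 4 → ∀ c : ℝ, 0 < c →
      ∑' n : {n : Z3 // n ≠ 0}, g (c * fcc.Q n.1) ≤ ∑' n : {n : Z3 // n ≠ 0}, g (c * p.Q n.1))
    (L F : Submodule ℤ E3) [DiscreteTopology L] [IsZLattice ℝ L] {t : ℝ} (ht : 0 < t)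
    (e : OrthonormalBasis (Fin 3) ℝ E3)
    (hF : ∀ q : E3, q ∈ F ↔
      ∃ x : Fin 3 → ℤ, Even (x 0 + x 1 + x 2) ∧ q = ∑ i, (t * (x i : ℝ)) • e i)
    (h : ZLattice.covolume F volume = ZLattice.covolume L volume) :
    ∑' q : {q : E3 // q ∈ F ∧ q ≠ 0}, g (‖q.1‖ ^ 2)
      ≤ ∑' q : {q : E3 // q ∈ L ∧ q ≠ 0}, g (‖q.1‖ ^ 2) := by
  obtain ⟨p, hp, hk, f, hf⟩ := exists_form L ht (by rw [← h, covol_fcc F ht e hF])
  obtain ⟨f0, hf0⟩ := fcc_form F ht e hF
  rw [← f.tsum_eq, ← f0.tsum_eq]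
  simp_rw [hf, hf0]
  exact H p hp hk _ (by positivity)

lemma tsum_ne_zero (g : Z3 → ℝ≥0∞) (h0 : g 0 = 0) :
    ∑' n : {n : Z3 // n ≠ 0}, g n.1 = ∑' n, g n :=
  tsum_subtype_eq_of_support_subset (s := {n : Z3 | n ≠ 0}) (f := g) fun n hn h => hn (by
    rw [h, h0])

/-- The Epstein sums of lattices, from the comparison of the screened sums of forms. -/
theorem epstein_lattice
    (hY : ∀ p : SP, p.PD → p.kap = 4 → ∀ σ : ℝ, 0 < σ →
      ∑' n, exp (-(σ * fcc.Q n)) / fcc.Q n ≤ ∑' n, exp (-(σ * p.Q n)) / p.Q n)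
    {s : ℝ} (hs : 1 < s)
    (L F : Submodule ℤ E3) [DiscreteTopology L] [IsZLattice ℝ L] {t : ℝ} (ht : 0 < t)
    (e : OrthonormalBasis (Fin 3) ℝ E3)
    (hF : ∀ q : E3, q ∈ F ↔
      ∃ x : Fin 3 → ℤ, Even (x 0 + x 1 + x 2) ∧ q = ∑ i, (t * (x i : ℝ)) • e i)
    (h : ZLattice.covolume F volume = ZLattice.covolume L volume) :
    ∑' q : {q : E3 // q ∈ F ∧ q ≠ 0}, ENNReal.ofReal (1 / ‖q.1‖ ^ (2 * s))
      ≤ ∑' q : {q : E3 // q ∈ L ∧ q ≠ 0}, ENNReal.ofReal (1 / ‖q.1‖ ^ (2 * s)) := by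
  have e1 : ∀ q : E3, ‖q‖ ^ (2 * s) = (‖q‖ ^ 2) ^ s := fun q => by
    rw [Real.rpow_mul (norm_nonneg q), Real.rpow_two]
  simp_rw [e1]
  refine transfer (fun r => ENNReal.ofReal (1 / r ^ s)) (fun p hp hk c hc => ?_) L F ht e hF h
  have e2 : ∀ p : SP, p.PD → ∑' n : {n : Z3 // n ≠ 0}, ENNReal.ofReal (1 / (c * p.Q n.1) ^ s)
      = ENNReal.ofReal (1 / c ^ s) * ∑' n, ENNReal.ofReal (1 / p.Q n ^ s) := by
    intro p hp
    rw [← tsum_ne_zero (fun n => ENNReal.ofReal (1 / p.Q n ^ s))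
      (by simp [Real.zero_rpow (show s ≠ 0 by linarith)]), ← ENNReal.tsum_mul_left]
    refine tsum_congr fun n => ?_
    rw [← ENNReal.ofReal_mul (by positivity), Real.mul_rpow hc.le (hp.Q_nonneg _), one_div_mul_one_div]
  rw [e2 p hp, e2 fcc fcc_PD]
  exact mul_le_mul_right (epstein_le fcc_PD hp (hY p hp hk) hs) _

end Pool.Agent.Lib.SS3
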