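import Pool.Agent.Lib.SS3.Blue
import Pool.Agent.Lib.SS3.Transfer

/-! The face-centred cubic lattice minimises the lattice sums, given Theorem Y. -/

namespace Pool.Agent.Lib.SS3

theorem st_FCC (hY : St_Y) : St_FCC := by
  intro a ha L F _ _ ⟨t, e, ht, hF⟩ hc
  have := epstein_lattice hY (s := a / 2) (by linarith) L F ht e hF hc
  rwa [show 2 * (a / 2) = a by ring] at this

end Pool.Agent.Lib.SS3
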