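import Pool.Agent.Lib.SS3.Defs

/-! Upper bounds for the FCC sum, its dependence on the scale, and the range of small scales. -/

open Real

namespace Pool.Agent.Lib.SS3

open Pool.Agent.Lib.MP_3a1514_mp

def GT (k : ℕ) : ℚ := if k < 20 then 0 else (0.503 : ℚ) ^ (k - 20) / k

lemma bndT : bnd predD GT 0.503 (1 / (20 * 0.503 ^ 20)) 4 ≤ 2 := by decide +kernel

def cnt (k : ℕ) : ℕ := ((box 4).filter fun x => predD x = true ∧ nsq x = k).card

lemma cnt_eq : ∀ k ∈ Finset.range 20,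
    cnt k = [1, 0, 12, 0, 6, 0, 24, 0, 12, 0, 24, 0, 8, 0, 48, 0, 6, 0, 36, 0].getD k 0 := by
  decide +kernel

noncomputable def pF (x : ℝ) : ℝ :=
  6 * x + 3 / 2 * x ^ 2 + 4 * x ^ 3 + 3 / 2 * x ^ 4 + 12 / 5 * x ^ 5 + 2 / 3 * x ^ 6
    + 24 / 7 * x ^ 7 + 3 / 8 * x ^ 8 + 2 * x ^ 9 + 2 * x ^ 10

lemma PhiF_le {σ x : ℝ} (hσ : 11 / 16 ≤ σ) (hx : exp (-(2 * σ)) ≤ x) : Phi fcc σ ≤ pF x := by
  set y := exp (-σ) with hy
  have hy0 : 0 < y := exp_pos _
  have hu : exp (-(11 / 16 : ℝ)) ≤ (0.503 : ℚ) := by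
    have := exp_neg_le (11 / 16) 0.503 12 (by norm_num) (by decide +kernel)
    simpa using this
  have hy1 : y ≤ 0.503 := by
    refine le_trans ?_ (hu.trans (by norm_num))
    rw [hy, exp_le_exp]; linarith
  have hG0 : ∀ k, 0 ≤ GT k := fun k => by unfold GT; split_ifs <;> positivity
  obtain ⟨hs, hb⟩ := lattice_bound predD GT 0.503 (1 / (20 * 0.503 ^ 20)) 4 (by norm_num)
    (by norm_num) (by norm_num) hG0 (fun k hk => by
      have hk' : ¬ k < 20 := by omega
      obtain ⟨j, rfl⟩ := Nat.exists_eq_add_of_le (show 20 ≤ k by omega)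
      simp only [GT, hk', if_false, Nat.add_sub_cancel_left, pow_add]
      have h1 : (20 : ℚ) ≤ ((20 + j : ℕ) : ℚ) := by exact_mod_cast Nat.le_add_right 20 j
      calc (0.503 : ℚ) ^ j / ((20 + j : ℕ) : ℚ) ≤ 0.503 ^ j / 20 := by gcongr
        _ = 1 / (20 * 0.503 ^ 20) * (0.503 ^ 20 * 0.503 ^ j) := by field_simp)
    XX XX_inj predD_XX (fun n => (GT (nsq (XX n)) : ℝ)) (fun n => by exact_mod_cast hG0 _)
    (fun n => le_rfl)
  have hb' : ∑' n, (GT (nsq (XX n)) : ℝ) ≤ 2 :=
    hb.trans (((Rat.cast_le (K := ℝ)).2 bndT).trans (by norm_num))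
  let f : Z3 → ℝ := fun v => if predD v = true ∧ nsq v < 20 then y ^ nsq v / nsq v else 0
  have hf0 : ∀ v, 0 ≤ f v := fun v => by simp only [f]; split_ifs <;> positivity
  have hf : HasSum f (∑ v ∈ box 4, f v) := by
    refine hasSum_sum_of_ne_finset_zero (L := SummationFilter.unconditional Z3) fun v hv => ?_
    have := nsq_ge_of_notMem hv
    simp only [f]
    rw [if_neg (by omega)]
  have hfX : Summable fun n => f (XX n) := hf.summable.comp_injective XX_inj
  have h1 : ∑' n, f (XX n) ≤ ∑ v ∈ box 4, f v := by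
    rw [← hf.tsum_eq]
    exact hfX.tsum_le_tsum_of_inj XX XX_inj (fun v _ => hf0 v) (fun n => le_rfl) hf.summable
  have h2 : ∑ v ∈ box 4, f v = ∑ k ∈ Finset.range 20, (cnt k : ℝ) * (y ^ k / k) := by
    have e : ∀ v, f v = ∑ k ∈ Finset.range 20,
        if predD v = true ∧ nsq v = k then y ^ k / k else 0 := by
      intro v
      simp only [f]
      by_cases hp : predD v = true
      · simp only [hp, true_and, Finset.sum_ite_eq, Finset.mem_range]
      · simp [hp]
    simp_rw [e]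
    rw [Finset.sum_comm]
    refine Finset.sum_congr rfl fun k _ => ?_
    rw [← Finset.sum_filter, Finset.sum_const, nsmul_eq_mul, cnt]
  have h2' : ∑ k ∈ Finset.range 20, (cnt k : ℝ) * (y ^ k / k) = ∑ k ∈ Finset.range 20,
      (([1, 0, 12, 0, 6, 0, 24, 0, 12, 0, 24, 0, 8, 0, 48, 0, 6, 0, 36, 0].getD k 0 : ℕ) : ℝ)
        * (y ^ k / k) := Finset.sum_congr rfl fun k hk => by rw [cnt_eq k hk]
  rw [h2'] at h2
  simp only [Finset.sum_range_succ, Finset.range_zero, Finset.sum_empty, List.getD_cons_zero,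
    List.getD_cons_succ] at h2
  have h3 : Phi fcc σ ≤ ∑' n, f (XX n) + y ^ 20 * ∑' n, (GT (nsq (XX n)) : ℝ) := by
    refine hasSum_le (fun n => ?_) (summable_psi fcc_PD (by linarith)).hasSum
      (hfX.hasSum.add (hs.hasSum.mul_left _))
    have e : psi σ (fcc.Q n) = y ^ nsq (XX n) / nsq (XX n) := by
      rw [fcc_Q, psi, hy, ← exp_nat_mul]; congr 2; ring
    rw [e]
    simp only [f, predD_XX, true_and, GT]
    split_ifs with hk
    · simp
    · obtain ⟨j, hj⟩ := Nat.exists_eq_add_of_le (show 20 ≤ nsq (XX n) by omega)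
      rw [hj, Nat.add_sub_cancel_left, pow_add, zero_add, mul_div_assoc]
      push_cast
      gcongr
  have hx2 : y ^ 2 ≤ x := by
    refine le_trans (le_of_eq ?_) hx
    rw [hy, ← exp_nat_mul]; congr 1; push_cast; ring
  have h4 : pF (y ^ 2) ≤ pF x := by unfold pF; gcongr
  refine le_trans ?_ h4
  have h5 : y ^ 20 * ∑' n, (GT (nsq (XX n)) : ℝ) ≤ y ^ 20 * 2 := by gcongr
  have h6 : ∑ v ∈ box 4, f v + y ^ 20 * 2 = pF (y ^ 2) := by
    rw [h2, pF]; push_cast; ring
  linarith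

lemma fcc_two_le {n : Z3} (hn : n ≠ 0) : 2 ≤ fcc.Q n := by
  have h1 := fcc_PD.Q_pos hn
  rw [fcc_Q] at h1 ⊢
  have h2 : 0 < nsq (XX n) := by exact_mod_cast h1
  have h3 : nsq (XX n) ≠ 1 := by
    intro h
    have hp := predD_XX n
    generalize XX n = v at h hp
    obtain ⟨a, b, c⟩ := v
    simp only [nsq, predD, beq_iff_eq] at h hp
    have ha : a.natAbs ≤ 1 := by nlinarith
    have hb : b.natAbs ≤ 1 := by nlinarith
    have hc : c.natAbs ≤ 1 := by nlinarith
    have : a.natAbs + b.natAbs + c.natAbs = 1 := by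
      generalize a.natAbs = x at *
      generalize b.natAbs = y at *
      generalize c.natAbs = z at *
      interval_cases x <;> interval_cases y <;> interval_cases z <;> simp_all
    omega
  exact_mod_cast (show 2 ≤ nsq (XX n) by omega)

lemma PhiF_decay {σ τ : ℝ} (hτ : 0 < τ) (h : τ ≤ σ) :
    Phi fcc σ ≤ exp (-(2 * (σ - τ))) * Phi fcc τ := by
  refine hasSum_le (fun n => ?_) (summable_psi fcc_PD (hτ.trans_le h)).hasSum
    ((summable_psi fcc_PD hτ).hasSum.mul_left _)
  by_cases hn : n = 0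
  · subst hn; simp
  have h2 := fcc_two_le hn
  unfold psi
  rw [← mul_div_assoc, ← exp_add]
  gcongr
  nlinarith

lemma Phi_logconvex {p : SP} (h : p.PD) {σa σb θ K ca cb : ℝ} (ha : 0 < σa) (hb : 0 < σb)
    (h0 : 0 ≤ θ) (h1 : θ ≤ 1) (fa : Phi p σa ≤ K * exp ca) (fb : Phi p σb ≤ K * exp cb) :
    Phi p (θ * σa + (1 - θ) * σb) ≤ K * exp (θ * ca + (1 - θ) * cb) := by
  have h1' : 0 ≤ 1 - θ := by linarith
  have hσ : 0 < θ * σa + (1 - θ) * σb := by
    rcases le_total σa σb with hh | hh <;> nlinarith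
  set c := θ * ca + (1 - θ) * cb with hc
  have key : Phi p (θ * σa + (1 - θ) * σb) * exp (-c)
      ≤ θ * (Phi p σa * exp (-ca)) + (1 - θ) * (Phi p σb * exp (-cb)) := by
    refine hasSum_le (fun n => ?_) ((summable_psi h hσ).hasSum.mul_right _)
      ((((summable_psi h ha).hasSum.mul_right _).mul_left _).add
        (((summable_psi h hb).hasSum.mul_right _).mul_left _))
    have hq := h.Q_nonneg n
    have hc2 := convexOn_exp.2 (Set.mem_univ (-(σa * p.Q n) + -ca))
      (Set.mem_univ (-(σb * p.Q n) + -cb)) h0 h1' (by ring)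
    simp only [smul_eq_mul] at hc2
    have e : θ * (-(σa * p.Q n) + -ca) + (1 - θ) * (-(σb * p.Q n) + -cb)
        = -((θ * σa + (1 - θ) * σb) * p.Q n) + -c := by rw [hc]; ring
    rw [e, exp_add, exp_add, exp_add] at hc2
    have := div_le_div_of_nonneg_right hc2 hq
    unfold psi
    refine le_trans (le_of_eq ?_) (this.trans (le_of_eq ?_)) <;> ring
  have e1 : ∀ {F c : ℝ}, F ≤ K * exp c → F * exp (-c) ≤ K := fun {F c} hF => by
    have := mul_le_mul_of_nonneg_right hF (exp_pos (-c)).le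
    rwa [mul_assoc, ← exp_add, add_neg_cancel, exp_zero, mul_one] at this
  have h3 : Phi p (θ * σa + (1 - θ) * σb) * exp (-c) ≤ K := by
    nlinarith [mul_le_mul_of_nonneg_left (e1 fa) h0, mul_le_mul_of_nonneg_left (e1 fb) h1']
  have := mul_le_mul_of_nonneg_right h3 (exp_pos c).le
  rwa [mul_assoc, ← exp_add, neg_add_cancel, exp_zero, mul_one] at this

/-- small scales follow from a margin at the scale `45/64` -/
lemma small_scale {p : SP} (h : p.PD) (hk : p.kap = 4)
    (hb : Phi fcc (45 / 64) + 0.000082 ≤ Phi p (45 / 64)) {σ : ℝ} (hσ : 0 < σ)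
    (hσ1 : σ ≤ 45 / 64) : Phi fcc σ ≤ Phi p σ := by
  have hE : exp (-(10.5275 : ℝ)) ≤ (0.0000268 : ℚ) := by
    have := exp_neg_le 10.5275 0.0000268 40 (by norm_num) (by decide +kernel)
    simpa using this
  have hπ := pi_pos
  have hπ1 := pi_gt_d6
  have hπ2 := pi_lt_d4
  have key := ewald1 h fcc_PD (τ := 45 / 64) (c := 0.01745) hσ hσ1 (by norm_num) 8
    fun t ht htτ => by
      have hs : 14 ≤ π ^ 2 / t := by
        rw [le_div_iff₀ ht]; nlinarith
      have h1 := h.one_le_thetaD (s := π ^ 2 / t) (by positivity)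
      have h2 := U2 hs
      rw [h.theta_eq ht, fcc_PD.theta_eq ht, hk, fcc_kap]
      have h4 : √4 = 2 := by
        rw [show (4 : ℝ) = 2 ^ 2 by norm_num, Real.sqrt_sq (by norm_num)]
      rw [h4]
      have h3 := sqrt_div_le (a := 1.4863) (τ := 45 / 64) (by norm_num) (by nlinarith) ht htτ
      have h5 := exp_decay (c := 3 / 4 * π ^ 2) (τ := 45 / 64) (m := 10) (by
        rw [le_div_iff₀ (by norm_num)]; push_cast; nlinarith) ht htτ
      have h6 : exp (-(3 / 4 * π ^ 2 / (45 / 64))) ≤ 0.0000268 := by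
        refine le_trans ?_ (hE.trans (by norm_num))
        rw [exp_le_exp]; nlinarith
      have h7 : exp (-(3 / 4 * (π ^ 2 / t))) ≤ 0.0000268 * (t / (45 / 64)) ^ 10 := by
        rw [← mul_div_assoc]
        exact h5.trans (by gcongr)
      have h8 : π / t * √(π / t) / 2 ≤ 3.1416 / t * (1.4863 / t) / 2 := by gcongr
      have h9 : π / t * √(π / t) / 2 * (fcc.thetaD (π ^ 2 / t) - p.thetaD (π ^ 2 / t))
          ≤ 3.1416 / t * (1.4863 / t) / 2 * (8.22 * (0.0000268 * (t / (45 / 64)) ^ 10)) := by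
        refine le_trans (mul_le_mul_of_nonneg_left
          (c := 8.22 * (0.0000268 * (t / (45 / 64)) ^ 10)) (by linarith) (by positivity)) ?_
        gcongr
      have e : 3.1416 / t * (1.4863 / t) / 2 * (8.22 * (0.0000268 * (t / (45 / 64)) ^ 10))
          = 3.1416 * 1.4863 / 2 * 8.22 * 0.0000268 / (45 / 64) ^ 10 * t ^ 8 := by
        field_simp
      rw [e] at h9
      have h10 : 3.1416 * 1.4863 / 2 * 8.22 * 0.0000268 / (45 / 64) ^ 10 * t ^ 8
          ≤ (0.01745 : ℝ) * t ^ 8 := by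
        gcongr; norm_num
      linarith
  norm_num at key hb
  linarith

end Pool.Agent.Lib.SS3
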