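import Pool.Agent.Lib.SS3.Blue3
import Pool.Agent.Lib.SS3.Shell

/-! Soundness of the test at a leaf. -/

open Real

namespace Pool.Agent.Lib.SS3

open Pool.Agent.Lib.MP_3a1514_mp

namespace LeafL

lemma log_le {x : ℝ} (hx : 0 < x) : log x ≤ (x - 1) * (x + 5) / (4 * x + 2) := by
  let g : ℝ → ℝ := fun x => (x - 1) * (x + 5) / (4 * x + 2) - log x
  have hd : ∀ y : ℝ, 0 < y → HasDerivAt g ((y - 1) ^ 3 / (y * (2 * y + 1) ^ 2)) y := by
    intro y hy
    have h1 : HasDerivAt (fun x : ℝ => (x - 1) * (x + 5)) (1 * (y + 5) + (y - 1) * 1) y :=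
      ((hasDerivAt_id y).sub_const 1).mul ((hasDerivAt_id y).add_const 5)
    have h2 : HasDerivAt (fun x : ℝ => 4 * x + 2) (4 * 1) y :=
      ((hasDerivAt_id y).const_mul 4).add_const 2
    refine HasDerivAt.congr_deriv ((h1.div h2 (by positivity)).sub (hasDerivAt_log hy.ne')) ?_
    field_simp
    ring
  have g1 : g 1 = 0 := by simp [g]
  have : 0 ≤ g x := by
    rcases lt_trichotomy x 1 with h | h | h
    · obtain ⟨c, hc, e⟩ := exists_hasDerivAt_eq_slope g (fun y => (y - 1) ^ 3 / (y * (2 * y + 1) ^ 2))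
        h (fun y hy => (hd y (hx.trans_le hy.1)).continuousAt.continuousWithinAt)
        (fun y hy => hd y (hx.trans hy.1))
      have hc0 : 0 < c := hx.trans hc.1
      have h3 : (c - 1) ^ 3 / (c * (2 * c + 1) ^ 2) ≤ 0 :=
        div_nonpos_of_nonpos_of_nonneg
          (Odd.pow_nonpos (by decide) (by linarith [hc.2])) (by positivity)
      rw [e, g1, div_le_iff₀ (by linarith)] at h3
      linarith
    · rw [h, g1]
    · obtain ⟨c, hc, e⟩ := exists_hasDerivAt_eq_slope g (fun y => (y - 1) ^ 3 / (y * (2 * y + 1) ^ 2))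
        h (fun y hy => (hd y (one_pos.trans_le hy.1)).continuousAt.continuousWithinAt)
        (fun y hy => hd y (one_pos.trans hy.1))
      have hc0 : 0 < c := one_pos.trans hc.1
      have h4 : 0 ≤ c - 1 := by linarith [hc.1]
      have h3 : 0 ≤ (c - 1) ^ 3 / (c * (2 * c + 1) ^ 2) := by positivity
      rw [e, g1, le_div_iff₀ (by linarith)] at h3
      linarith
  simp only [g] at this
  linarith

/-- one end of a slice -/
lemma endpt {sc P E f : ℕ} (hsc : 1 ≤ sc) (hF : f / sc + 1 ≤ 2 * (128 * P)) {x A : ℝ}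
    (hx : 2 ^ 51 * x ≤ f) (hA : A ≤ (cap E (128 * P) (f / sc + 1) : ℕ)) :
    ∃ c : ℝ, x ≤ sc * P / 2 ^ 44 * exp c ∧ A ≤ 2 * E + 256 * P * (1 - c) := by
  have hf : f ≤ sc * (f / sc + 1) := (Nat.lt_mul_div_succ f hsc).le
  have hF0 : 0 < f / sc + 1 := Nat.succ_pos _
  generalize f / sc + 1 = F at *
  have hP : 0 < P := by omega
  have hP' : (0 : ℝ) < P := by exact_mod_cast hP
  have hF' : (0 : ℝ) < F := by exact_mod_cast hF0
  have hf' : (f : ℝ) ≤ sc * F := by exact_mod_cast hf
  refine ⟨log (F / (128 * P)), ?_, hA.trans ?_⟩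
  · rw [exp_log (by positivity)]
    have : (sc : ℝ) * P / 2 ^ 44 * (F / (128 * P)) = sc * F / 2 ^ 51 := by field_simp; ring
    rw [this, le_div_iff₀ (by positivity)]
    linarith
  · have h1 := log_le (x := F / (128 * P)) (by positivity)
    have h2 : F * F ≤ 7 * (128 * P * (128 * P)) := by nlinarith
    have h3 : (cap E (128 * P) F : ℝ) ≤ 2 * E
        + (7 * (128 * P * (128 * P)) - F * F) / (2 * F + 128 * P) := by
      have e : cap E (128 * P) F
          = 2 * E + (7 * (128 * P * (128 * P)) - F * F) / (2 * F + 128 * P) := rfl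
      rw [e, Nat.cast_add]
      refine add_le_add (by push_cast; rfl) (Nat.cast_div_le.trans ?_)
      rw [Nat.cast_sub h2]
      push_cast
      rfl
    have h4 : (7 * (128 * P * (128 * P)) - F * F : ℝ) / (2 * F + 128 * P)
        = 256 * P * (1 - (F / (128 * P) - 1) * (F / (128 * P) + 5) / (4 * (F / (128 * P)) + 2)) := by
      field_simp
      ring
    rw [h4] at h3
    refine h3.trans ?_
    gcongr

lemma ellAcc_eq (p : SP) (m n acc : ℕ) :
    ellAcc p m n acc = m * ellAcc p 1 0 acc + n * ellAcc p 0 1 acc := by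
  simp only [ellAcc, ell]; push_cast; ring

end LeafL

open LeafL

theorem st_LEAF {tt tf : ℕ} {vl : WL} (hV : St_VERT) (hT : St_TT tt) (hF : St_TF tf)
    (hA : St_ACC vl) : St_LEAF tt tf vl := by
  intro h a0 a1 b0 b1 c0 c1 d0 d1 e0 e1 sa sb hl l a b c d e σ D x0 x1 y0 y1 z0 z1 u0 u1 v0 v1
    hσ hsa hsb
  have x1' : a ≤ a1 := by
    rcases x1 with x1 | x1
    · exact x1.le
    · exact D.a1.trans (by exact_mod_cast x1)
  simp only [leaf, force_eq, Bool.and_eq_true, Nat.ble_eq, Nat.blt_eq] at hl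
  obtain ⟨⟨hsc, h180, h1024⟩, hf⟩ := hl
  generalize Nat.land h 1023 = sc at hsc hf
  generalize Nat.land (Nat.shiftRight h 20) 127 = n at hf
  generalize Nat.mul (Nat.shiftRight h 27) _ = wp at hf
  have hA' := hA _ (hT (Nat.land (Nat.shiftRight h 10) 1023)) wp n _ D.pd
  unfold trunc at hA'
  generalize sumv _ wp n vl = acc at hf hA'
  have hV' := fun Ca Cb m n m' n' hh => hV Ca Cb m n m' n' a0 a1 b0 b1 c0 c1 d0 d1 e0 e1 acc hh
    l a b c d e D.pos D.kap x0 x1' y0 y1 z0 z1 u0 u1 v0 v1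
  have hpd := D.pd
  have hk := D.kap
  generalize sp l a b c d e = p at *
  simp only [final, force_eq, Bool.and_eq_true, Nat.ble_eq] at hf
  obtain ⟨hFa, hf⟩ := hf
  generalize fld acc 56 = P at *
  generalize fld acc 112 = E at *
  set L1 := ellAcc p 1 0 acc with hL1
  set L0 := ellAcc p 0 1 acc with hL0
  have hsc' : (0 : ℝ) < sc := by exact_mod_cast hsc
  have key : ∀ τ c : ℝ, 0 < τ → 256 * τ * L1 + 128 * sc * L0 ≤ 2 * E + 256 * P * (1 - c) →
      sc * P / 2 ^ 44 * exp c ≤ Phi p τ := by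
    intro τ c hτ hh
    have h1 := hA' τ (sc / 256) c hτ (by positivity)
    have h2 : sc / 256 * exp c * (256 * P) ≤ sc / 256 * exp c * (256 * (P : ℝ) * (2 - c) + 2 * E
        - 256 * τ * L1 - 2 ^ 15 * (sc / 256) * L0) :=
      mul_le_mul_of_nonneg_left (by linarith) (by positivity)
    linarith
  have h180' : (180 : ℝ) ≤ sa := by exact_mod_cast h180
  have hta := hF sa h180 h1024
  have main : ∃ ca : ℝ,
      Phi fcc (sa / 256) + (if sa = 180 then 0.000082 else 0) ≤ sc * P / 2 ^ 44 * exp ca ∧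
      sa * L1 + 128 * sc * L0 ≤ 2 * E + 256 * P * (1 - ca) ∧
      ((sa : ℝ) / 256 ≤ σ → Phi fcc σ ≤ Phi p σ) := by
    have hm : (0 : ℝ) ≤ if sa = 180 then 0.000082 else 0 := by split_ifs <;> norm_num
    cases hb : Nat.ble 1024 sb
    · rw [hb, cond_false, Bool.and_eq_true, Nat.ble_eq] at hf
      have hb' : sb < 1024 := by
        by_contra hh
        rw [Nat.ble_eq_true_of_le (by omega)] at hb
        exact absurd hb (by simp)
      obtain ⟨k1, k2⟩ := hV' _ _ _ _ _ _ hf.2
      obtain ⟨ca, fa, ga⟩ := endpt hsc hFa hta k1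
      rw [ellAcc_eq] at ga k2
      simp only [Nat.mul_eq, Nat.cast_mul, Nat.cast_ofNat] at ga
      refine ⟨ca, fa, ga, fun hlo => ?_⟩
      have hhi : σ ≤ (sb : ℝ) / 256 := hsb.resolve_left (by omega)
      have hab : (sa : ℝ) ≤ sb := by linarith
      have hab' : sa ≤ sb := by exact_mod_cast hab
      obtain ⟨cb, fb, gb⟩ := endpt hsc hf.1 (hF sb (by omega) hb') k2
      simp only [Nat.mul_eq, Nat.cast_mul, Nat.cast_ofNat] at gb
      have hm' : (0 : ℝ) ≤ if sb = 180 then 0.000082 else 0 := by split_ifs <;> norm_num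
      obtain ⟨θ, t0, t1, ht⟩ : ∃ θ : ℝ, 0 ≤ θ ∧ θ ≤ 1 ∧
          σ = θ * (sa / 256) + (1 - θ) * (sb / 256) := by
        rcases hab.eq_or_lt with hh | hh
        · exact ⟨1, by norm_num, le_rfl, by linarith⟩
        · have : (0 : ℝ) < sb - sa := by linarith
          refine ⟨(sb - 256 * σ) / (sb - sa), div_nonneg (by linarith) this.le,
            (div_le_one this).2 (by linarith), ?_⟩
          field_simp
          ring
      have h1 := Phi_logconvex fcc_PD (σa := sa / 256) (σb := sb / 256) (K := sc * P / 2 ^ 44)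
        (ca := ca) (cb := cb) (by linarith) (by linarith) t0 t1 (by linarith) (by linarith)
      rw [← ht] at h1
      refine h1.trans (key σ _ hσ ?_)
      have t2 : 0 ≤ 1 - θ := by linarith
      have := add_le_add (mul_le_mul_of_nonneg_left ga t0) (mul_le_mul_of_nonneg_left gb t2)
      rw [ht]
      linarith
    · rw [hb, cond_true] at hf
      obtain ⟨k1, k2⟩ := hV' _ _ _ _ _ _ hf
      obtain ⟨ca, fa, ga⟩ := endpt hsc hFa hta k1
      rw [ellAcc_eq] at ga
      simp only [Nat.mul_eq, Nat.cast_mul, Nat.cast_ofNat] at ga k2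
      refine ⟨ca, fa, ga, fun hlo => ?_⟩
      have h1 := PhiF_decay (τ := sa / 256) (by linarith) hlo
      have h2 : 0 ≤ σ - sa / 256 := by linarith
      have h3 := key σ (ca + -(2 * (σ - sa / 256))) hσ (by
        have := mul_le_mul_of_nonneg_left k2 h2
        linarith)
      rw [exp_add] at h3
      have h4 := mul_le_mul_of_nonneg_left (show Phi fcc (sa / 256) ≤ sc * P / 2 ^ 44 * exp ca by
        linarith) (exp_pos (-(2 * (σ - sa / 256)))).le
      linarith
  obtain ⟨ca, fa, ga, hm⟩ := main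
  rcases le_total ((sa : ℝ) / 256) σ with hh | hh
  · exact hm hh
  rcases hsa with hsa | hsa
  · obtain rfl : sa = 180 := le_antisymm hsa h180
    have h1 := key (45 / 64) ca (by norm_num) (by push_cast at ga; linarith)
    refine small_scale hpd hk ?_ hσ (by push_cast at hh; linarith)
    norm_num at fa h1 ⊢
    linarith
  · exact hm hsa

end Pool.Agent.Lib.SS3
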