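import Pool.Agent.Lib.MP_3a1514_mp.FccSums

/-! Polynomial part of the estimate near the FCC form, uniformly in the screening parameter. -/

open Real

namespace Pool.Agent.Lib.SS3.Nr

open Pool.Agent.Lib.MP_3a1514_mp

def HF (a1 a2 a3 b1 b2 b3 : ℝ) (x : Z3) : ℝ :=
  a1 * (x.1 : ℝ) ^ 2 + a2 * (x.2.1 : ℝ) ^ 2 + a3 * (x.2.2 : ℝ) ^ 2 + 2 * b1 * (x.1 * x.2.1)
    + 2 * b2 * (x.1 * x.2.2) + 2 * b3 * (x.2.1 * x.2.2)

def T1 : Finset Z3 := ⟨↑([(0, -1, -1), (-1, -1, -1), (0, 0, -1), (-1, 0, -1), (0, -1, 0), (1, 0, 0),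
  (-1, 0, 0), (0, 1, 0), (1, 0, 1), (0, 0, 1), (1, 1, 1), (0, 1, 1)] : List Z3), by decide⟩

def T2 : Finset Z3 := ⟨↑([(-1, -1, -2), (1, -1, 0), (-1, -1, 0), (1, 1, 0), (-1, 1, 0),
  (1, 1, 2)] : List Z3), by decide⟩

def T3 : Finset Z3 := ⟨↑([(-1, -2, -2), (0, -1, -2), (-2, -1, -2), (-1, 0, -2), (0, -2, -1),
  (1, -1, -1), (-1, -2, -1), (1, 0, -1), (-2, -1, -1), (0, 1, -1), (-2, 0, -1), (-1, 1, -1),
  (1, -1, 1), (2, 0, 1), (0, -1, 1), (2, 1, 1), (-1, 0, 1), (1, 2, 1), (-1, 1, 1), (0, 2, 1),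
  (1, 0, 2), (2, 1, 2), (0, 1, 2), (1, 2, 2)] : List Z3), by decide +kernel⟩

lemma T1_nsq : ∀ n ∈ T1, nsq (XX n) = 2 := by decide +kernel
lemma T2_nsq : ∀ n ∈ T2, nsq (XX n) = 4 := by decide +kernel
lemma T3_nsq : ∀ n ∈ T3, nsq (XX n) = 6 := by decide +kernel

lemma short_box : ∀ n ∈ box 3, nsq (XX n) < 8 → n = 0 ∨ n ∈ T1 ∨ n ∈ T2 ∨ n ∈ T3 := by
  decide +kernel

lemma short_cases (n : Z3) (h : nsq (XX n) < 8) : n = 0 ∨ n ∈ T1 ∨ n ∈ T2 ∨ n ∈ T3 := by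
  refine short_box n ?_ h
  obtain ⟨a, b, c⟩ := n
  simp only [nsq, XX] at h
  have key : ∀ m : ℕ, m ^ 2 < 8 → m ≤ 2 := fun m hm => by
    by_contra hh
    have := Nat.pow_le_pow_left (show 3 ≤ m by omega) 2
    omega
  have h1 := key c.natAbs (by omega)
  have h2 := key (b - a).natAbs (by omega)
  have h3 := key (a + b - c).natAbs (by omega)
  simp only [box, Finset.mem_product, mem_box1]
  omega

/-- a cubic without constant term -/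
def cub (c1 c2 c3 d : ℝ) : ℝ := -(c1 * d) + c2 * d ^ 2 - c3 * d ^ 3

section
variable (c1 c2 c3 t e1 e2 b1 b2 b3 : ℝ)

def iEE (e1 e2 : ℝ) : ℝ := e1 ^ 2 + e2 ^ 2 + (e1 + e2) ^ 2
def iBB (b1 b2 b3 : ℝ) : ℝ := b1 ^ 2 + b2 ^ 2 + b3 ^ 2
def iE (e1 e2 : ℝ) : ℝ := e1 * e2 * (-(e1 + e2))
def iEB (e1 e2 b1 b2 b3 : ℝ) : ℝ := -(e1 + e2) * b1 ^ 2 + e2 * b2 ^ 2 + e1 * b3 ^ 2

lemma sum_T1 :
    ∑ n ∈ T1, cub c1 c2 c3 (HF (t / 3 + e1) (t / 3 + e2) (t / 3 - e1 - e2) b1 b2 b3 (XX n))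
      = -(c1 * (8 * t)) + c2 * (16 / 3 * t ^ 2 + 4 * iEE e1 e2 + 16 * iBB b1 b2 b3)
        - c3 * (32 / 9 * t ^ 3 + 8 * (t * iEE e1 e2) - 12 * iE e1 e2 + 32 * (t * iBB b1 b2 b3)
          - 48 * iEB e1 e2 b1 b2 b3) := by
  simp only [T1, Finset.sum_mk, Multiset.map_coe, Multiset.sum_coe, List.map_cons, List.map_nil,
    List.sum_cons, List.sum_nil, HF, XX, cub, iEE, iBB, iE, iEB]
  push_cast
  ring

lemma sum_T2 :
    ∑ n ∈ T2, cub c1 c2 c3 (HF (t / 3 + e1) (t / 3 + e2) (t / 3 - e1 - e2) b1 b2 b3 (XX n))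
      = -(c1 * (8 * t)) + c2 * (32 / 3 * t ^ 2 + 32 * iEE e1 e2)
        - c3 * (128 / 9 * t ^ 3 + 128 * (t * iEE e1 e2) + 384 * iE e1 e2) := by
  simp only [T2, Finset.sum_mk, Multiset.map_coe, Multiset.sum_coe, List.map_cons, List.map_nil,
    List.sum_cons, List.sum_nil, HF, XX, cub, iEE, iE]
  push_cast
  ring

lemma sum_T3 :
    ∑ n ∈ T3, cub c1 c2 c3 (HF (t / 3 + e1) (t / 3 + e2) (t / 3 - e1 - e2) b1 b2 b3 (XX n))
      = -(c1 * (48 * t)) + c2 * (96 * t ^ 2 + 72 * iEE e1 e2 + 288 * iBB b1 b2 b3)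
        - c3 * (192 * t ^ 3 + 432 * (t * iEE e1 e2) + 648 * iE e1 e2 + 1728 * (t * iBB b1 b2 b3)
          - 864 * iEB e1 e2 b1 b2 b3 + 4608 * (b1 * b2 * b3)) := by
  simp only [T3, Finset.sum_mk, Multiset.map_coe, Multiset.sum_coe, List.map_cons, List.map_nil,
    List.sum_cons, List.sum_nil, HF, XX, cub, iEE, iBB, iE, iEB]
  push_cast
  ring

end

lemma core {t ee bb E eb bbb Cee Cbb CE Ceb Cbbb Kee Kbb Ctt Kt : ℝ} (hee0 : 0 ≤ ee)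
    (hee : ee ≤ 0.0128) (hbb0 : 0 ≤ bb) (hbb : bb ≤ 0.0144) (hE : -(0.0154 * ee) ≤ E)
    (heb : -(0.0921 * bb) ≤ eb) (hbbb : -(0.0346 * bb) ≤ bbb) (ht1 : t ≤ 0.52 * ee + 1.17 * bb)
    (p1 : 0 ≤ CE) (p2 : 0 ≤ Ceb) (p3 : 0 ≤ Cbbb) (p4 : 0 ≤ Kee) (p5 : 0 ≤ Kbb) (p6 : 0 ≤ Kt)
    (h1 : 0.0154 * CE + 0.00666 * Kee ≤ Cee)
    (h2 : 0.0921 * Ceb + 0.0346 * Cbbb + 0.0236 * Kbb + 0.015 * Kee ≤ Cbb)
    (h3 : 0.0236 * Kt ≤ Ctt) :
    0 ≤ Cee * ee + Cbb * bb + CE * E + Ceb * eb + Cbbb * bbb - Kee * (t * ee) - Kbb * (t * bb)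
      + Ctt * t ^ 2 - Kt * t ^ 3 := by
  have ht2 : t ≤ 0.0236 := by linarith
  have a1 : t * ee ≤ 0.00666 * ee + 0.015 * bb := by
    have u1 := mul_le_mul_of_nonneg_right ht1 hee0
    have u2 := mul_le_mul_of_nonneg_left hee hee0
    have u3 := mul_le_mul_of_nonneg_left hee hbb0
    linarith
  have a2 : t * bb ≤ 0.0236 * bb := mul_le_mul_of_nonneg_right ht2 hbb0
  have a3 : t ^ 3 ≤ 0.0236 * t ^ 2 := by
    have := mul_le_mul_of_nonneg_right ht2 (sq_nonneg t)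
    linarith
  have b1 := mul_le_mul_of_nonneg_left hE p1
  have b2 := mul_le_mul_of_nonneg_left heb p2
  have b3 := mul_le_mul_of_nonneg_left hbbb p3
  have b4 := mul_le_mul_of_nonneg_left a1 p4
  have b5 := mul_le_mul_of_nonneg_left a2 p5
  have b6 := mul_le_mul_of_nonneg_left a3 p6
  have c1 := mul_le_mul_of_nonneg_right h1 hee0
  have c2 := mul_le_mul_of_nonneg_right h2 hbb0
  have c3 := mul_le_mul_of_nonneg_right h3 (sq_nonneg t)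
  linarith

lemma t_bound {t ee bb E eb bbb : ℝ} (ht : 0 ≤ t)
    (hee : ee ≤ 0.0128) (hbb : bb ≤ 0.0144) (hE : -(0.0154 * ee) ≤ E)
    (heb : eb ≤ 0.0921 * bb) (hbbb : -(0.0346 * bb) ≤ bbb) (hee0 : 0 ≤ ee)
    (hcon : t = ee / 2 + bb - t ^ 2 / 3 - t ^ 3 / 27 + t * ee / 6 - E + t * bb / 3 + eb - 2 * bbb) :
    t ≤ 0.52 * ee + 1.17 * bb := by
  have u1 := mul_le_mul_of_nonneg_left hee ht
  have u2 := mul_le_mul_of_nonneg_left hbb ht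
  have u3 := pow_nonneg ht 2
  have u4 := pow_nonneg ht 3
  linarith

lemma cond_main {x u : ℝ} (hx : 0 ≤ x) (hu : 0 ≤ u)
    (hl : x ≤ 1 → 0.135335 * (1 - x / 2) ^ 4 ≤ u) :
    0 ≤ -0.734 + 0.785 * x + (5.67 + 9.99 * x) * u := by
  have hp : 0 ≤ 5.67 + 9.99 * x := by linarith
  rcases le_total 1 x with h | h
  · have := mul_nonneg hp hu
    linarith
  · have h1 := mul_le_mul_of_nonneg_left (hl h) hp
    have hy : 0 ≤ 1 - x := by linarith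
    have m0 := pow_nonneg hy 5
    have m1 := mul_nonneg hx (pow_nonneg hy 4)
    have m2 := mul_nonneg (pow_nonneg hx 2) (pow_nonneg hy 3)
    have m3 := mul_nonneg (pow_nonneg hx 3) (pow_nonneg hy 2)
    have m4 := mul_nonneg (pow_nonneg hx 4) hy
    have m5 := pow_nonneg hx 5
    linarith

/-- the polynomial inequality for all values of the screening parameter `1 + x` -/
lemma poly_main {t ee bb E eb bbb x u : ℝ} (ht : 0 ≤ t) (hee0 : 0 ≤ ee)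
    (hee : ee ≤ 0.0128) (hbb0 : 0 ≤ bb) (hbb : bb ≤ 0.0144) (hE : -(0.0154 * ee) ≤ E)
    (heb : -(0.0921 * bb) ≤ eb) (heb' : eb ≤ 0.0921 * bb) (hbbb : -(0.0346 * bb) ≤ bbb)
    (hcon : t = ee / 2 + bb - t ^ 2 / 3 - t ^ 3 / 27 + t * ee / 6 - E + t * bb / 3 + eb - 2 * bbb)
    (hx : 0 ≤ x) (hu : 0 ≤ u) (hup : u * (1 + 2 * x) ≤ 0.13534)
    (hl : x ≤ 1 → 0.135335 * (1 - x / 2) ^ 4 ≤ u) :
    0.0604 * (2 * t + t ^ 2 / 3 - ee / 2 - bb) + 0.0435 * (t / 3) ≤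
      (-((3 / 4 + x / 2) * (8 * t)) + (5 / 8 + 3 / 4 * x) * (16 / 3 * t ^ 2 + 4 * ee + 16 * bb)
        - (19 / 48 + 5 / 8 * x) * (32 / 9 * t ^ 3 + 8 * (t * ee) - 12 * E + 32 * (t * bb) - 48 * eb))
      + u * (-((5 / 16 + x / 4) * (8 * t)) + (13 / 64 + 5 / 16 * x) * (32 / 3 * t ^ 2 + 32 * ee)
        - (71 / 768 + 13 / 64 * x) * (128 / 9 * t ^ 3 + 128 * (t * ee) + 384 * E))
      + u ^ 2 * (-((7 / 36 + x / 6) * (48 * t))
        + (25 / 216 + 7 / 36 * x) * (96 * t ^ 2 + 72 * ee + 288 * bb)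
        - (61 / 1296 + 25 / 216 * x) * (192 * t ^ 3 + 432 * (t * ee) + 648 * E + 1728 * (t * bb)
          - 864 * eb + 4608 * bbb)) := by
  have hxu0 := mul_nonneg hx hu
  have huu0 := mul_nonneg hu hu
  have hxuu0 := mul_nonneg hxu0 hu
  have hu1 : u ≤ 0.13534 := by linarith
  have hxu : x * u ≤ 0.06767 := by linarith
  have huu : u * u ≤ 0.01832 := by
    have := mul_le_mul hu1 hu1 hu (by norm_num)
    linarith
  have hxuu : x * u * u ≤ 0.00916 := by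
    have := mul_le_mul hxu hu1 hu (by norm_num)
    linarith
  have hm := cond_main hx hu hl
  have key := core (t := t) (ee := ee) (bb := bb) (E := E) (eb := eb) (bbb := bbb)
    (Cee := -0.53745 + x + (21 / 4 + 9 * x) * u + (11 / 3 + 10 * x) * (u * u))
    (Cbb := 3.9251 + 8 * x - (5 / 2 + 2 * x) * u + (24 + 48 * x) * (u * u))
    (CE := 10.8853 + 23 / 2 * x - (33 + 76 * x) * u - (127 / 6 + 67 * x) * (u * u))
    (Ceb := 12.8647 + 26 * x - (5 / 2 + 2 * x) * u + (94 / 3 + 92 * x) * (u * u))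
    (Cbbb := 12.2706 + 8 * x + (5 + 4 * x) * u - (1784 / 9 + 1552 / 3 * x) * (u * u))
    (Kee := 25.1353 / 6 + 17 / 3 * x + (49 / 4 + 79 / 3 * x) * u + (197 / 9 + 154 / 3 * x) * (u * u))
    (Kbb := 44.1353 / 3 + 64 / 3 * x + (5 / 6 + 2 / 3 * x) * u + (760 / 9 + 608 / 3 * x) * (u * u))
    (Ctt := 16.0749 / 3 + 16 / 3 * x + (3 + 4 * x) * u + (128 / 9 + 64 / 3 * x) * (u * u))
    (Kt := 31.8647 / 27 + 56 / 27 * x + (11 / 9 + 76 / 27 * x) * u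
      + (704 / 81 + 592 / 27 * x) * (u * u))
    hee0 hee hbb0 hbb hE heb hbbb (t_bound ht hee hbb hE heb' hbbb hee0 hcon)
    (by linarith) (by linarith) (by linarith) (by linarith) (by linarith) (by linarith)
    (by linarith) (by linarith) (by linarith)
  linear_combination key + (6.1353 + 4 * x + (5 / 2 + 2 * x) * u + (28 / 3 + 8 * x) * u ^ 2) * hcon

end Pool.Agent.Lib.SS3.Nr
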