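import Pool.Agent.Lib.SS3.Defs
import Pool.Agent.Lib.SS3.NearPoly

/-! Direct and dual parts of the estimate near the FCC form. -/

open Real

namespace Pool.Agent.Lib.SS3.Nr

open Pool.Agent.Lib.MP_3a1514_mp

lemma mul_exp_neg_le (d : ℝ) : d * exp (-d) ≤ d * (1 - d + d ^ 2 / 2) := by
  rcases le_total 0 d with hd | hd
  · refine mul_le_mul_of_nonneg_left ?_ hd
    have h := Real.quadratic_le_exp_of_nonneg hd
    have h2 : 0 ≤ 1 - d + d ^ 2 / 2 := by nlinarith [sq_nonneg (d - 1)]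
    have h3 := mul_le_mul_of_nonneg_left h h2
    rw [exp_neg, ← one_div, div_le_iff₀ (exp_pos d)]
    nlinarith [sq_nonneg (d ^ 2)]
  · refine mul_le_mul_of_nonpos_left ?_ hd
    have h := Real.quadratic_le_exp_of_nonneg (x := -d) (by linarith)
    linarith

lemma psi_cubic {x q0 q h0 h1 h2 h3 : ℝ} (hx : 0 ≤ x) (hq : 0 < q) (e0 : q0 * h0 = 1)
    (e1 : q0 * h1 = h0 + 1) (e2 : q0 * h2 = h1 + 1 / 2) (e3 : q0 * h3 = h2 + 1 / 6)
    (p2 : 0 ≤ h2) (p3 : 0 ≤ h3) :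
    exp (-((1 + x) * q0)) * (h0 + cub (h1 + h0 * x) (h2 + h1 * x) (h3 + h2 * x) (q - q0))
      ≤ psi (1 + x) q := by
  set d := q - q0 with hd
  have hqd : q = q0 + d := by rw [hd]; ring
  have e : exp (-((1 + x) * q)) = exp (-((1 + x) * q0)) * (exp (-d) * exp (-(x * d))) := by
    rw [← exp_add, ← exp_add, hqd]; congr 1; ring
  unfold psi
  rw [e, mul_div_assoc]
  refine mul_le_mul_of_nonneg_left ?_ (exp_pos _).le
  rw [le_div_iff₀ hq]
  have a1 : exp (-d) * (1 - x * d) ≤ exp (-d) * exp (-(x * d)) :=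
    mul_le_mul_of_nonneg_left (by linarith [add_one_le_exp (-(x * d))]) (exp_pos _).le
  have a2 := exp_neg_ge_cubic d
  have a3 := mul_le_mul_of_nonneg_left (mul_exp_neg_le d) hx
  have a4 : 0 ≤ d ^ 4 := by positivity
  have a5 := mul_nonneg p3 a4
  have a6 := mul_nonneg hx (mul_nonneg p2 a4)
  have a7 : (h0 + cub (h1 + h0 * x) (h2 + h1 * x) (h3 + h2 * x) d) * q
      = 1 - d + d ^ 2 / 2 - d ^ 3 / 6 - h3 * d ^ 4
        - x * (d * (1 - d + d ^ 2 / 2)) - x * (h2 * d ^ 4) := by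
    rw [hqd, cub]
    linear_combination (1 - x * d) * e0 + (-d + x * d ^ 2) * e1 + (d ^ 2 - x * d ^ 3) * e2
      - d ^ 3 * e3
  rw [a7]
  linarith

/-- the slope of the summand on the far shells -/
noncomputable def WT (σ N : ℝ) : ℝ := if 7 < N then exp (-(σ * N)) * (σ / N + 1 / N ^ 2) else 0

lemma WT_nonneg {σ : ℝ} (hσ : 0 ≤ σ) (N : ℝ) : 0 ≤ WT σ N := by
  unfold WT
  split_ifs with h
  · have : 0 < N := by linarith
    positivity
  · exact le_rfl

def G5 (k : ℕ) : ℚ := if k < 8 then 0 else (0.3678795 : ℚ) ^ (k - 2) * (1 + 1 / k)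

lemma bnd5 : bnd predD G5 0.3678795 (17 / 16 / 0.3678795 ^ 2) 3 ≤ 0.0435 := by
  decide +kernel

lemma U5 {x : ℝ} (hx : 0 ≤ x) : (Summable fun n => WT (1 + x) (fcc.Q n) * fcc.Q n) ∧
    ∑' n, WT (1 + x) (fcc.Q n) * fcc.Q n ≤ exp (-((1 + x) * 2)) * 0.0435 := by
  have hu : exp (-(1 : ℝ)) ≤ (0.3678795 : ℚ) := by
    have := exp_neg_le 1 0.3678795 16 (by norm_num) (by decide +kernel)
    simpa using this
  let a : Z3 → ℝ := fun n => exp ((1 + x) * 2) * (WT (1 + x) (fcc.Q n) * fcc.Q n)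
  obtain ⟨hsum, hb⟩ := lattice_bound predD G5 0.3678795 (17 / 16 / 0.3678795 ^ 2) 3 (by norm_num)
    (by norm_num) (by norm_num) (fun k => by unfold G5; split_ifs <;> positivity) (fun k hk => by
      unfold G5
      have : ¬ k < 8 := by omega
      have hk' : (16 : ℚ) ≤ k := by exact_mod_cast hk
      obtain ⟨j, rfl⟩ := Nat.exists_eq_add_of_le (show 2 ≤ k by omega)
      simp only [this, if_false, Nat.add_sub_cancel_left, pow_add]
      have h1 : (1 : ℚ) / ((2 + j : ℕ) : ℚ) ≤ 1 / 16 := by gcongr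
      have hp : (0 : ℚ) < 0.3678795 ^ j := by positivity
      have h2 := mul_le_mul_of_nonneg_left h1 hp.le
      have e : (17 / 16 / 0.3678795 ^ 2 : ℚ) * (0.3678795 ^ 2 * 0.3678795 ^ j)
          = 17 / 16 * 0.3678795 ^ j := by field_simp
      rw [e]
      linarith) XX XX_inj predD_XX a
    (fun n => mul_nonneg (exp_pos _).le
      (mul_nonneg (WT_nonneg (by linarith) _) (fcc_PD.Q_nonneg n))) (fun n => by
      simp only [a]
      rw [fcc_Q, WT, G5]
      by_cases h : nsq (XX n) < 8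
      · have h' : ¬ (7 : ℝ) < (nsq (XX n) : ℕ) := by
          rw [not_lt]; exact_mod_cast (show nsq (XX n) ≤ 7 by omega)
        simp [h, h']
      · have h' : (7 : ℝ) < (nsq (XX n) : ℕ) := by
          exact_mod_cast (show 7 < nsq (XX n) by omega)
        obtain ⟨j, hj⟩ := Nat.exists_eq_add_of_le (show 2 ≤ nsq (XX n) by omega)
        have hj6 : (1 : ℝ) ≤ j := by exact_mod_cast (show 1 ≤ j by omega)
        simp only [h, h', if_true, if_false]
        rw [hj, Nat.add_sub_cancel_left]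
        have h2 := exp_mul_le hu j
        push_cast at h2 ⊢
        have hN : (0 : ℝ) < 2 + j := by linarith
        have e1 : exp ((1 + x) * 2) * (exp (-((1 + x) * (2 + j)))
            * ((1 + x) / (2 + j) + 1 / (2 + j) ^ 2) * (2 + j))
            = exp (-(1 * j)) * (exp (-(x * j)) * (1 + x + 1 / (2 + j))) := by
          have : exp ((1 + x) * 2) * exp (-((1 + x) * (2 + j)))
              = exp (-(1 * j)) * exp (-(x * j)) := by
            rw [← exp_add, ← exp_add]; congr 1; ring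
          rw [← mul_assoc, ← mul_assoc, this, mul_assoc, mul_assoc]
          congr 2
          field_simp
        rw [e1]
        refine mul_le_mul h2 ?_ (by positivity) (by positivity)
        rw [exp_neg, inv_mul_le_iff₀ (exp_pos _)]
        have h3 := add_one_le_exp (x * j)
        have h4 : (0 : ℝ) ≤ 1 / (2 + j) := by positivity
        have h5 := mul_le_mul_of_nonneg_left hj6 hx
        have h6 := mul_le_mul_of_nonneg_right h3 (show (0 : ℝ) ≤ 1 + 1 / (2 + j) by linarith)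
        have h7 := mul_nonneg (mul_nonneg hx (show (0 : ℝ) ≤ j by linarith)) h4
        linarith)
  have hb' : ∑' n, a n ≤ 0.0435 := hb.trans (((Rat.cast_le (K := ℝ)).2 bnd5).trans (by norm_num))
  have e : ∀ n, WT (1 + x) (fcc.Q n) * fcc.Q n = exp (-((1 + x) * 2)) * a n := by
    intro n
    simp only [a]
    rw [← mul_assoc, ← exp_add]; simp
  simp_rw [e]
  refine ⟨hsum.mul_left _, ?_⟩
  rw [tsum_mul_left]
  exact mul_le_mul_of_nonneg_left hb' (exp_pos _).le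

def iX1 : Z3 ≃ Z3 := Function.Involutive.toPerm
  (fun n => (n.1 - n.2.2, n.2.1 - n.2.2, -n.2.2)) (by rintro ⟨a, b, c⟩; simp)
def iX2 : Z3 ≃ Z3 := Function.Involutive.toPerm
  (fun n => (n.2.1, n.1, n.2.2)) (by rintro ⟨a, b, c⟩; simp)
def iX3 : Z3 ≃ Z3 := Function.Involutive.toPerm
  (fun n => (n.1, n.2.1, n.1 + n.2.1 - n.2.2)) (by rintro ⟨a, b, c⟩; simp)
def iX4 : Z3 ≃ Z3 := Function.Involutive.toPerm
  (fun n => (n.2.2 - n.1, n.2.1, n.2.2)) (by rintro ⟨a, b, c⟩; simp)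
def iY1 : Z3 ≃ Z3 := Function.Involutive.toPerm
  (fun k => (k.1, k.2.1, -k.1 - k.2.1 - k.2.2)) (by rintro ⟨a, b, c⟩; simp)
def iY3 : Z3 ≃ Z3 := Function.Involutive.toPerm
  (fun k => (k.1 + k.2.2, k.2.1 + k.2.2, -k.2.2)) (by rintro ⟨a, b, c⟩; simp)
def iY4 : Z3 ≃ Z3 := Function.Involutive.toPerm
  (fun k => (-k.1, k.2.1, k.2.2 + k.1)) (by rintro ⟨a, b, c⟩; simp)

lemma iX1_ap (n : Z3) : iX1 n = (n.1 - n.2.2, n.2.1 - n.2.2, -n.2.2) := rfl
lemma iX2_ap (n : Z3) : iX2 n = (n.2.1, n.1, n.2.2) := rfl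
lemma iX3_ap (n : Z3) : iX3 n = (n.1, n.2.1, n.1 + n.2.1 - n.2.2) := rfl
lemma iX4_ap (n : Z3) : iX4 n = (n.2.2 - n.1, n.2.1, n.2.2) := rfl
lemma iY1_ap (k : Z3) : iY1 k = (k.1, k.2.1, -k.1 - k.2.1 - k.2.2) := rfl
lemma iY3_ap (k : Z3) : iY3 k = (k.1 + k.2.2, k.2.1 + k.2.2, -k.2.2) := rfl
lemma iY4_ap (k : Z3) : iY4 k = (-k.1, k.2.1, k.2.2 + k.1) := rfl

lemma sym_dir {x : ℝ} (hx : 0 ≤ x) (a1 a2 a3 b1 b2 b3 : ℝ) :
    HasSum (fun n => WT (1 + x) (fcc.Q n) * HF a1 a2 a3 b1 b2 b3 (XX n))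
      ((a1 + a2 + a3) / 3 * ∑' n, WT (1 + x) (fcc.Q n) * fcc.Q n) := by
  have hQ : ∀ n, (((XX n).1 : ℤ) : ℝ) ^ 2 + (((XX n).2.1 : ℤ) : ℝ) ^ 2
      + (((XX n).2.2 : ℤ) : ℝ) ^ 2 = fcc.Q n := fun n => by rw [fcc_Q, nsq_cast]
  have := sym_sum (WT (1 + x)) (fun n => ((XX n).1 : ℝ)) (fun n => ((XX n).2.1 : ℝ))
    (fun n => ((XX n).2.2 : ℝ)) (fun n => WT_nonneg (by linarith) _)
    (by simp_rw [hQ]; exact (U5 hx).1) iX1 iX2 iX3 iX4
    (fun n => by simp only [iX1_ap, XX]; push_cast; refine ⟨?_, ?_, ?_⟩ <;> first | trivial | ring1)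
    (fun n => by simp only [iX2_ap, XX]; push_cast; refine ⟨?_, ?_, ?_⟩ <;> first | trivial | ring1)
    (fun n => by simp only [iX3_ap, XX]; push_cast; refine ⟨?_, ?_, ?_⟩ <;> first | trivial | ring1)
    (fun n => by simp only [iX4_ap, XX]; push_cast; refine ⟨?_, ?_, ?_⟩ <;> first | trivial | ring1)
    a1 a2 a3 (2 * b1) (2 * b2) (2 * b3)
  simp_rw [hQ] at this
  exact this

lemma sym_du {s : ℝ} (hs : 9.86 ≤ s) (a1 a2 a3 b1 b2 b3 : ℝ) :
    HasSum (fun k => exp (-(s * fcc.Qd k)) * (HF a1 a2 a3 b1 b2 b3 (YY k) / 4))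
      ((a1 + a2 + a3) / 3 * ∑' k, exp (-(s * fcc.Qd k)) * fcc.Qd k) := by
  have hQ : ∀ n, (((YY n).1 : ℤ) : ℝ) ^ 2 + (((YY n).2.1 : ℤ) : ℝ) ^ 2
      + (((YY n).2.2 : ℤ) : ℝ) ^ 2 = 4 * fcc.Qd n := fun n => by
    rw [fcc_Qd, nsq_cast]; ring
  have := sym_sum (fun N => exp (-(s * (N / 4))) / 4) (fun n => ((YY n).1 : ℝ))
    (fun n => ((YY n).2.1 : ℝ)) (fun n => ((YY n).2.2 : ℝ)) (fun n => by positivity)
    (by
      simp_rw [hQ]
      refine (U4 hs).1.congr fun k => ?_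
      rw [mul_div_cancel_left₀ _ (by norm_num : (4 : ℝ) ≠ 0)]; ring) iY1 iX2 iY3 iY4
    (fun n => by simp only [iY1_ap, YY]; push_cast; refine ⟨?_, ?_, ?_⟩ <;> first | trivial | ring1)
    (fun n => by simp only [iX2_ap, YY]; push_cast; refine ⟨?_, ?_, ?_⟩ <;> first | trivial | ring1)
    (fun n => by simp only [iY3_ap, YY]; push_cast; refine ⟨?_, ?_, ?_⟩ <;> first | trivial | ring1)
    (fun n => by simp only [iY4_ap, YY]; push_cast; refine ⟨?_, ?_, ?_⟩ <;> first | trivial | ring1)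
    a1 a2 a3 (2 * b1) (2 * b2) (2 * b3)
  simp_rw [hQ, mul_div_cancel_left₀ _ (by norm_num : (4 : ℝ) ≠ 0)] at this
  refine hasSum_of_eq this (fun k => ?_) ?_
  · simp only [HF]; ring
  · congr 1
    exact tsum_congr fun k => by ring

lemma hasSum_mem (S : Finset Z3) (f : Z3 → ℝ) :
    HasSum (fun n => if n ∈ S then f n else 0) (∑ n ∈ S, f n) := by
  have := hasSum_sum_of_ne_finset_zero (L := SummationFilter.unconditional Z3)
    (f := fun n : Z3 => if n ∈ S then f n else 0) (s := S) (fun n hn => by simp [hn])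
  exact hasSum_of_eq this (fun _ => rfl) (Finset.sum_congr rfl fun n hn => by simp [hn])

lemma direct {p : SP} (h : p.PD) {a1 a2 a3 b1 b2 b3 x : ℝ} (hx : 0 ≤ x)
    (hd : ∀ n, p.Q n - fcc.Q n = HF a1 a2 a3 b1 b2 b3 (XX n)) (ht : 0 ≤ a1 + a2 + a3) :
    exp (-((1 + x) * 2)) *
      ((∑ n ∈ T1, cub (3 / 4 + 1 / 2 * x) (5 / 8 + 3 / 4 * x) (19 / 48 + 5 / 8 * x)
          (HF a1 a2 a3 b1 b2 b3 (XX n)))
        + exp (-((1 + x) * 2)) * (∑ n ∈ T2, cub (5 / 16 + 1 / 4 * x) (13 / 64 + 5 / 16 * x)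
          (71 / 768 + 13 / 64 * x) (HF a1 a2 a3 b1 b2 b3 (XX n)))
        + exp (-((1 + x) * 2)) ^ 2 * (∑ n ∈ T3, cub (7 / 36 + 1 / 6 * x) (25 / 216 + 7 / 36 * x)
          (61 / 1296 + 25 / 216 * x) (HF a1 a2 a3 b1 b2 b3 (XX n)))
        - 0.0435 * ((a1 + a2 + a3) / 3)) ≤ Phi p (1 + x) - Phi fcc (1 + x) := by
  set u := exp (-((1 + x) * 2)) with hu
  set d : Z3 → ℝ := fun n => HF a1 a2 a3 b1 b2 b3 (XX n) with hdd
  have hσ : 0 < 1 + x := by linarith
  have s1 := (hasSum_mem T1 fun n =>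
    cub (3 / 4 + 1 / 2 * x) (5 / 8 + 3 / 4 * x) (19 / 48 + 5 / 8 * x) (d n)).mul_left u
  have s2 := (hasSum_mem T2 fun n =>
    cub (5 / 16 + 1 / 4 * x) (13 / 64 + 5 / 16 * x) (71 / 768 + 13 / 64 * x) (d n)).mul_left (u ^ 2)
  have s3 := (hasSum_mem T3 fun n => cub (7 / 36 + 1 / 6 * x) (25 / 216 + 7 / 36 * x)
    (61 / 1296 + 25 / 216 * x) (d n)).mul_left (u ^ 3)
  have s0 := ((summable_psi fcc_PD hσ).hasSum.sub (sym_dir hx a1 a2 a3 b1 b2 b3)).add
    ((s1.add s2).add s3)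
  have hle' := hasSum_le (fun n => ?_) s0 (summable_psi h hσ).hasSum
  · have hU := mul_le_mul_of_nonneg_left (U5 hx).2 (show 0 ≤ (a1 + a2 + a3) / 3 by linarith)
    rw [← hu] at hU
    unfold Phi
    linarith
  · have hdn : d n = p.Q n - fcc.Q n := (hd n).symm
    change _ - _ * d n + _ ≤ _
    by_cases hn : n = 0
    · subst hn
      have m1 : (0 : Z3) ∉ T1 := by decide
      have m2 : (0 : Z3) ∉ T2 := by decide
      have m3 : (0 : Z3) ∉ T3 := by decide
      simp [m1, m2, m3, hdn]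
    have hq := h.Q_pos hn
    have hq0 := fcc_PD.Q_pos hn
    by_cases m1 : n ∈ T1
    · have e := T1_nsq n m1
      have m2 : n ∉ T2 := fun m => by have := T2_nsq n m; omega
      have m3 : n ∉ T3 := fun m => by have := T3_nsq n m; omega
      have e' : fcc.Q n = 2 := by rw [fcc_Q, e]; norm_num
      have k := psi_cubic (q0 := 2) (h0 := 1 / 2) (h1 := 3 / 4) (h2 := 5 / 8) (h3 := 19 / 48) hx hq
        (by norm_num) (by norm_num) (by norm_num) (by norm_num) (by norm_num) (by norm_num)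
      have w0 : WT (1 + x) 2 = 0 := if_neg (by norm_num)
      simp only [m1, m2, m3, if_true, if_false, hdn]
      rw [e', w0, psi, ← hu]
      rw [← hu] at k
      linarith
    by_cases m2 : n ∈ T2
    · have e := T2_nsq n m2
      have m3 : n ∉ T3 := fun m => by have := T3_nsq n m; omega
      have e' : fcc.Q n = 4 := by rw [fcc_Q, e]; norm_num
      have k := psi_cubic (q0 := 4) (h0 := 1 / 4) (h1 := 5 / 16) (h2 := 13 / 64) (h3 := 71 / 768)
        hx hq (by norm_num) (by norm_num) (by norm_num) (by norm_num) (by norm_num) (by norm_num)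
      have w0 : WT (1 + x) 4 = 0 := if_neg (by norm_num)
      have eu : exp (-((1 + x) * 4)) = u ^ 2 := by
        rw [hu, ← exp_nat_mul]; congr 1; push_cast; ring
      simp only [m1, m2, m3, if_true, if_false, hdn]
      rw [e', w0, psi, eu]
      rw [eu] at k
      linarith
    by_cases m3 : n ∈ T3
    · have e := T3_nsq n m3
      have e' : fcc.Q n = 6 := by rw [fcc_Q, e]; norm_num
      have k := psi_cubic (q0 := 6) (h0 := 1 / 6) (h1 := 7 / 36) (h2 := 25 / 216) (h3 := 61 / 1296)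
        hx hq (by norm_num) (by norm_num) (by norm_num) (by norm_num) (by norm_num) (by norm_num)
      have w0 : WT (1 + x) 6 = 0 := if_neg (by norm_num)
      have eu : exp (-((1 + x) * 6)) = u ^ 3 := by
        rw [hu, ← exp_nat_mul]; congr 1; push_cast; ring
      simp only [m1, m2, m3, if_true, if_false, hdn]
      rw [e', w0, psi, eu]
      rw [eu] at k
      linarith
    · have h8 : ¬ nsq (XX n) < 8 := fun hh => by
        rcases short_cases n hh with c | c | c | c <;> contradiction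
      have h7 : 7 < fcc.Q n := by
        rw [fcc_Q]; exact_mod_cast (show 7 < nsq (XX n) by omega)
      simp only [m1, m2, m3, if_false, hdn, WT, h7, if_true, mul_zero, add_zero]
      exact psi_linear hσ.le hq0 hq

lemma dual {p : SP} (h : p.PD) (hk : p.kap = 4) {c1 c2 c3 d1 d2 d3 w : ℝ}
    (hd : ∀ k, p.Qd k = HF c1 c2 c3 d1 d2 d3 (YY k) / 4) (hw : c1 + c2 + c3 = 3 + w) (hw0 : 0 ≤ w)
    (t : ℝ) (ht : 0 < t) (ht1 : t ≤ 1) :
    -(0.0408 * w * t ^ 4) ≤ p.theta t - fcc.theta t := by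
  have hE : exp (-(7.4 : ℝ)) ≤ (0.000612 : ℚ) := by
    have := exp_neg_le 7.4 0.000612 30 (by norm_num) (by decide +kernel)
    simpa using this
  have hπ := pi_pos
  have hπ1 := pi_gt_d6
  have hπ2 := pi_lt_d4
  have hππ1 : 9.869 ≤ π ^ 2 := by nlinarith
  have hππ2 : π ^ 2 ≤ 9.87 := by nlinarith
  set s := π ^ 2 / t with hs
  have hs0 : 9.86 ≤ s := by rw [hs, le_div_iff₀ ht]; linarith
  have hspos : 0 < s := by linarith
  obtain ⟨u1, u2⟩ := U4 hs0
  set S := ∑' k, exp (-(s * fcc.Qd k)) * fcc.Qd k with hS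
  have s0 := (fcc_PD.summable_thetaD hspos).hasSum.sub
    (((sym_du hs0 c1 c2 c3 d1 d2 d3).sub u1.hasSum).mul_left s)
  have h1 := hasSum_le (fun k => ?_) s0 (h.summable_thetaD hspos).hasSum
  swap
  · rw [← hd]
    have e : exp (-(s * p.Qd k)) = exp (-(s * fcc.Qd k)) * exp (-(s * (p.Qd k - fcc.Qd k))) := by
      rw [← exp_add]; congr 1; ring
    rw [e]
    have := mul_le_mul_of_nonneg_left (add_one_le_exp (-(s * (p.Qd k - fcc.Qd k))))
      (exp_pos (-(s * fcc.Qd k))).le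
    linarith
  have h2 : fcc.thetaD s - p.thetaD s ≤ s * (w / 3 * S) := by
    unfold SP.thetaD
    rw [hw, ← hS] at h1
    linarith
  rw [h.theta_eq ht, fcc_PD.theta_eq ht, hk, fcc_kap, ← hs]
  have h4 : √4 = 2 := by
    rw [show (4 : ℝ) = 2 ^ 2 by norm_num, Real.sqrt_sq (by norm_num)]
  rw [h4]
  have h3 := sqrt_div_le (a := 1.7725) (τ := 1) (by norm_num) (by linarith) ht ht1
  have h5 := exp_decay (c := 3 / 4 * π ^ 2) (τ := 1) (m := 7) (by
    rw [div_one]; push_cast; linarith) ht ht1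
  have h6 : exp (-(3 / 4 * π ^ 2 / 1)) ≤ 0.000612 := by
    refine le_trans ?_ (hE.trans (by norm_num))
    rw [exp_le_exp]; linarith
  have h7 : exp (-(3 / 4 * s)) ≤ 0.000612 * t ^ 7 := by
    rw [hs, ← mul_div_assoc]
    refine h5.trans ?_
    rw [div_one t]
    gcongr
  have h8 : π / t * √(π / t) / 2 ≤ 3.1416 / t * (1.7725 / t) / 2 := by gcongr
  have hs1 : s ≤ 9.87 / t := by
    rw [hs]; gcongr
  have h9 : s * (w / 3 * S) ≤ 9.87 / t * (w / 3 * (7.2 * (0.000612 * t ^ 7))) := by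
    have : S ≤ 7.2 * (0.000612 * t ^ 7) := by linarith
    have hS0 : 0 ≤ S := tsum_nonneg fun k => by rw [fcc_Qd]; positivity
    gcongr
  have h10 : π / t * √(π / t) / 2 * (fcc.thetaD s - p.thetaD s)
      ≤ 3.1416 / t * (1.7725 / t) / 2 * (9.87 / t * (w / 3 * (7.2 * (0.000612 * t ^ 7)))) := by
    refine le_trans (mul_le_mul_of_nonneg_left (h2.trans h9) (by positivity)) ?_
    gcongr
  have e : 3.1416 / t * (1.7725 / t) / 2 * (9.87 / t * (w / 3 * (7.2 * (0.000612 * t ^ 7))))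
      = 3.1416 * 1.7725 / 2 * 9.87 / 3 * 7.2 * 0.000612 * (w * t ^ 4) := by
    field_simp
  rw [e] at h10
  have h11 : 0 ≤ w * t ^ 4 := by positivity
  linarith

end Pool.Agent.Lib.SS3.Nr
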