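import Pool.Agent.Lib.SS3.Blue
import Pool.Agent.Lib.SS3.NearSum

/-! The estimate in the box around the FCC form, for every screening parameter. -/

open Real

namespace Pool.Agent.Lib.SS3

open Pool.Agent.Lib.MP_3a1514_mp

namespace Nr

lemma amgm {x y z : ℝ} (hx : 0 < x) (hy : 0 < y) (hz : 0 < z) (h : 1 ≤ x * y * z) :
    3 ≤ x + y + z := by
  by_contra hh
  have hs : x + y + z < 3 := not_le.1 hh
  have u1 := mul_nonneg hx.le (sq_nonneg (y - z))
  have u2 := mul_nonneg hy.le (sq_nonneg (x - z))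
  have u3 := mul_nonneg hz.le (sq_nonneg (x - y))
  have u4 := mul_nonneg (add_pos (add_pos hx hy) hz).le
    (add_nonneg (add_nonneg (sq_nonneg (x - y)) (sq_nonneg (y - z))) (sq_nonneg (x - z)))
  have h2 : (x + y + z) ^ 3 < 3 ^ 3 := pow_lt_pow_left₀ hs (by positivity) (by norm_num)
  linarith

lemma tr_ge {x y z d e f : ℝ} (hx : 0 < x) (hy : 0 < y) (hz : 0 < z) (hd : d ^ 2 ≤ x * y)
    (h : x * y * z - z * d ^ 2 - y * e ^ 2 - x * f ^ 2 + 2 * (d * e * f) = 1) : 3 ≤ x + y + z := by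
  refine amgm hx hy hz ?_
  have u1 := sq_nonneg (x * f - d * e)
  have u2 := mul_nonneg (sub_nonneg.2 hd) (sq_nonneg e)
  have h1 : 0 ≤ x * (x * f ^ 2 + y * e ^ 2 - 2 * (d * e * f)) := by linarith
  have h2 : 0 ≤ x * f ^ 2 + y * e ^ 2 - 2 * (d * e * f) := nonneg_of_mul_nonneg_right h1 hx |> id
  have u3 := mul_nonneg hz.le (sq_nonneg d)
  linarith

lemma P_le {P a α β c e : ℝ} (hα : 0 ≤ α) (hβ : 0 ≤ β) (ha : 7 / 8 * P ≤ a)
    (hc : 7 / 8 * P ≤ c) (he : 7 / 8 * P ≤ e)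
    (hkap : (P * (a + β) + a * β) * (α + c) + α * c * (a + β)
      + e * (P * (a + β + (α + c)) + (a + α) * (β + c)) = 4) : P ≤ 1.105 := by
  by_contra hh
  have hh : 1.105 < P := not_le.1 hh
  have ha0 : 0 ≤ a := by linarith
  have hc0 : 0 ≤ c := by linarith
  have he0 : 0 ≤ e := by linarith
  have k0 : 0 ≤ (P * (a + β) + a * β) * α + (P * β + a * β) * c + α * c * (a + β)
      + e * (P * (β + α) + a * β + α * (β + c)) := by positivity
  have q1 : 1.105 * (0.966875 * 0.966875) ≤ P * (a * c) := by gcongr <;> linarith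
  have q2 : 1.105 * (0.966875 * 0.966875) ≤ P * (a * e) := by gcongr <;> linarith
  have q3 : 1.105 * (0.966875 * 0.966875) ≤ P * (c * e) := by gcongr <;> linarith
  have q4 : 0.966875 * (0.966875 * 0.966875) ≤ a * (c * e) := by gcongr <;> linarith
  linarith

lemma ee_le {α β : ℝ} (hα : 0 ≤ α) (hβ : 0 ≤ β) (uα : α ≤ 0.138125) (uβ : β ≤ 0.138125) :
    iEE ((2 * α - β) / 3) ((2 * β - α) / 3) ≤ 0.0128 := by
  have u1 : α * α ≤ 0.138125 * 0.138125 := mul_le_mul uα uα hα (by norm_num)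
  have u2 : β * β ≤ 0.138125 * 0.138125 := mul_le_mul uβ uβ hβ (by norm_num)
  unfold iEE
  rcases le_total α β with hh | hh
  · have := mul_nonneg hα (sub_nonneg.2 hh)
    linarith
  · have := mul_nonneg hβ (sub_nonneg.2 hh)
    linarith

lemma E_ge {e1 e2 : ℝ} (h0 : 0 ≤ e1 + e2) (h1 : e1 + e2 ≤ 0.0924) :
    -(0.0154 * iEE e1 e2) ≤ iE e1 e2 := by
  have hee : 0 ≤ iEE e1 e2 := by unfold iEE; positivity
  have u1 := mul_nonneg (sub_nonneg.2 h1) hee
  have u2 := mul_nonneg h0 (sq_nonneg (e1 - e2))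
  unfold iEE iE at *
  linarith

lemma eb_bounds {e1 e2 b1 b2 b3 : ℝ} (l1 : -0.0921 ≤ e1) (u1 : e1 ≤ 0.0921) (l2 : -0.0921 ≤ e2)
    (u2 : e2 ≤ 0.0921) (l3 : 0 ≤ e1 + e2) (u3 : e1 + e2 ≤ 0.0921) :
    -(0.0921 * iBB b1 b2 b3) ≤ iEB e1 e2 b1 b2 b3 ∧ iEB e1 e2 b1 b2 b3 ≤ 0.0921 * iBB b1 b2 b3 := by
  have a1 := mul_le_mul_of_nonneg_right l1 (sq_nonneg b3)
  have a2 := mul_le_mul_of_nonneg_right u1 (sq_nonneg b3)
  have a3 := mul_le_mul_of_nonneg_right l2 (sq_nonneg b2)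
  have a4 := mul_le_mul_of_nonneg_right u2 (sq_nonneg b2)
  have a5 := mul_le_mul_of_nonneg_right l3 (sq_nonneg b1)
  have a6 := mul_le_mul_of_nonneg_right u3 (sq_nonneg b1)
  have a7 := sq_nonneg b1
  unfold iBB iEB
  constructor <;> linarith

lemma bbb_ge {b1 b2 b3 : ℝ} (l1 : -0.0692 ≤ b1) (u1 : b1 ≤ 0.0692) :
    -(0.0346 * iBB b1 b2 b3) ≤ b1 * b2 * b3 := by
  have a1 := mul_le_mul_of_nonneg_right l1 (sq_nonneg (b2 + b3))
  have a2 := mul_le_mul_of_nonneg_right u1 (sq_nonneg (b2 - b3))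
  have a3 := sq_nonneg b1
  unfold iBB
  linarith

lemma u_up {x : ℝ} : exp (-((1 + x) * 2)) * (1 + 2 * x) ≤ 0.13534 := by
  have hu : exp (-(2 : ℝ)) ≤ (0.13534 : ℚ) := by
    have := exp_neg_le 2 0.13534 16 (by norm_num) (by decide +kernel)
    simpa using this
  have e : exp (-((1 + x) * 2)) * exp (2 * x) = exp (-2) := by
    rw [← exp_add]; congr 1; ring
  have h1 := mul_le_mul_of_nonneg_left (add_one_le_exp (2 * x)) (exp_pos (-((1 + x) * 2))).le
  rw [e] at h1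
  push_cast at hu
  linarith

lemma exp_two_low : (0.135335 : ℝ) ≤ exp (-2) := by
  have h := Real.exp_neg_one_gt_d9
  have e : exp (-2) = exp (-1) ^ 2 := by rw [← exp_nat_mul]; congr 1; norm_num
  rw [e]
  exact le_trans (by norm_num) (pow_le_pow_left₀ (by norm_num) h.le 2)

lemma u_low {x : ℝ} (hx : x ≤ 1) : 0.135335 * (1 - x / 2) ^ 4 ≤ exp (-((1 + x) * 2)) := by
  have e : exp (-((1 + x) * 2)) = exp (-2) * exp (-(x / 2)) ^ 4 := by
    rw [← exp_nat_mul, ← exp_add]; congr 1; push_cast; ring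
  rw [e]
  refine mul_le_mul exp_two_low (pow_le_pow_left₀ (by linarith) ?_ 4) (by positivity) (exp_pos _).le
  linarith [add_one_le_exp (-(x / 2))]

/-- The estimate in terms of the entries of the Gram matrix in the cubic frame. -/
lemma near_mat {p : SP} (h : p.PD) (hk : p.kap = 4) {m α β b1 b2 b3 r : ℝ}
    (hα : 0 ≤ α) (hβ : 0 ≤ β) (uα : α ≤ 0.138125) (uβ : β ≤ 0.138125) (hr : r ≤ 0.0691)
    (hrm : r < m) (l1 : -r ≤ b1) (u1 : b1 ≤ r) (l2 : -r ≤ b2) (u2 : b2 ≤ r) (l3 : -r ≤ b3)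
    (u3 : b3 ≤ r)
    (hdet : (m + α) * (m + β) * m - m * b1 ^ 2 - (m + β) * b2 ^ 2 - (m + α) * b3 ^ 2
      + 2 * (b1 * b2 * b3) = 1)
    (hQ : ∀ n, p.Q n - fcc.Q n = HF (m + α - 1) (m + β - 1) (m - 1) b1 b2 b3 (XX n))
    (hQd : ∀ k, p.Qd k = HF ((m + β) * m - b3 ^ 2) ((m + α) * m - b2 ^ 2)
      ((m + α) * (m + β) - b1 ^ 2) (b2 * b3 - b1 * m) (b1 * b3 - b2 * (m + β))
      (b1 * b2 - b3 * (m + α)) (YY k) / 4) {σ : ℝ} (hσ : 0 < σ) : Phi fcc σ ≤ Phi p σ := by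
  have hr0 : 0 ≤ r := by linarith
  have hm0 : 0 < m := by linarith
  have q1 : b1 ^ 2 ≤ r ^ 2 := sq_le_sq' l1 u1
  have q2 : b2 ^ 2 ≤ r ^ 2 := sq_le_sq' l2 u2
  have q3 : b3 ^ 2 ≤ r ^ 2 := sq_le_sq' l3 u3
  have hrr : r ^ 2 ≤ 0.0691 ^ 2 := pow_le_pow_left₀ hr0 hr 2
  have hmm : r ^ 2 < m ^ 2 := pow_lt_pow_left₀ hrm hr0 two_ne_zero
  have k1 := mul_nonneg hα hm0.le
  have k2 := mul_nonneg hβ hm0.le
  have k3 := mul_nonneg hα hβ
  have ht0 := tr_ge (x := m + α) (y := m + β) (z := m) (d := b1) (e := b2) (f := b3)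
    (by linarith) (by linarith) hm0 (by linarith) hdet
  have hw0 := tr_ge (x := (m + β) * m - b3 ^ 2) (y := (m + α) * m - b2 ^ 2)
    (z := (m + α) * (m + β) - b1 ^ 2) (d := b2 * b3 - b1 * m) (e := b1 * b3 - b2 * (m + β))
    (f := b1 * b2 - b3 * (m + α)) (by linarith) (by linarith) (by linarith)
    (by
      have : ((m + β) * m - b3 ^ 2) * ((m + α) * m - b2 ^ 2) - (b2 * b3 - b1 * m) ^ 2 = m := by
        linear_combination m * hdet
      exact sub_nonneg.1 (hm0.le.trans_eq this.symm))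
    (by
      linear_combination ((m + α) * (m + β) * m - m * b1 ^ 2 - (m + β) * b2 ^ 2 - (m + α) * b3 ^ 2
        + 2 * (b1 * b2 * b3) + 1) * hdet)
  obtain ⟨t, ht⟩ : ∃ t, t = 3 * m + α + β - 3 := ⟨_, rfl⟩
  obtain ⟨e1, he1⟩ : ∃ e1, e1 = (2 * α - β) / 3 := ⟨_, rfl⟩
  obtain ⟨e2, he2⟩ : ∃ e2, e2 = (2 * β - α) / 3 := ⟨_, rfl⟩
  have ea1 : m + α - 1 = t / 3 + e1 := by rw [ht, he1]; ring
  have ea2 : m + β - 1 = t / 3 + e2 := by rw [ht, he2]; ring
  have ea3 : m - 1 = t / 3 - e1 - e2 := by rw [ht, he1, he2]; ring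
  have htp : 0 ≤ t := by linarith
  obtain ⟨w, hw⟩ : ∃ w, w = 2 * t + t ^ 2 / 3 - iEE e1 e2 / 2 - iBB b1 b2 b3 := ⟨_, rfl⟩
  have hw1 : (m + β) * m - b3 ^ 2 + ((m + α) * m - b2 ^ 2) + ((m + α) * (m + β) - b1 ^ 2)
      = 3 + w := by
    rw [hw, iEE, iBB, ht, he1, he2]; ring
  have hw2 : 0 ≤ w := by linarith
  have hcon : t = iEE e1 e2 / 2 + iBB b1 b2 b3 - t ^ 2 / 3 - t ^ 3 / 27 + t * iEE e1 e2 / 6
      - iE e1 e2 + t * iBB b1 b2 b3 / 3 + iEB e1 e2 b1 b2 b3 - 2 * (b1 * b2 * b3) := by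
    rw [iEE, iBB, iE, iEB, ht, he1, he2]; linear_combination hdet
  have hee0 : 0 ≤ iEE e1 e2 := by unfold iEE; positivity
  have hbb0 : 0 ≤ iBB b1 b2 b3 := by unfold iBB; positivity
  have hee : iEE e1 e2 ≤ 0.0128 := by rw [he1, he2]; exact ee_le hα hβ uα uβ
  have hbb : iBB b1 b2 b3 ≤ 0.0144 := by unfold iBB; linarith
  have hE := E_ge (e1 := e1) (e2 := e2) (by linarith) (by linarith)
  obtain ⟨heb, heb'⟩ := eb_bounds (e1 := e1) (e2 := e2) (b1 := b1) (b2 := b2) (b3 := b3)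
    (by linarith) (by linarith) (by linarith) (by linarith) (by linarith) (by linarith)
  have hbbb := bbb_ge (b1 := b1) (b2 := b2) (b3 := b3) (by linarith) (by linarith)
  rw [ea1, ea2, ea3] at hQ
  have main : ∀ x : ℝ, 0 ≤ x →
      exp (-((1 + x) * 2)) * (0.0604 * w) ≤ Phi p (1 + x) - Phi fcc (1 + x) := by
    intro x hx
    have hdir := direct h hx hQ (by linarith)
    rw [sum_T1, sum_T2, sum_T3] at hdir
    refine le_trans (mul_le_mul_of_nonneg_left ?_ (exp_pos _).le) hdir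
    have := poly_main htp hee0 hee hbb0 hbb hE heb heb' hbbb hcon hx (exp_pos _).le u_up u_low
    rw [hw]
    linear_combination this
  rcases le_total 1 σ with h1 | h1
  · have := main (σ - 1) (by linarith)
    rw [add_sub_cancel] at this
    have h2 : 0 ≤ exp (-(σ * 2)) * (0.0604 * w) := by positivity
    linarith
  · have h2 := main 0 le_rfl
    have h3 := ewald1 h fcc_PD hσ h1 (c := 0.0408 * w) (by positivity) 4
      (dual h hk hQd hw1 hw2)
    have h4 := mul_le_mul_of_nonneg_right exp_two_low hw2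
    norm_num at h2 h3
    linarith

end Nr

theorem st_NEAR : St_NEAR := by
  intro p h hk l03 u03 l12 u12 l02 u02 l13 u13 l23 u23 σ hσ
  obtain ⟨P, a, α, β, c, e⟩ := p
  simp only at l03 u03 l12 u12 l02 u02 l13 u13 l23 u23
  have hP0 : 0 ≤ P := by linarith
  have hkap : (P * (a + β) + a * β) * (α + c) + α * c * (a + β)
      + e * (P * (a + β + (α + c)) + (a + α) * (β + c)) = 4 := hk
  have hP : 0 < P := by
    rcases hP0.eq_or_lt with h0 | h0
    · exfalso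
      subst h0
      have : a = 0 := by linarith
      have : α = 0 := by linarith
      have : β = 0 := by linarith
      have : c = 0 := by linarith
      subst_vars
      norm_num at hkap
    · exact h0
  have hP1 := Nr.P_le l03 l12 l02 l13 l23 hkap
  refine Nr.near_mat h hk (m := (P + a + c + e) / 4) (α := α) (β := β) (b1 := (-P + c - e + a) / 4)
    (b2 := (P - c - e + a) / 4) (b3 := (-P - c + e + a) / 4) (r := P / 16) l03 l12 (by linarith)
    (by linarith) (by linarith) (by linarith) (by linarith) (by linarith) (by linarith)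
    (by linarith) (by linarith) (by linarith) (by linear_combination hkap / 4) (fun n => ?_)
    (fun k => ?_) hσ
  · simp only [SP.Q, SP.q, fcc, Nr.HF, XX]; push_cast; ring
  · rw [SP.Qd, hk]
    simp only [SP.adj, SP.g11, SP.g22, SP.g33, Nr.HF, YY]; push_cast; ring

end Pool.Agent.Lib.SS3
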