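import Pool.Agent.Lib.SS3.Blue2
import Pool.Agent.Lib.SS3.Shell

/-! Forms with a short vector, and the corner of the reduction domain. -/

open Real

namespace Pool.Agent.Lib.SS3

open Pool.Agent.Lib.MP_3a1514_mp

namespace S18

lemma cor_aux {P x y z : ℝ} (hP : 0 < P) (hx : 0 ≤ x) (hy : 0 ≤ y) (h1 : x ≤ z) (h2 : y ≤ z)
    (hm : x + y ≤ 3 / 128 * P) (hk : P * (x * y + z * (x + y)) ≤ 4) : x + y ≤ 0.58 := by
  have a1 : (x + y) ^ 2 ≤ 2 * (x * y + z * (x + y)) := by nlinarith [mul_nonneg hx hy]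
  have a2 : P * (x + y) ^ 2 ≤ 8 := by nlinarith
  have a3 : (x + y) * (x + y) ^ 2 ≤ 3 / 128 * P * (x + y) ^ 2 := by gcongr
  have a4 : (x + y) ^ 3 ≤ 0.1875 := by nlinarith
  by_contra hh
  have h5 : (0.58 : ℝ) ^ 3 ≤ (x + y) ^ 3 := by
    have := (not_le.1 hh).le
    gcongr
  norm_num at h5 a4
  linarith

lemma cor_form {p : SP} (hk : p.kap = 4) (hP : 0 < p.p01) (l02 : 0 ≤ p.p02)
    (l03 : 0 ≤ p.p03) (l12 : 0 ≤ p.p12) (l13 : 0 ≤ p.p13) (l23 : 0 ≤ p.p23)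
    (u02 : p.p02 ≤ p.p01 / 128) (u03 : p.p03 ≤ p.p01 / 128) (u12 : p.p12 ≤ p.p01 / 128)
    (u13 : p.p13 ≤ p.p01 / 128) (u23 : p.p23 ≤ p.p01 / 128) :
    ∃ n : Z3, n ≠ 0 ∧ n ≠ -n ∧ p.Q n ≤ 0.58 := by
  set α := p.p02 + p.p12 with hα
  set β := p.p03 + p.p13 with hβ
  have hα0 : 0 ≤ α := by positivity
  have hβ0 : 0 ≤ β := by positivity
  have hb : p.p01 * (α * β + p.p23 * (α + β)) ≤ 4 := by
    have e : p.kap = p.p01 * (α * β + p.p23 * (α + β)) + (p.p02 * p.p12 * β + p.p03 * p.p13 * α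
        + p.p23 * ((p.p02 + p.p03) * (p.p12 + p.p13))) := by
      simp only [SP.kap, hα, hβ]; ring
    have : 0 ≤ p.p02 * p.p12 * β + p.p03 * p.p13 * α
        + p.p23 * ((p.p02 + p.p03) * (p.p12 + p.p13)) := by positivity
    linarith
  have q1 : p.Q (0, 1, 0) = α + p.p23 := by simp [SP.Q, SP.q, hα]
  have q2 : p.Q (0, 0, 1) = β + p.p23 := by simp [SP.Q, SP.q, hβ]
  have q3 : p.Q (0, 1, 1) = α + β := by simp [SP.Q, SP.q, hα, hβ]; ring
  by_cases c1 : α ≤ p.p23 ∧ β ≤ p.p23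
  · refine ⟨(0, 1, 1), by decide, by decide, ?_⟩
    rw [q3]
    exact cor_aux hP hα0 hβ0 c1.1 c1.2 (by linarith [c1.1, c1.2]) hb
  rcases le_total α β with c2 | c2
  · refine ⟨(0, 1, 0), by decide, by decide, ?_⟩
    rw [q1]
    refine cor_aux (z := β) hP hα0 l23 c2 ?_ (by linarith) (by linarith)
    by_contra hh
    exact c1 ⟨by linarith, by linarith⟩
  · refine ⟨(0, 0, 1), by decide, by decide, ?_⟩
    rw [q2]
    refine cor_aux (z := α) hP hβ0 l23 c2 ?_ (by linarith) (by linarith)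
    by_contra hh
    exact c1 ⟨by linarith, by linarith⟩

lemma Q_neg' (p : SP) (n : Z3) : p.Q (-n) = p.Q n := by
  simp only [SP.Q, SP.q, Prod.fst_neg, Prod.snd_neg, Int.cast_neg]; ring

lemma two_le {p : SP} (h : p.PD) {n : Z3} (hn : n ≠ 0) (hn' : n ≠ -n) (hq : p.Q n ≤ 0.58)
    {σ : ℝ} (hσ : 0 < σ) : 2 * (exp (-(σ * 0.58)) / 0.58) ≤ Phi p σ := by
  have h0 := h.Q_pos hn
  have h1 : ∑ k ∈ ({n, -n} : Finset Z3), psi σ (p.Q k) ≤ Phi p σ :=
    (summable_psi h hσ).sum_le_tsum _ fun k _ => psi_nonneg σ (h.Q_nonneg k)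
  rw [Finset.sum_pair hn', Q_neg'] at h1
  have h2 : exp (-(σ * 0.58)) / 0.58 ≤ psi σ (p.Q n) := by
    unfold psi
    gcongr
  linarith

lemma fcc_at : Phi fcc (45 / 64) ≤ 1.7 := by
  have hu : exp (-(45 / 32 : ℝ)) ≤ (0.25 : ℚ) := by
    have := exp_neg_le (45 / 32) 0.25 12 (by norm_num) (by decide +kernel)
    simpa using this
  have h1 : Phi fcc (45 / 64) ≤ pF 0.25 := by
    refine PhiF_le (by norm_num) ?_
    refine le_trans (le_of_eq ?_) (hu.trans (by norm_num))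
    norm_num
  refine h1.trans ?_
  unfold pF
  norm_num

lemma low_at : (2 : ℝ) ≤ 2 * (exp (-(45 / 64 * 0.58)) / 0.58) := by
  have h := add_one_le_exp (-(45 / 64 * 0.58 : ℝ))
  have h2 : (1 : ℝ) ≤ exp (-(45 / 64 * 0.58)) / 0.58 := by
    rw [le_div_iff₀ (by norm_num)]
    linarith
  linarith

end S18

theorem st_COR : St_COR := by
  intro l a b c d e D hb hc hd he ha8 he8
  have hl := D.pos
  have ha : 0 ≤ a := hb.trans D.ba
  have m := fun {x y : ℝ} (hxy : x ≤ y) => mul_le_mul_of_nonneg_left hxy hl.le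
  have k2 := D.ba.trans ha8
  have k3 := D.ca.trans ha8
  have k4 := D.da.trans ha8
  refine S18.cor_form D.kap ?_ ?_ ?_ ?_ ?_ ?_ ?_ ?_ ?_ ?_ ?_ <;> simp only [sp] <;>
    linarith [m ha, m hb, m hc, m hd, m he, m ha8, m k2, m k3, m k4, m he8]

theorem st_SHORT : St_SHORT := by
  intro p h hk n hn hn' hq σ hσ
  have f1 := S18.fcc_at
  have f2 := S18.low_at
  rcases le_total σ (45 / 64) with hs | hs
  · refine small_scale h hk ?_ hσ hs
    have := S18.two_le h hn hn' hq (σ := 45 / 64) (by norm_num)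
    linarith
  · have h1 := PhiF_decay (τ := 45 / 64) (by norm_num) hs
    have h2 := S18.two_le h hn hn' hq hσ
    have h3 : exp (-(2 * (σ - 45 / 64))) ≤ exp (-((σ - 45 / 64) * 0.58)) := by
      rw [exp_le_exp]; nlinarith
    have h4 : exp (-(σ * 0.58)) = exp (-((σ - 45 / 64) * 0.58)) * exp (-(45 / 64 * 0.58)) := by
      rw [← exp_add]; congr 1; ring
    have h5 : exp (-(2 * (σ - 45 / 64))) * Phi fcc (45 / 64)
        ≤ exp (-((σ - 45 / 64) * 0.58)) * (2 * (exp (-(45 / 64 * 0.58)) / 0.58)) :=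
      mul_le_mul h3 (by linarith) (Phi_nonneg fcc_PD _) (exp_pos _).le
    rw [h4] at h2
    refine h1.trans (h5.trans (le_trans (le_of_eq ?_) h2))
    ring

end Pool.Agent.Lib.SS3
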