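import Pool.Agent.Lib.SS3.Blue3
import Pool.Agent.Lib.SS3.Data
import Pool.Agent.Lib.SS3.Shell

/-! The two tables of the checker are valid. -/

open Real

namespace Pool.Agent.Lib.SS3

open Pool.Agent.Lib.MP_3a1514_mp

namespace TAB

lemma valid_zero : ValidT 0 :=
  ⟨0, 1, Nat.one_pos, by simp, by simp only [Nat.cast_zero, zero_mul]; positivity⟩

lemma lookT_eq (t j : ℕ) : lookT t j = t / 2 ^ (168 * j) % 2 ^ 168 := by
  have e : (374144419156711147060143317175368453031918731001855 : ℕ) = 2 ^ 168 - 1 := by norm_num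
  change (t >>> (168 * j)) &&& 374144419156711147060143317175368453031918731001855 = _
  rw [e, Nat.and_two_pow_sub_one_eq_mod, Nat.shiftRight_eq_div_pow]

lemma trunc_eq (t m : ℕ) : trunc t m = t % 2 ^ (168 * m) := by
  change t &&& (1 <<< (168 * m) - 1) = _
  rw [Nat.one_shiftLeft, Nat.and_two_pow_sub_one_eq_mod]

lemma lookT_of_lt {t n j : ℕ} (ht : t < 2 ^ (168 * n)) (h : n ≤ j) : lookT t j = 0 := by
  have h2 : 2 ^ (168 * n) ≤ 2 ^ (168 * j) := Nat.pow_le_pow_right (by norm_num) (by omega)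
  rw [lookT_eq, Nat.div_eq_of_lt (ht.trans_le h2), Nat.zero_mod]

lemma lookT_trunc (t : ℕ) {m j : ℕ} (h : j < m) : lookT (trunc t m) j = lookT t j := by
  obtain ⟨k, rfl⟩ := Nat.exists_eq_add_of_lt h
  have e : 168 * (j + k + 1) = 168 * j + (168 + 168 * k) := by ring
  rw [lookT_eq, lookT_eq, trunc_eq, e, pow_add, Nat.mod_mul_right_div_self, pow_add,
    Nat.mod_mul_right_mod]

noncomputable def loopT (t : Nat) (fuel : Nat) : Nat → Nat → Bool :=
  Nat.rec (motive := fun _ => Nat → Nat → Bool) (fun _ _ => true)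
    (fun _ ih j E => force (2 * j + 1) fun J => force (lookT t j) fun x =>
      force (x % 72057594037927936) fun u =>
      ((Nat.beq x (u + u * J * 72057594037927936 + u * J ^ 2 * 5192296858534827628530496329220096)).and
        (Nat.ble (u * J ^ 2 * 1048576) E)).and
      (force (E * 18160753769247495509 / 18446744073709551616) fun E' =>
        force (j + 1) fun j' => ih j' E'))
    fuel

lemma stepT : (18160753769247495509 : ℝ) ≤ 2 ^ 64 * exp (-(1 / 64)) := by
  have := exp_neg_ge_cubic (1 / 64)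
  norm_num at this ⊢
  linarith

lemma startT : (18303190369571613354 : ℝ) ≤ 2 ^ 64 * exp (-(1 / 128)) := by
  have := exp_neg_ge_cubic (1 / 128)
  norm_num at this ⊢
  linarith

lemma loopT_sound (t : ℕ) (fuel : ℕ) : ∀ j E : ℕ, loopT t fuel j E = true →
    (E : ℝ) ≤ 2 ^ 64 * exp (-(((2 * j + 1 : ℕ) : ℝ) / 128)) →
    ∀ i, j ≤ i → i < j + fuel → ValidT (lookT t i) := by
  induction fuel with
  | zero => intro j E _ _ i h1 h2; omega
  | succ n ih =>
    intro j E h hE i h1 h2
    simp only [loopT, SS3.force_eq, Bool.and_eq_true, Nat.beq_eq, Nat.ble_eq] at h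
    obtain ⟨⟨h3, h3'⟩, h4⟩ := h
    rcases h1.eq_or_lt with rfl | h1
    · generalize lookT t j % 72057594037927936 = u at h3 h3'
      refine ⟨u, 2 * j + 1, by omega, ?_, ?_⟩
      · rw [h3]; norm_num
      · have h5 : (u : ℝ) * ((2 * j + 1 : ℕ) : ℝ) ^ 2 * 1048576 ≤ E := by exact_mod_cast h3'
        linarith
    · refine ih (j + 1) _ (by simpa only [loopT, SS3.force_eq] using h4) ?_ i h1 (by omega)
      have e : exp (-(((2 * (j + 1) + 1 : ℕ) : ℝ) / 128))
          = exp (-(((2 * j + 1 : ℕ) : ℝ) / 128)) * exp (-(1 / 64)) := by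
        rw [← exp_add]; congr 1; push_cast; ring
      rw [e]
      refine Nat.cast_div_le.trans ?_
      rw [div_le_iff₀ (by norm_num)]
      have := mul_le_mul hE stepT (by norm_num) (by positivity)
      push_cast at this ⊢
      linarith

lemma tT_ok : loopT tT 800 0 18303190369571613354 = true := by decide +kernel

lemma tT_lt : Nat.blt tT (2 ^ (168 * 800)) = true := by decide +kernel

lemma valid_lookT (i : ℕ) : ValidT (lookT tT i) := by
  by_cases hi : i < 800
  · refine loopT_sound tT 800 0 _ tT_ok ?_ i (by omega) (by omega)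
    have := startT
    norm_num at this ⊢
    exact this
  · have h := tT_lt
    rw [Nat.blt_eq] at h
    rw [lookT_of_lt h (by omega)]
    exact valid_zero

/-- `5040 * B ^ 10 * pF (X / B)` -/
def hF (X B : Nat) : Nat :=
  30240 * X * B ^ 9 + 7560 * X ^ 2 * B ^ 8 + 20160 * X ^ 3 * B ^ 7 + 7560 * X ^ 4 * B ^ 6
    + 12096 * X ^ 5 * B ^ 5 + 3360 * X ^ 6 * B ^ 4 + 17280 * X ^ 7 * B ^ 3 + 1890 * X ^ 8 * B ^ 2
    + 10080 * X ^ 9 * B + 10080 * X ^ 10

lemma hF_eq (X B : ℕ) (hB : 0 < B) :
    (hF X B : ℝ) = 5040 * (B : ℝ) ^ 10 * pF ((X : ℝ) / B) := by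
  have : (B : ℝ) ≠ 0 := by positivity
  simp only [hF, pF]
  push_cast
  field_simp
  ring

noncomputable def loopF (t B : Nat) (fuel : Nat) : Nat → Nat → Bool :=
  Nat.rec (motive := fun _ => Nat → Nat → Bool) (fun _ _ => true)
    (fun _ ih i X =>
      ((Nat.blt i 180).or
        (Nat.ble (2 ^ 51 * (hF X B * 10000000 + cond (Nat.beq i 180) 820 0 * (5040 * B ^ 10)))
          (fld t (Nat.mul 56 i) * (5040 * B ^ 10) * 10000000))).and
      (force (X * 18303190372430456780 / 18446744073709551616 + 1) fun X' =>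
        force (i + 1) fun i' => ih i' X'))
    fuel

lemma stepF : 2 ^ 64 * exp (-(1 / 128 : ℝ)) ≤ 18303190372430456780 := by
  have := exp_neg_le (1 / 128) (18303190372430456780 / 2 ^ 64) 12 (by norm_num) (by decide +kernel)
  push_cast at this
  rw [le_div_iff₀ (by positivity)] at this
  linarith

lemma entryF {B X i f : ℕ} (hB : (B : ℝ) = 2 ^ 64) (hi : 180 ≤ i)
    (hX : 2 ^ 64 * exp (-((i : ℝ) / 128)) ≤ X)
    (h : 2 ^ 51 * (hF X B * 10000000 + cond (Nat.beq i 180) 820 0 * (5040 * B ^ 10))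
      ≤ f * (5040 * B ^ 10) * 10000000) :
    2 ^ 51 * (Phi fcc ((i : ℝ) / 256) + if i = 180 then 0.000082 else 0) ≤ (f : ℝ) := by
  have hB0 : (0 : ℝ) < B := by rw [hB]; positivity
  have hi' : (180 : ℝ) ≤ i := by exact_mod_cast hi
  have h1 : Phi fcc ((i : ℝ) / 256) ≤ pF ((X : ℝ) / B) := by
    refine PhiF_le (by linarith) ?_
    rw [le_div_iff₀ hB0, hB, show 2 * ((i : ℝ) / 256) = (i : ℝ) / 128 by ring]
    linarith
  have h2 : ((cond (Nat.beq i 180) 820 0 : ℕ) : ℝ)
      = 10000000 * (if i = 180 then (0.000082 : ℝ) else 0) := by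
    by_cases h3 : i = 180
    · subst h3; norm_num
    · have : Nat.beq i 180 = false := by
        rw [← Bool.not_eq_true, Nat.beq_eq]; exact h3
      rw [this, if_neg h3]; norm_num
  have h3 : (2 : ℝ) ^ 51 * ((hF X B : ℝ) * 10000000
      + ((cond (Nat.beq i 180) 820 0 : ℕ) : ℝ) * (5040 * (B : ℝ) ^ 10))
      ≤ f * (5040 * (B : ℝ) ^ 10) * 10000000 := by exact_mod_cast h
  rw [hF_eq X B (by exact_mod_cast hB0), h2] at h3
  generalize (if i = 180 then (0.000082 : ℝ) else 0) = d at h3 ⊢
  have hD : (0 : ℝ) < 5040 * (B : ℝ) ^ 10 := by positivity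
  generalize 5040 * (B : ℝ) ^ 10 = D at h3 hD
  have h4 : 2 ^ 51 * (pF ((X : ℝ) / B) + d) * (D * 10000000) ≤ f * (D * 10000000) := by
    linarith
  have h5 := le_of_mul_le_mul_right h4 (by positivity)
  linarith

lemma loopF_sound (t B : ℕ) (hB : (B : ℝ) = 2 ^ 64) (fuel : ℕ) :
    ∀ j X : ℕ, loopF t B fuel j X = true → 2 ^ 64 * exp (-((j : ℝ) / 128)) ≤ X →
    ∀ i, j ≤ i → i < j + fuel → 180 ≤ i →
      2 ^ 51 * (Phi fcc ((i : ℝ) / 256) + if i = 180 then 0.000082 else 0)
        ≤ (fld t (Nat.mul 56 i) : ℝ) := by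
  induction fuel with
  | zero => intro j E _ _ i h1 h2; omega
  | succ n ih =>
    intro j X h hX i h1 h2 hi
    simp only [loopF, SS3.force_eq, Bool.and_eq_true, Bool.or_eq_true, Nat.blt_eq, Nat.ble_eq] at h
    obtain ⟨h3, h4⟩ := h
    rcases h1.eq_or_lt with rfl | h1
    · exact entryF hB hi hX (h3.resolve_left (by omega))
    · refine ih (j + 1) _ (by simpa only [loopF, SS3.force_eq] using h4) ?_ i h1 (by omega) hi
      have e : exp (-(((j + 1 : ℕ) : ℝ) / 128)) = exp (-((j : ℝ) / 128)) * exp (-(1 / 128)) := by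
        rw [← exp_add]; congr 1; push_cast; ring
      have h5 : X * 18303190372430456780
          ≤ (X * 18303190372430456780 / 18446744073709551616 + 1) * 18446744073709551616 := by
        omega
      generalize X * 18303190372430456780 / 18446744073709551616 + 1 = Y at h5 ⊢
      have h6 : (X : ℝ) * 18303190372430456780 ≤ Y * 18446744073709551616 := by exact_mod_cast h5
      have := mul_le_mul hX stepF (by positivity) (by positivity)
      rw [e]
      linarith

lemma tF_ok : loopF tF 18446744073709551616 1024 0 18446744073709551616 = true := by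
  decide +kernel

end TAB

theorem st_TT : St_TT tT := by
  intro m j
  by_cases h : j < m
  · rw [TAB.lookT_trunc tT h]; exact TAB.valid_lookT j
  · rw [TAB.lookT_of_lt (n := m) (by rw [TAB.trunc_eq]; exact Nat.mod_lt _ (by positivity))
      (by omega)]
    exact TAB.valid_zero

theorem st_TF : St_TF tF := fun i h1 h2 =>
  TAB.loopF_sound tF _ (by norm_num) 1024 0 _ TAB.tF_ok (by norm_num) i (by omega) (by omega) h1

end Pool.Agent.Lib.SS3
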