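import Pool.Agent.Lib.SS3.Blue2
import Pool.Agent.Lib.SS3.Transfer

/-! Soundness of the subdivision tree. -/

namespace Pool.Agent.Lib.SS3.H70

open Pool.Agent.Lib.MP_3a1514_mp

variable {a0 a1 b0 b1 c0 c1 d0 d1 e0 e1 sa sb : ℕ}

lemma good_sa (m : ℕ) (h1 : Good a0 m b0 b1 c0 c1 d0 d1 e0 e1 sa sb)
    (h2 : Good m a1 b0 b1 c0 c1 d0 d1 e0 e1 sa sb) : Good a0 a1 b0 b1 c0 c1 d0 d1 e0 e1 sa sb :=
  fun l a b c d e σ D x0 x1 y0 y1 z0 z1 u0 u1 v0 v1 => (lt_or_ge a m).elim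
    (fun h => h1 l a b c d e σ D x0 (Or.inl h) y0 y1 z0 z1 u0 u1 v0 v1)
    (fun h => h2 l a b c d e σ D h x1 y0 y1 z0 z1 u0 u1 v0 v1)

lemma good_sb (m : ℕ) (h1 : Good a0 a1 b0 m c0 c1 d0 d1 e0 e1 sa sb)
    (h2 : Good a0 a1 m b1 c0 c1 d0 d1 e0 e1 sa sb) : Good a0 a1 b0 b1 c0 c1 d0 d1 e0 e1 sa sb :=
  fun l a b c d e σ D x0 x1 y0 y1 z0 z1 u0 u1 v0 v1 => (le_total b m).elim
    (fun h => h1 l a b c d e σ D x0 x1 y0 h z0 z1 u0 u1 v0 v1)
    (fun h => h2 l a b c d e σ D x0 x1 h y1 z0 z1 u0 u1 v0 v1)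

lemma good_sc (m : ℕ) (h1 : Good a0 a1 b0 b1 c0 m d0 d1 e0 e1 sa sb)
    (h2 : Good a0 a1 b0 b1 m c1 d0 d1 e0 e1 sa sb) : Good a0 a1 b0 b1 c0 c1 d0 d1 e0 e1 sa sb :=
  fun l a b c d e σ D x0 x1 y0 y1 z0 z1 u0 u1 v0 v1 => (le_total c m).elim
    (fun h => h1 l a b c d e σ D x0 x1 y0 y1 z0 h u0 u1 v0 v1)
    (fun h => h2 l a b c d e σ D x0 x1 y0 y1 h z1 u0 u1 v0 v1)

lemma good_sd (m : ℕ) (h1 : Good a0 a1 b0 b1 c0 c1 d0 m e0 e1 sa sb)
    (h2 : Good a0 a1 b0 b1 c0 c1 m d1 e0 e1 sa sb) : Good a0 a1 b0 b1 c0 c1 d0 d1 e0 e1 sa sb :=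
  fun l a b c d e σ D x0 x1 y0 y1 z0 z1 u0 u1 v0 v1 => (le_total d m).elim
    (fun h => h1 l a b c d e σ D x0 x1 y0 y1 z0 z1 u0 h v0 v1)
    (fun h => h2 l a b c d e σ D x0 x1 y0 y1 z0 z1 h u1 v0 v1)

lemma good_se (m : ℕ) (h1 : Good a0 a1 b0 b1 c0 c1 d0 d1 e0 m sa sb)
    (h2 : Good a0 a1 b0 b1 c0 c1 d0 d1 m e1 sa sb) : Good a0 a1 b0 b1 c0 c1 d0 d1 e0 e1 sa sb :=
  fun l a b c d e σ D x0 x1 y0 y1 z0 z1 u0 u1 v0 v1 => (le_total e m).elim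
    (fun h => h1 l a b c d e σ D x0 x1 y0 y1 z0 z1 u0 u1 v0 h)
    (fun h => h2 l a b c d e σ D x0 x1 y0 y1 z0 z1 u0 u1 h v1)

lemma good_ss (m : ℕ) (h1 : Good a0 a1 b0 b1 c0 c1 d0 d1 e0 e1 sa m)
    (h2 : Good a0 a1 b0 b1 c0 c1 d0 d1 e0 e1 m sb) : Good a0 a1 b0 b1 c0 c1 d0 d1 e0 e1 sa sb :=
  fun l a b c d e σ D x0 x1 y0 y1 z0 z1 u0 u1 v0 v1 hσ s0 s1 => (le_total σ (m / 256)).elim
    (fun h => h1 l a b c d e σ D x0 x1 y0 y1 z0 z1 u0 u1 v0 v1 hσ s0 (Or.inr h))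
    (fun h => h2 l a b c d e σ D x0 x1 y0 y1 z0 z1 u0 u1 v0 v1 hσ (Or.inr h) s1)

lemma good_out (h : a1 < 1024 ∧ (a1 ≤ b0 ∨ a1 ≤ c0 ∨ a1 ≤ d0)) :
    Good a0 a1 b0 b1 c0 c1 d0 d1 e0 e1 sa sb := by
  intro l a b c d e σ D x0 x1 y0 y1 z0 z1 u0 u1 v0 v1
  exfalso
  have x2 : a < a1 := x1.resolve_right (by omega)
  rcases h.2 with h | h | h
  · have : (a1 : ℝ) ≤ b0 := by exact_mod_cast h
    linarith [D.ba]
  · have : (a1 : ℝ) ≤ c0 := by exact_mod_cast h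
    linarith [D.ca]
  · have : (a1 : ℝ) ≤ d0 := by exact_mod_cast h
    linarith [D.da]

lemma good_loc (hN : St_NEAR) (h : 896 ≤ a0 ∧ b1 ≤ 128 ∧ c1 ≤ 128 ∧ 896 ≤ d0 ∧ 896 ≤ e0) :
    Good a0 a1 b0 b1 c0 c1 d0 d1 e0 e1 sa sb := by
  intro l a b c d e σ D x0 x1 y0 y1 z0 z1 u0 u1 v0 v1 hσ _ _
  obtain ⟨h1, h2, h3, h4, h5⟩ := h
  have k1 : (896 : ℝ) ≤ a := le_trans (by exact_mod_cast h1) x0
  have k2 : b ≤ 128 := le_trans y1 (by exact_mod_cast h2)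
  have k3 : c ≤ 128 := le_trans z1 (by exact_mod_cast h3)
  have k4 : (896 : ℝ) ≤ d := le_trans (by exact_mod_cast h4) u0
  have k5 : (896 : ℝ) ≤ e := le_trans (by exact_mod_cast h5) v0
  have k6 : 0 ≤ b := le_trans (Nat.cast_nonneg _) y0
  have k7 : 0 ≤ c := le_trans (Nat.cast_nonneg _) z0
  have k8 := D.da.trans D.a1
  have hl := D.pos.le
  have m := fun {x y : ℝ} (hxy : x ≤ y) => mul_le_mul_of_nonneg_left hxy hl
  refine hN _ D.pd D.kap ?_ ?_ ?_ ?_ ?_ ?_ ?_ ?_ ?_ ?_ σ hσ <;> simp only [sp] <;>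
    linarith [m k1, m k2, m k3, m k4, m k5, m k6, m k7, m k8, m D.a1, m D.e1]

lemma good_cor (hC : St_COR) (hS : St_SHORT) (h : a1 ≤ 8 ∧ e1 ≤ 8) :
    Good a0 a1 b0 b1 c0 c1 d0 d1 e0 e1 sa sb := by
  intro l a b c d e σ D x0 x1 y0 y1 z0 z1 u0 u1 v0 v1 hσ _ _
  have x2 : a < a1 := x1.resolve_right (by omega)
  obtain ⟨n, h1, h2, h3⟩ := hC l a b c d e D (le_trans (Nat.cast_nonneg _) y0)
    (le_trans (Nat.cast_nonneg _) z0) (le_trans (Nat.cast_nonneg _) u0)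
    (le_trans (Nat.cast_nonneg _) v0) (le_trans x2.le (by exact_mod_cast h.1))
    (le_trans v1 (by exact_mod_cast h.2))
  exact hS _ D.pd D.kap n h1 h2 h3 σ hσ

theorem st_TREE {tt tf : ℕ} {vl : WL} (hL : St_LEAF tt tf vl) (hN : St_NEAR) (hC : St_COR)
    (hS : St_SHORT) : St_TREE tt tf vl := by
  intro fuel
  induction fuel with
  | zero => intro s a0 a1 b0 b1 c0 c1 d0 d1 e0 e1 sa sb h; exact absurd h (by simp [chk])
  | succ n ih =>
    intro s a0 a1 b0 b1 c0 c1 d0 d1 e0 e1 sa sb h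
    unfold chk at h ih
    simp only [force_eq] at h ih
    generalize Nat.land s 15 = tag at h
    cases h3 : Nat.ble tag 3
    · rw [h3, cond_false] at h
      cases h6 : Nat.ble tag 6
      · rw [h6, cond_false] at h
        cases h7 : Nat.ble tag 7
        · rw [h7, cond_false] at h
          cases h8 : Nat.ble tag 8
          · rw [h8, cond_false, Bool.and_eq_true] at h
            exact good_ss _ (ih _ _ _ _ _ _ _ _ _ _ _ _ _ h.1) (ih _ _ _ _ _ _ _ _ _ _ _ _ _ h.2)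
          · rw [h8, cond_true, Bool.and_eq_true] at h
            exact good_se _ (ih _ _ _ _ _ _ _ _ _ _ _ _ _ h.1) (ih _ _ _ _ _ _ _ _ _ _ _ _ _ h.2)
        · rw [h7, cond_true, Bool.and_eq_true] at h
          exact good_sd _ (ih _ _ _ _ _ _ _ _ _ _ _ _ _ h.1) (ih _ _ _ _ _ _ _ _ _ _ _ _ _ h.2)
      · rw [h6, cond_true] at h
        cases h4 : Nat.ble tag 4
        · rw [h4, cond_false] at h
          cases h5 : Nat.ble tag 5
          · rw [h5, cond_false, Bool.and_eq_true] at h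
            exact good_sc _ (ih _ _ _ _ _ _ _ _ _ _ _ _ _ h.1) (ih _ _ _ _ _ _ _ _ _ _ _ _ _ h.2)
          · rw [h5, cond_true, Bool.and_eq_true] at h
            exact good_sb _ (ih _ _ _ _ _ _ _ _ _ _ _ _ _ h.1) (ih _ _ _ _ _ _ _ _ _ _ _ _ _ h.2)
        · rw [h4, cond_true, Bool.and_eq_true] at h
          exact good_sa _ (ih _ _ _ _ _ _ _ _ _ _ _ _ _ h.1) (ih _ _ _ _ _ _ _ _ _ _ _ _ _ h.2)
    · rw [h3, cond_true] at h
      cases h0 : Nat.ble tag 0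
      · rw [h0, cond_false] at h
        cases h1 : Nat.ble tag 1
        · rw [h1, cond_false] at h
          cases h2 : Nat.ble tag 2
          · rw [h2, cond_false] at h
            exact good_cor hC hS (by simpa only [Bool.and_eq_true, Nat.ble_eq] using h)
          · rw [h2, cond_true] at h
            exact good_loc hN (by simpa only [Bool.and_eq_true, Nat.ble_eq] using h)
        · rw [h1, cond_true] at h
          exact good_out
            (by simpa only [Bool.and_eq_true, Bool.or_eq_true, Nat.ble_eq, Nat.blt_eq] using h)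
      · rw [h0, cond_true] at h
        exact hL _ _ _ _ _ _ _ _ _ _ _ _ _ h

theorem st_Y_of (h : Good 0 1024 0 1024 0 1024 0 1024 0 1024 180 1284) : St_Y := by
  intro p hp hk σ hσ
  refine reduceP (fun p => Phi fcc σ ≤ Phi p σ) (fun p u v w hd hh => ?_) ?_ hp hk
  · rwa [Phi, Phi, chg_tsum (psi σ) p hd] at hh
  intro a b c d e f hb hc hd he hf cb db eb ba fa h1 h2
  have ha : 0 < a := by
    rcases (hb.trans ba).eq_or_lt with h0 | h0
    · exfalso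
      have : b = 0 := by linarith
      have : c = 0 := by linarith
      have : d = 0 := by linarith
      have : e = 0 := by linarith
      subst_vars
      simp [SP.kap] at h2
    · exact h0
  set l := a / 1024 with hl
  have hl0 : 0 < l := by positivity
  have e1 : (⟨a, b, c, d, e, f⟩ : SP) = sp l (b / l) (c / l) (d / l) (e / l) (f / l) := by
    simp only [sp, SP.mk.injEq, mul_div_cancel₀ _ hl0.ne', and_self, and_true]
    rw [hl]; ring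
  have up : ∀ x : ℝ, x ≤ a → x / l ≤ 1024 := fun x hx => by
    rw [div_le_iff₀ hl0, hl]; linarith
  rw [e1] at h1 h2 ⊢
  refine h l _ _ _ _ _ σ ⟨hl0, h1, h2, by gcongr, by gcongr, by gcongr, up _ ba, up _ fa⟩
    ?_ (Or.inr le_rfl) ?_ ?_ ?_ ?_ ?_ ?_ ?_ ?_ hσ (Or.inl le_rfl) (Or.inl (by norm_num)) <;>
    push_cast <;> first | positivity | (apply up; linarith)

end Pool.Agent.Lib.SS3.H70
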