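import Pool.Agent.Lib.SS3.Blue2

/-! The test at the vertices of a box. -/

namespace Pool.Agent.Lib.SS3.H70

open Pool.Agent.Lib.MP_3a1514_mp

lemma interp {F : ℝ → ℝ} {lo hi s : ℝ} (u v w z : ℝ) (hF : ∀ x, F x = u + v * x - (w + z * x) ^ 3)
    (hw : 0 ≤ w) (hz : 0 ≤ z) (hlo : 0 ≤ lo) (h1 : lo ≤ s) (h2 : s ≤ hi) (f1 : 0 ≤ F lo)
    (f2 : 0 ≤ F hi) : 0 ≤ F s := by
  rcases (h1.trans h2).eq_or_lt with e | hlt
  · have : s = lo := by linarith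
    rwa [this]
  have e : (hi - lo) * F s = (hi - s) * F lo + (s - lo) * F hi
      + z ^ 2 * (hi - s) * (s - lo) * (hi - lo) * (3 * w + z * (lo + hi + s)) := by
    rw [hF, hF, hF]; ring
  have a1 : 0 ≤ hi - s := by linarith
  have a2 : 0 ≤ s - lo := by linarith
  have a3 : 0 < hi - lo := by linarith
  have a4 : 0 ≤ lo + hi + s := by linarith
  have : 0 ≤ (hi - lo) * F s := by rw [e]; positivity
  exact nonneg_of_mul_nonneg_right this a3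

def HH (C P1 P2 P3 P4 P5 P6 a b c d e : ℝ) : ℝ :=
  C * ((1024 * (a + c) + a * c) * (b + d) + b * d * (a + c)
      + e * (1024 * (a + c + (b + d)) + (a + b) * (c + d)))
    - (P1 * 1024 + P2 * a + P3 * b + P4 * c + P5 * d + P6 * e) ^ 3

def Vx (C P1 P2 P3 P4 P5 P6 a b c d e : ℕ) : Prop :=
  (P1 * 1024 + P2 * a + P4 * c + P3 * b + P5 * d + P6 * e) ^ 3
    ≤ C * ((1024 * (a + c) + a * c) * (b + d) + b * d * (a + c)
      + e * (1024 * (a + c + (b + d)) + (a + b) * (c + d)))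

lemma box_HH {C P1 P2 P3 P4 P5 P6 a0 a1 b0 b1 c0 c1 d0 d1 e0 e1 : ℕ}
    (h : ∀ a, a = a0 ∨ a = a1 → ∀ b, b = b0 ∨ b = b1 → ∀ c, c = c0 ∨ c = c1 →
      ∀ d, d = d0 ∨ d = d1 → ∀ e, e = e0 ∨ e = e1 → Vx C P1 P2 P3 P4 P5 P6 a b c d e)
    {a b c d e : ℝ} (ha0 : a0 ≤ a) (ha1 : a ≤ a1) (hb0 : b0 ≤ b) (hb1 : b ≤ b1)
    (hc0 : c0 ≤ c) (hc1 : c ≤ c1) (hd0 : d0 ≤ d) (hd1 : d ≤ d1) (he0 : e0 ≤ e) (he1 : e ≤ e1) :
    0 ≤ HH C P1 P2 P3 P4 P5 P6 a b c d e := by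
  have hb : 0 ≤ b := le_trans (Nat.cast_nonneg _) hb0
  have hc : 0 ≤ c := le_trans (Nat.cast_nonneg _) hc0
  have hd : 0 ≤ d := le_trans (Nat.cast_nonneg _) hd0
  have he : 0 ≤ e := le_trans (Nat.cast_nonneg _) he0
  have base : ∀ a b c d e : ℕ, Vx C P1 P2 P3 P4 P5 P6 a b c d e →
      0 ≤ HH C P1 P2 P3 P4 P5 P6 a b c d e := by
    intro a b c d e hh
    have := (Nat.cast_le (α := ℝ)).2 hh
    push_cast at this
    unfold HH
    linarith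
  have sE : ∀ a : ℕ, a = a0 ∨ a = a1 → ∀ b : ℕ, b = b0 ∨ b = b1 → ∀ c : ℕ, c = c0 ∨ c = c1 →
      ∀ d : ℕ, d = d0 ∨ d = d1 → 0 ≤ HH C P1 P2 P3 P4 P5 P6 a b c d e :=
    fun a ha b hb c hc d hd => interp (F := fun x => HH C P1 P2 P3 P4 P5 P6 a b c d x)
      (C * ((1024 * (a + c) + a * c) * (b + d) + b * d * (a + c)))
      (C * (1024 * (a + c + (b + d)) + (a + b) * (c + d)))
      (P1 * 1024 + P2 * a + P3 * b + P4 * c + P5 * d) P6 (fun x => by unfold HH; ring)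
      (by positivity) (by positivity) (by positivity) he0 he1
      (base _ _ _ _ _ (h a ha b hb c hc d hd _ (Or.inl rfl)))
      (base _ _ _ _ _ (h a ha b hb c hc d hd _ (Or.inr rfl)))
  have sD : ∀ a : ℕ, a = a0 ∨ a = a1 → ∀ b : ℕ, b = b0 ∨ b = b1 → ∀ c : ℕ, c = c0 ∨ c = c1 →
      0 ≤ HH C P1 P2 P3 P4 P5 P6 a b c d e :=
    fun a ha b hb c hc => interp (F := fun x => HH C P1 P2 P3 P4 P5 P6 a b c x e)
      (C * ((1024 * (a + c) + a * c) * b + e * (1024 * (a + c + b) + (a + b) * c)))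
      (C * (1024 * (a + c) + a * c + b * (a + c) + e * (1024 + (a + b))))
      (P1 * 1024 + P2 * a + P3 * b + P4 * c + P6 * e) P5 (fun x => by unfold HH; ring)
      (by positivity) (by positivity) (by positivity) hd0 hd1
      (sE a ha b hb c hc _ (Or.inl rfl)) (sE a ha b hb c hc _ (Or.inr rfl))
  have sC : ∀ a : ℕ, a = a0 ∨ a = a1 → ∀ b : ℕ, b = b0 ∨ b = b1 →
      0 ≤ HH C P1 P2 P3 P4 P5 P6 a b c d e :=
    fun a ha b hb => interp (F := fun x => HH C P1 P2 P3 P4 P5 P6 a b x d e)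
      (C * (1024 * a * (b + d) + b * d * a + e * (1024 * (a + (b + d)) + (a + b) * d)))
      (C * ((1024 + a) * (b + d) + b * d + e * (1024 + (a + b))))
      (P1 * 1024 + P2 * a + P3 * b + P5 * d + P6 * e) P4 (fun x => by unfold HH; ring)
      (by positivity) (by positivity) (by positivity) hc0 hc1
      (sD a ha b hb _ (Or.inl rfl)) (sD a ha b hb _ (Or.inr rfl))
  have sB : ∀ a : ℕ, a = a0 ∨ a = a1 → 0 ≤ HH C P1 P2 P3 P4 P5 P6 a b c d e :=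
    fun a ha => interp (F := fun x => HH C P1 P2 P3 P4 P5 P6 a x c d e)
      (C * ((1024 * (a + c) + a * c) * d + e * (1024 * (a + c + d) + a * (c + d))))
      (C * (1024 * (a + c) + a * c + d * (a + c) + e * (1024 + (c + d))))
      (P1 * 1024 + P2 * a + P4 * c + P5 * d + P6 * e) P3 (fun x => by unfold HH; ring)
      (by positivity) (by positivity) (by positivity) hb0 hb1
      (sC a ha _ (Or.inl rfl)) (sC a ha _ (Or.inr rfl))
  exact interp (F := fun x => HH C P1 P2 P3 P4 P5 P6 x b c d e)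
      (C * (1024 * c * (b + d) + b * d * c + e * (1024 * (c + (b + d)) + b * (c + d))))
      (C * ((1024 + c) * (b + d) + b * d + e * (1024 + (c + d))))
      (P1 * 1024 + P3 * b + P4 * c + P5 * d + P6 * e) P2 (fun x => by unfold HH; ring)
      (by positivity) (by positivity) (by positivity) ha0 ha1
      (sB _ (Or.inl rfl)) (sB _ (Or.inr rfl))

lemma ell_le {C : ℕ} {P1 P2 P3 P4 P5 P6 l a b c d e : ℝ} (hl : 0 < l)
    (hk : (sp l a b c d e).kap = 4) (h : 0 ≤ HH (quarter C) P1 P2 P3 P4 P5 P6 a b c d e) :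
    ell (sp l a b c d e) P1 P2 P3 P4 P5 P6 ≤ C := by
  have h6 := mul_nonneg (pow_pos hl 3).le h
  have h7 : l ^ 3 * HH (quarter C) P1 P2 P3 P4 P5 P6 a b c d e
      = quarter C * (sp l a b c d e).kap - ell (sp l a b c d e) P1 P2 P3 P4 P5 P6 ^ 3 := by
    simp only [HH, SP.kap, sp, ell]; ring
  have h8 : quarter C * 4 ≤ C ^ 3 := by
    change (C ^ 3) >>> 2 * 4 ≤ _
    rw [Nat.shiftRight_eq_div_pow]
    exact Nat.div_mul_le_self _ _
  have h9 : (quarter C : ℝ) * 4 ≤ (C : ℝ) ^ 3 := by exact_mod_cast h8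
  rw [h7, hk] at h6
  exact le_of_pow_le_pow_left₀ (n := 3) (by norm_num) (Nat.cast_nonneg _) (by linarith)

lemma vA_sound {Ca Cb A1 B1 A2 B2 A3 B3 A4 B4 A5 B5 A6 B6 b0 b1 c0 c1 d0 d1 e0 e1 a : ℕ}
    (h : vA Ca Cb A1 B1 A2 B2 A3 B3 A4 B4 A5 B5 A6 B6 b0 b1 c0 c1 d0 d1 e0 e1 a = true) :
    ∀ b, b = b0 ∨ b = b1 → ∀ c, c = c0 ∨ c = c1 → ∀ d, d = d0 ∨ d = d1 → ∀ e, e = e0 ∨ e = e1 →
      Vx Ca A1 A2 A3 A4 A5 A6 a b c d e ∧ Vx Cb B1 B2 B3 B4 B5 B6 a b c d e := by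
  simp only [vA, vC, vB, vD, vE, force_eq, Bool.and_eq_true, Nat.ble_eq, Nat.add_eq,
    Nat.mul_eq, Nat.pow_eq] at h
  obtain ⟨⟨⟨⟨h1, h2⟩, ⟨h3, h4⟩⟩, ⟨⟨h5, h6⟩, ⟨h7, h8⟩⟩⟩,
    ⟨⟨⟨k1, k2⟩, ⟨k3, k4⟩⟩, ⟨⟨k5, k6⟩, ⟨k7, k8⟩⟩⟩⟩ := h
  rintro b (rfl | rfl) c (rfl | rfl) d (rfl | rfl) e (rfl | rfl) <;> assumption

theorem st_VERT : St_VERT := by
  intro Ca Cb m n m' n' a0 a1 b0 b1 c0 c1 d0 d1 e0 e1 acc h l a b c d e hl hk x0 x1 y0 y1 z0 z1
    u0 u1 v0 v1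
  simp only [verts, two, force_eq, Bool.and_eq_true] at h
  have k0 := vA_sound h.1
  have k1 := vA_sound h.2
  constructor
  · have := ell_le hl hk (box_HH (fun a ha b hb c hc d hd e he => by
      rcases ha with rfl | rfl
      exacts [(k0 b hb c hc d hd e he).1, (k1 b hb c hc d hd e he).1])
      x0 x1 y0 y1 z0 z1 u0 u1 v0 v1)
    simpa only [ellAcc, Nat.add_eq, Nat.mul_eq, Nat.cast_add, Nat.cast_mul] using this
  · have := ell_le hl hk (box_HH (fun a ha b hb c hc d hd e he => by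
      rcases ha with rfl | rfl
      exacts [(k0 b hb c hc d hd e he).2, (k1 b hb c hc d hd e he).2])
      x0 x1 y0 y1 z0 z1 u0 u1 v0 v1)
    simpa only [ellAcc, Nat.add_eq, Nat.mul_eq, Nat.cast_add, Nat.cast_mul] using this

end Pool.Agent.Lib.SS3.H70
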