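import Pool.Agent.Lib.SS3.Acc
import Pool.Agent.Lib.SS3.Leaf
import Pool.Agent.Lib.SS3.Tab
import Pool.Agent.Lib.SS3.VertB
import Pool.Agent.Lib.SS3.Short
import Pool.Agent.Lib.SS3.TreeB
import Pool.Agent.Lib.SS3.Near
import Pool.Agent.Lib.SS3.CertAll

/-! Theorem Y. -/

namespace Pool.Agent.Lib.SS3

open H70

theorem cov_good {a0 a1 b0 b1 c0 c1 d0 d1 e0 e1 sa sb : ℕ}
    (h : Cov a0 a1 b0 b1 c0 c1 d0 d1 e0 e1 sa sb) : Good a0 a1 b0 b1 c0 c1 d0 d1 e0 e1 sa sb := by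
  induction h with
  | of h =>
    exact st_TREE (st_LEAF st_VERT st_TT st_TF st_ACC) st_NEAR st_COR st_SHORT
      _ _ _ _ _ _ _ _ _ _ _ _ _ _ h.out
  | xa m _ _ l r => exact good_sa m l r
  | xb m _ _ l r => exact good_sb m l r
  | xc m _ _ l r => exact good_sc m l r
  | xd m _ _ l r => exact good_sd m l r
  | xe m _ _ l r => exact good_se m l r
  | xs m _ _ l r => exact good_ss m l r

theorem st_Y : St_Y := st_Y_of (cov_good cov_all)

end Pool.Agent.Lib.SS3
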