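import Pool.Agent.Lib.MP_3a1514_mp.Poisson

/-! The functional equation pair of a positive ternary form and its continued zeta function. -/

open Real MeasureTheory Filter Topology Asymptotics Set

namespace Pool.Agent.Lib.SS3.Z49

open Pool.Agent.Lib.MP_3a1514_mp

variable {p : SP}

/-- the adjugate form multiplied by `u` -/
def dual (p : SP) (u : ℝ) : SP :=
  ⟨u * ((p.g22 * p.g33 - p.p23 ^ 2) + (p.p13 * p.p23 + p.p12 * p.g33)
      + (p.p12 * p.p23 + p.p13 * p.g22)),
    u * ((p.g11 * p.g33 - p.p13 ^ 2) + (p.p13 * p.p23 + p.p12 * p.g33)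
      + (p.p12 * p.p13 + p.g11 * p.p23)),
    u * ((p.g11 * p.g22 - p.p12 ^ 2) + (p.p12 * p.p23 + p.p13 * p.g22)
      + (p.p12 * p.p13 + p.g11 * p.p23)),
    -(u * (p.p13 * p.p23 + p.p12 * p.g33)), -(u * (p.p12 * p.p23 + p.p13 * p.g22)),
    -(u * (p.p12 * p.p13 + p.g11 * p.p23))⟩

lemma dual_q (p : SP) (u x y z : ℝ) : (dual p u).q x y z = u * p.adj x y z := by
  simp only [dual, SP.q, SP.adj]; ring

lemma dual_kap (p : SP) (u : ℝ) : (dual p u).kap = u ^ 3 * p.kap ^ 2 := by
  simp only [dual, SP.kap, SP.g11, SP.g22, SP.g33]; ring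

lemma dual_PD (h : p.PD) {u : ℝ} (hu : 0 < u) : (dual p u).PD := by
  intro x y z hx
  rw [dual_q]
  have h1 := h.adj_pos x y z hx
  have h2 := h.kap_pos
  exact mul_pos hu ((div_pos_iff_of_pos_right h2).1 h1)

lemma Qd_eq (h : p.PD) {c : ℝ} (hc : 0 < c) (k : Z3) :
    p.Qd k = c * (dual p (c * p.kap)⁻¹).Q k := by
  have h2 := h.kap_pos
  simp only [SP.Qd, SP.Q, dual_q]
  field_simp

lemma thetaD_eq (h : p.PD) {c : ℝ} (hc : 0 < c) (s : ℝ) :
    p.thetaD s = (dual p (c * p.kap)⁻¹).theta (c * s) := by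
  unfold SP.thetaD SP.theta
  refine tsum_congr fun k => ?_
  rw [Qd_eq h hc]; congr 1; ring

lemma kap_congr {r r' : SP} (h : ∀ k, r.Q k = r'.Q k) : r.kap = r'.kap := by
  have h1 := h (1, 0, 0)
  have h2 := h (0, 1, 0)
  have h3 := h (0, 0, 1)
  have h4 := h (1, 1, 0)
  have h5 := h (1, 0, 1)
  have h6 := h (0, 1, 1)
  simp only [SP.Q, SP.q] at h1 h2 h3 h4 h5 h6
  norm_num at h1 h2 h3 h4 h5 h6
  have e4 : r.p12 = r'.p12 := by linarith
  have e5 : r.p13 = r'.p13 := by linarith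
  have e6 : r.p23 = r'.p23 := by linarith
  have e1 : r.p01 = r'.p01 := by linarith
  have e2 : r.p02 = r'.p02 := by linarith
  have e3 : r.p03 = r'.p03 := by linarith
  simp only [SP.kap, e1, e2, e3, e4, e5, e6]

lemma Q_ge (h : p.PD) : ∃ ε : ℝ, 0 < ε ∧ ∀ n : Z3,
    ε * ((n.1 : ℝ) ^ 2 + (n.2.1 : ℝ) ^ 2 + (n.2.2 : ℝ) ^ 2) ≤ p.Q n := by
  obtain ⟨ε, hε, hb⟩ := exists_eps p.q p.q_cont p.q_hom h
  exact ⟨ε, hε, fun n => hb _ _ _⟩

lemma theta_contOn (h : p.PD) : ContinuousOn p.theta (Ioi 0) := by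
  intro x hx
  have hx0 : 0 < x := hx
  have hd : 0 < x / 2 := by linarith
  have h1 : ContinuousOn p.theta (Ioi (x / 2)) := by
    unfold SP.theta
    refine continuousOn_tsum (u := fun n => exp (-(x / 2 * p.Q n))) (fun n => by fun_prop)
      (h.summable_theta hd) fun n t ht => ?_
    rw [Real.norm_of_nonneg (exp_pos _).le, exp_le_exp]
    have := h.Q_nonneg n
    have ht' : x / 2 < t := ht
    nlinarith
  exact (h1.continuousAt (Ioi_mem_nhds (by linarith))).continuousWithinAt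

lemma hasSum_theta (h : p.PD) {t : ℝ} (ht : 0 < t) :
    HasSum (fun n : Z3 => if n = 0 then 0 else exp (-(t * p.Q n))) (p.theta t - 1) := by
  have := hasSum_ite_sub_hasSum (h.summable_theta ht).hasSum 0
  simpa [SP.theta] using this

lemma theta_decay (h : p.PD) {a : ℝ} (ha : 0 < a) (r : ℝ) :
    (fun x => ((p.theta (a * x) : ℝ) : ℂ) - 1) =O[atTop] fun x : ℝ => x ^ r := by
  obtain ⟨ε, hε, hb⟩ := Q_ge h
  have hae : 0 < a * ε := mul_pos ha hε
  refine IsBigO.trans ?_ (isLittleO_exp_neg_mul_rpow_atTop hae r).isBigO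
  refine IsBigO.of_bound (exp (a * ε) * p.theta a) ?_
  filter_upwards [eventually_ge_atTop 1] with x hx
  have hax : 0 < a * x := by positivity
  have h1 := hasSum_theta h hax
  have h2 := (h.summable_theta ha).hasSum.mul_left (exp (a * ε) * exp (-(a * ε) * x))
  have h3 := hasSum_le (fun n => ?_) h1 h2
  · have h4 : 0 ≤ p.theta (a * x) - 1 := h1.nonneg fun n => by split_ifs <;> positivity
    rw [← Complex.ofReal_one, ← Complex.ofReal_sub, Complex.norm_real, Real.norm_of_nonneg h4,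
      Real.norm_of_nonneg (exp_pos _).le]
    unfold SP.theta at h3 ⊢
    linarith
  · split_ifs with hn
    · positivity
    · rw [← exp_add, ← exp_add, exp_le_exp]
      have h5 := one_le_normsq hn
      have h6 : ε ≤ p.Q n := by nlinarith [hb n]
      have h7 : 0 ≤ a * ((x - 1) * (p.Q n - ε)) :=
        mul_nonneg ha.le (mul_nonneg (by linarith) (by linarith))
      nlinarith

lemma theta_locInt (h : p.PD) {a : ℝ} (ha : 0 < a) :
    LocallyIntegrableOn (fun x => ((p.theta (a * x) : ℝ) : ℂ)) (Ioi 0) := by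
  refine ContinuousOn.locallyIntegrableOn ?_ measurableSet_Ioi
  refine Complex.continuous_ofReal.comp_continuousOn ((theta_contOn h).comp (by fun_prop) ?_)
  intro x hx
  exact mul_pos ha hx

/-- the pair of theta functions -/
noncomputable def pair (h : p.PD) : WeakFEPair ℂ where
  f x := ((p.theta (π * x) : ℝ) : ℂ)
  g x := ((p.thetaD (π * x) : ℝ) : ℂ)
  k := 3 / 2
  ε := (((√p.kap)⁻¹ : ℝ) : ℂ)
  f₀ := 1
  g₀ := 1
  hf_int := theta_locInt h pi_pos
  hg_int := by
    have := theta_locInt (dual_PD h (u := (1 * p.kap)⁻¹) (by have := h.kap_pos; positivity)) pi_pos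
    simpa only [thetaD_eq h one_pos, one_mul] using this
  hk := by norm_num
  hε := by
    have := Real.sqrt_pos.2 h.kap_pos
    exact_mod_cast (inv_pos.2 this).ne'
  h_feq x hx := by
    have hx0 : 0 < x := hx
    have hπ := pi_pos
    rw [h.theta_eq (by positivity), smul_eq_mul, ← Complex.ofReal_mul, ← Complex.ofReal_mul]
    have e1 : π / (π * (1 / x)) = x := by field_simp
    have e2 : π ^ 2 / (π * (1 / x)) = π * x := by field_simp
    have e3 : x ^ (3 / 2 : ℝ) = x * √x := by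
      rw [show (3 / 2 : ℝ) = 1 + 1 / 2 by norm_num, Real.rpow_add hx0, Real.rpow_one,
        Real.sqrt_eq_rpow]
    rw [e1, e2, e3, div_eq_inv_mul]
  hf_top := theta_decay h pi_pos
  hg_top r := by
    have := theta_decay (dual_PD h (u := (1 * p.kap)⁻¹) (by have := h.kap_pos; positivity))
      pi_pos r
    simpa only [thetaD_eq h one_pos, one_mul] using this

lemma summable_aux {b : ℝ} (hb : 1 / 2 < b) : Summable fun n : ℤ => (1 + (n : ℝ) ^ 2) ^ (-b) := by
  have h := Real.summable_abs_int_rpow (b := 2 * b) (by linarith)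
  refine Summable.of_norm_bounded_eventually h ?_
  have : ∀ᶠ n : ℤ in Filter.cofinite, n ≠ 0 := Filter.eventually_cofinite_ne 0
  filter_upwards [this] with n hn
  rw [Real.norm_of_nonneg (by positivity)]
  have hpos : 0 < |(n : ℝ)| := abs_pos.2 (by exact_mod_cast hn)
  have e : |(n : ℝ)| ^ (-(2 * b)) = ((n : ℝ) ^ 2) ^ (-b) := by
    rw [← sq_abs, ← Real.rpow_natCast, ← Real.rpow_mul hpos.le]; norm_num
  rw [e]
  apply Real.rpow_le_rpow_of_nonpos (by rw [← sq_abs]; positivity) (by linarith) (by linarith)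

lemma summable_rpow (h : p.PD) {σ : ℝ} (hσ : 3 / 2 < σ) :
    Summable fun n : Z3 => 1 / p.Q n ^ σ := by
  obtain ⟨ε, hε, hb⟩ := Q_ge h
  have h0 := (summable_mul3 (summable_aux (b := σ / 3) (by linarith))
    fun n => by positivity).mul_left ((ε / 2) ^ (-σ))
  refine h0.of_nonneg_of_le (fun n => by have := h.Q_nonneg n; positivity) fun n => ?_
  by_cases hn : n = 0
  · subst hn
    rw [SP.Q_zero, Real.zero_rpow (by linarith), div_zero]
    positivity
  have h1 := one_le_normsq hn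
  have h2 := hb n
  set N := (n.1 : ℝ) ^ 2 + (n.2.1 : ℝ) ^ 2 + (n.2.2 : ℝ) ^ 2 with hN
  have key : ∀ a : ℝ, a ^ 2 ≤ N → (2 * N) ^ (-(σ / 3)) ≤ (1 + a ^ 2) ^ (-(σ / 3)) := by
    intro a ha
    apply Real.rpow_le_rpow_of_nonpos (by positivity) (by linarith) (by linarith)
  have k1 := key n.1 (by nlinarith [sq_nonneg (n.2.1 : ℝ), sq_nonneg (n.2.2 : ℝ)])
  have k2 := key n.2.1 (by nlinarith [sq_nonneg (n.1 : ℝ), sq_nonneg (n.2.2 : ℝ)])
  have k3 := key n.2.2 (by nlinarith [sq_nonneg (n.1 : ℝ), sq_nonneg (n.2.1 : ℝ)])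
  have h2N : 0 < 2 * N := by linarith
  have hw : 0 < (2 * N) ^ (-(σ / 3)) := by positivity
  have e : (ε * N) ^ (-σ) = (ε / 2) ^ (-σ) * ((2 * N) ^ (-(σ / 3)) * ((2 * N) ^ (-(σ / 3))
      * (2 * N) ^ (-(σ / 3)))) := by
    rw [← Real.rpow_add h2N, ← Real.rpow_add h2N,
      show -(σ / 3) + (-(σ / 3) + -(σ / 3)) = -σ by ring,
      ← Real.mul_rpow (by positivity) h2N.le]
    congr 1; ring
  have h3 : 1 / p.Q n ^ σ ≤ (ε * N) ^ (-σ) := by
    rw [one_div, ← Real.rpow_neg (h.Q_nonneg n)]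
    exact Real.rpow_le_rpow_of_nonpos (by positivity) h2 (by linarith)
  refine h3.trans ?_
  rw [e]
  gcongr

/-- the continued zeta function -/
noncomputable def zet (h : p.PD) (s : ℂ) : ℂ :=
  (π : ℂ) ^ s * ((pair h).Λ₀ s * (Complex.Gamma s)⁻¹ - (Complex.Gamma (s + 1))⁻¹
    - (((√p.kap)⁻¹ : ℝ) : ℂ) / (3 / 2 - s) * (Complex.Gamma s)⁻¹)

lemma zet_diff (h : p.PD) : DifferentiableOn ℂ (zet h) {s | s ≠ 3 / 2} := by
  intro s hs
  have hs' : (3 / 2 : ℂ) - s ≠ 0 := sub_ne_zero.2 (Ne.symm hs)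
  have h1 := (pair h).differentiable_Λ₀ s
  have h2 := Complex.differentiable_one_div_Gamma s
  have h3 : DifferentiableAt ℂ (fun s : ℂ => (Complex.Gamma (s + 1))⁻¹) s :=
    DifferentiableAt.comp (g := fun s : ℂ => (Complex.Gamma s)⁻¹) (f := fun s : ℂ => s + 1) s
      (Complex.differentiable_one_div_Gamma (s + 1)) (by fun_prop)
  have h4 : DifferentiableAt ℂ (fun s : ℂ => (π : ℂ) ^ s) s :=
    differentiableAt_id.const_cpow (Or.inl (by exact_mod_cast pi_pos.ne'))
  have h5 : DifferentiableAt ℂ (fun s : ℂ => (((√p.kap)⁻¹ : ℝ) : ℂ) / (3 / 2 - s)) s :=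
    (differentiableAt_const _).div (differentiableAt_id.const_sub _) hs'
  exact (h4.mul (((h1.mul h2).sub h3).sub (h5.mul h2))).differentiableWithinAt

lemma zet_hasSum (h : p.PD) {s : ℂ} (hs : 3 / 2 < s.re) :
    HasSum (fun n : {n : Z3 // n ≠ 0} => 1 / ((p.Q n.1 : ℝ) : ℂ) ^ s) (zet h s) := by
  have hs0 : 0 < s.re := by linarith
  have hsne : s ≠ 0 := fun e => by simp [e] at hs0
  have hG : Complex.Gamma s ≠ 0 := Complex.Gamma_ne_zero_of_re_pos hs0
  have hπ : (π : ℂ) ^ s ≠ 0 := by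
    rw [Ne, Complex.cpow_eq_zero_iff]; exact fun e => pi_pos.ne' (by exact_mod_cast e.1)
  have h1 := hasSum_mellin_pi_mul₀ (a := fun _ : Z3 => (1 : ℂ)) (p := p.Q)
    (F := fun x => (pair h).f x - (pair h).f₀) h.Q_nonneg hs0 (fun t ht => ?_)
    (by simpa using summable_rpow h hs)
  · rw [((pair h).hasMellin (by simpa [pair] using hs)).2] at h1
    have h2 := h1.mul_left ((π : ℂ) ^ s * (Complex.Gamma s)⁻¹)
    have e1 : (π : ℂ) ^ s * (Complex.Gamma s)⁻¹ * (pair h).Λ s = zet h s := by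
      rw [zet, WeakFEPair.Λ, Complex.Gamma_add_one s hsne]
      simp only [pair, smul_eq_mul]
      push_cast
      field_simp
    have e2 : ∀ n : Z3, (π : ℂ) ^ s * (Complex.Gamma s)⁻¹
        * ((π : ℂ) ^ (-s) * Complex.Gamma s * 1 / ((p.Q n : ℝ) : ℂ) ^ s)
        = 1 / ((p.Q n : ℝ) : ℂ) ^ s := by
      intro n
      rw [Complex.cpow_neg]
      field_simp
    simp_rw [e2, e1] at h2
    refine (hasSum_subtype_iff_of_support_subset (s := {n : Z3 | n ≠ 0})
      (f := fun n : Z3 => 1 / ((p.Q n : ℝ) : ℂ) ^ s) ?_).2 h2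
    intro n hn e
    subst e
    simp [Complex.zero_cpow hsne] at hn
  · have ht0 : 0 < π * t := mul_pos pi_pos ht
    have h2 := Complex.hasSum_ofReal.2 (hasSum_theta h ht0)
    have e : ∀ n : Z3, (if p.Q n = 0 then 0 else (1 : ℂ) * (exp (-π * p.Q n * t) : ℝ))
        = (((if n = 0 then 0 else exp (-(π * t * p.Q n))) : ℝ) : ℂ) := by
      intro n
      by_cases hn : n = 0
      · subst hn; simp
      · rw [if_neg (h.Q_pos hn).ne', if_neg hn, one_mul]
        congr 2; ring
    simp_rw [e]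
    simpa only [pair, Complex.ofReal_sub, Complex.ofReal_one] using h2

/-- layer cake: a function with nonnegative tail integrals has nonnegative moments -/
lemma moment_nonneg {g : ℝ → ℝ} (h0 : IntegrableOn g (Ioi 0))
    (ht : ∀ t, 0 < t → 0 ≤ ∫ x in Ioi t, g x) {α : ℝ} (hα : 0 ≤ α)
    (h1 : IntegrableOn (fun x => x ^ α * g x) (Ioi 0)) : 0 ≤ ∫ x in Ioi 0, x ^ α * g x := by
  rcases hα.eq_or_lt with rfl | hα
  · simp only [Real.rpow_zero, one_mul]
    have hU : ⋃ n : ℕ, Ioi (1 / ((n : ℝ) + 1)) = Ioi 0 := by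
      ext x
      simp only [mem_iUnion, mem_Ioi]
      constructor
      · rintro ⟨n, hn⟩
        exact lt_trans (by positivity) hn
      · exact fun hx => exists_nat_one_div_lt hx
    have := tendsto_setIntegral_of_monotone (μ := volume) (f := g)
      (s := fun n : ℕ => Ioi (1 / ((n : ℝ) + 1))) (fun _ => measurableSet_Ioi)
      (fun a b hab => Ioi_subset_Ioi (Nat.one_div_le_one_div hab)) (by rwa [hU])
    rw [hU] at this
    exact ge_of_tendsto' this fun n => ht _ (by positivity)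
  let K : ℝ × ℝ → ℝ := {z : ℝ × ℝ | z.2 < z.1 ^ α}.indicator fun z => g z.1
  have hS : MeasurableSet {z : ℝ × ℝ | z.2 < z.1 ^ α} :=
    measurableSet_lt measurable_snd (by fun_prop)
  have hK : ∀ x t, K (x, t) = (Iio (x ^ α)).indicator (fun _ => g x) t := by
    intro x t
    simp only [K, indicator, mem_ofPred_eq, mem_Iio]
  have hin : ∀ (x c : ℝ), 0 < x →
      ∫ t in Ioi 0, (Iio (x ^ α)).indicator (fun _ => c) t = x ^ α * c := by
    intro x c hx
    have : 0 < x ^ α := by positivity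
    rw [setIntegral_indicator measurableSet_Iio, Ioi_inter_Iio, setIntegral_const,
      Real.volume_real_Ioo_of_le this.le, sub_zero, smul_eq_mul]
  have hI : Integrable K ((volume.restrict (Ioi 0)).prod (volume.restrict (Ioi 0))) := by
    have hm : AEStronglyMeasurable K ((volume.restrict (Ioi 0)).prod (volume.restrict (Ioi 0))) :=
      (h0.aestronglyMeasurable.comp_fst).indicator hS
    rw [integrable_prod_iff hm]
    constructor
    · refine Eventually.of_forall fun x => ?_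
      simp_rw [hK]
      rw [integrable_indicator_iff measurableSet_Iio, IntegrableOn,
        Measure.restrict_restrict measurableSet_Iio, Iio_inter_Ioi]
      exact integrableOn_const (by simp)
    · refine (h1.norm.congr ?_)
      filter_upwards [ae_restrict_mem measurableSet_Ioi] with x hx
      have hx0 : 0 < x := hx
      simp_rw [hK, norm_indicator_eq_indicator_norm]
      rw [hin x _ hx0, norm_mul, Real.norm_of_nonneg (by positivity)]
  have e1 : ∫ x in Ioi 0, x ^ α * g x = ∫ x in Ioi 0, ∫ t in Ioi 0, K (x, t) := by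
    refine setIntegral_congr_fun measurableSet_Ioi fun x hx => ?_
    simp_rw [hK]
    rw [hin x _ hx]
  rw [e1, integral_integral_swap (f := fun x t => K (x, t)) hI]
  refine setIntegral_nonneg measurableSet_Ioi fun t ht0 => ?_
  have ht1 : 0 < t := ht0
  have hp : 0 < t ^ α⁻¹ := by positivity
  have e2 : ∫ x in Ioi 0, K (x, t) = ∫ x in Ioi 0, (Ioi (t ^ α⁻¹)).indicator g x := by
    refine setIntegral_congr_fun measurableSet_Ioi fun x hx => ?_
    have hx0 : 0 < x := hx
    simp only [K, indicator, mem_ofPred_eq, mem_Ioi,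
      Real.rpow_inv_lt_iff_of_pos ht1.le hx0.le hα]
  rw [e2, setIntegral_indicator measurableSet_Ioi, Ioi_inter_Ioi, sup_eq_right.2 hp.le]
  exact ht _ hp

end Pool.Agent.Lib.SS3.Z49
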