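import Pool.Agent.Lib.SS3.Blue
import Pool.Agent.Lib.SS3.ZetaA

/-! Comparison of the continued zeta functions on `0 < s ≤ 1/2`. -/

open Real MeasureTheory Filter Topology Set

namespace Pool.Agent.Lib.SS3

open Pool.Agent.Lib.MP_3a1514_mp

namespace Z49

variable {p b : SP}

lemma tail_theta (h : p.PD) {a t : ℝ} (ha : 0 < a) (ht : 0 < t) :
    IntegrableOn (fun x => p.theta (a * x) - 1) (Ioi t) ∧
      ∫ x in Ioi t, (p.theta (a * x) - 1) = Phi p (a * t) / a := by
  let F : Z3 → ℝ → ℝ := fun n x => if n = 0 then 0 else exp (-(a * p.Q n) * x)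
  have hneg : ∀ n : Z3, n ≠ 0 → -(a * p.Q n) < 0 := fun n hn => by
    have := h.Q_pos hn
    have : 0 < a * p.Q n := by positivity
    linarith
  have hint : ∀ n, Integrable (F n) (volume.restrict (Ioi t)) := by
    intro n
    by_cases hn : n = 0
    · simp [F, hn]
    · simp only [F, if_neg hn]
      exact integrableOn_exp_mul_Ioi (hneg n hn) t
  have hval : ∀ n, ∫ x in Ioi t, F n x = psi (a * t) (p.Q n) / a := by
    intro n
    by_cases hn : n = 0
    · simp [F, hn]
    · simp only [F, if_neg hn]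
      rw [integral_exp_mul_Ioi (hneg n hn) t, psi]
      have := h.Q_pos hn
      rw [show -(a * p.Q n) * t = -(a * t * p.Q n) by ring]
      field_simp
  have hnn : ∀ n x, 0 ≤ F n x := fun n x => by
    simp only [F]; split_ifs <;> positivity
  have hs0 := (summable_psi h (mul_pos ha ht)).div_const a
  have hsum : Summable fun n => ∫ x in Ioi t, ‖F n x‖ := by
    simp_rw [fun n x => Real.norm_of_nonneg (hnn n x), hval]
    exact hs0
  have hpt : ∀ x ∈ Ioi t, ∑' n, F n x = p.theta (a * x) - 1 := by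
    intro x hx
    have hx0 : 0 < a * x := mul_pos ha (ht.trans hx)
    rw [← (hasSum_theta h hx0).tsum_eq]
    refine tsum_congr fun n => ?_
    simp only [F]
    split_ifs
    · rfl
    · congr 1; ring
  have hs := hasSum_integral_of_summable_integral_norm hint hsum
  have e : ∫ x in Ioi t, (p.theta (a * x) - 1) = Phi p (a * t) / a := by
    rw [← setIntegral_congr_fun measurableSet_Ioi hpt, ← hs.tsum_eq]
    simp_rw [hval]
    rw [tsum_div_const, Phi]
  refine ⟨?_, e⟩
  by_contra hI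
  rw [integral_undef hI] at e
  have h1 : psi (a * t) (p.Q (1, 0, 0)) ≤ Phi p (a * t) :=
    (summable_psi h (mul_pos ha ht)).le_tsum _ fun n _ => psi_nonneg _ (h.Q_nonneg n)
  have h2 : 0 < psi (a * t) (p.Q (1, 0, 0)) := by
    have := h.Q_pos (n := (1, 0, 0)) (by decide)
    unfold psi; positivity
  have h3 : 0 < Phi p (a * t) / a := div_pos (by linarith) ha
  linarith

lemma mellin_diff (hp : p.PD) (hb : b.PD) (hk : b.kap = p.kap) (σ : ℝ) :
    IntegrableOn (fun x => x ^ (σ - 1) * (p.thetaD (π * x) - b.thetaD (π * x))) (Ioi 0) ∧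
      (pair hp).symm.Λ₀ σ - (pair hb).symm.Λ₀ σ
        = ((∫ x in Ioi 0, x ^ (σ - 1) * (p.thetaD (π * x) - b.thetaD (π * x)) : ℝ) : ℂ) := by
  have c1 : MellinConvergent (pair hp).symm.f_modif σ :=
    ((pair hp).symm.isStrongFEPair_toStrongFEPair.hasMellin σ).1
  have c2 : MellinConvergent (pair hb).symm.f_modif σ :=
    ((pair hb).symm.isStrongFEPair_toStrongFEPair.hasMellin σ).1
  obtain ⟨d1, d2⟩ := hasMellin_sub c1 c2
  have hae : (fun x : ℝ => (x : ℂ) ^ ((σ : ℂ) - 1) •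
      ((pair hp).symm.f_modif x - (pair hb).symm.f_modif x)) =ᵐ[volume.restrict (Ioi 0)]
      fun x => ((x ^ (σ - 1) * (p.thetaD (π * x) - b.thetaD (π * x)) : ℝ) : ℂ) := by
    refine (ae_restrict_iff' measurableSet_Ioi).mpr ?_
    filter_upwards [compl_mem_ae_iff.mpr (Subsingleton.measure_zero (s := {(1 : ℝ)}) (by simp) _)]
      with x (h1 : x ≠ 1) (h0 : 0 < x)
    rw [Complex.ofReal_mul, Complex.ofReal_cpow h0.le, smul_eq_mul, Complex.ofReal_sub,
      Complex.ofReal_sub, Complex.ofReal_one]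
    congr 1
    simp only [WeakFEPair.f_modif, Pi.add_apply, WeakFEPair.symm, pair, hk]
    rcases lt_or_gt_of_ne h1 with h2 | h2
    · rw [indicator_of_notMem (notMem_Ioi.2 h2.le), indicator_of_notMem (notMem_Ioi.2 h2.le),
        indicator_of_mem (mem_Ioo.2 ⟨h0, h2⟩), indicator_of_mem (mem_Ioo.2 ⟨h0, h2⟩)]
      ring
    · rw [indicator_of_mem (mem_Ioi.2 h2), indicator_of_mem (mem_Ioi.2 h2),
        indicator_of_notMem (notMem_Ioo_of_ge h2.le), indicator_of_notMem (notMem_Ioo_of_ge h2.le)]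
      ring
  constructor
  · have := (Integrable.congr d1 hae).re
    simp only [RCLike.re_to_complex, Complex.ofReal_re] at this
    exact this
  · rw [WeakFEPair.Λ₀, WeakFEPair.Λ₀, ← d2, mellin, integral_congr_ae hae]
    exact integral_ofReal

lemma compare (hY : St_Y) (hp : p.PD) (hb : b.PD) (hk : b.kap = p.kap) {c : ℝ} (hc : 0 < c)
    (hd : ∀ k, b.Qd k = c * fcc.Q k) {s : ℝ} (h0 : 0 < s) (h1 : s ≤ 1 / 2) :
    (zet hb s).re ≤ (zet hp s).re := by
  have hkp := hp.kap_pos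
  have hkb := hb.kap_pos
  have hq : ∀ k, (dual b (c * b.kap)⁻¹).Q k = fcc.Q k := fun k =>
    mul_left_cancel₀ hc.ne' ((Qd_eq hb hc k).symm.trans (hd k))
  have hk4 : (dual p (c * p.kap)⁻¹).kap = 4 := by
    rw [← fcc_kap, ← kap_congr hq, dual_kap, dual_kap, hk]
  have hPD : (dual p (c * p.kap)⁻¹).PD := dual_PD hp (by positivity)
  have ha : 0 < c * π := mul_pos hc pi_pos
  have eg : ∀ x, p.thetaD (π * x) - b.thetaD (π * x)
      = ((dual p (c * p.kap)⁻¹).theta (c * π * x) - 1) - (fcc.theta (c * π * x) - 1) := by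
    intro x
    rw [thetaD_eq hp hc, thetaD_eq hb hc, ← mul_assoc]
    simp only [SP.theta, hq]
    ring
  have htail : ∀ t, 0 < t → 0 ≤ ∫ x in Ioi t, (p.thetaD (π * x) - b.thetaD (π * x)) := by
    intro t ht
    obtain ⟨i1, v1⟩ := tail_theta hPD ha ht
    obtain ⟨i2, v2⟩ := tail_theta fcc_PD ha ht
    simp_rw [eg]
    rw [integral_sub i1 i2, v1, v2, ← sub_div]
    exact div_nonneg (sub_nonneg.2 (hY _ hPD hk4 _ (mul_pos ha ht))) ha.le
  have i0 : IntegrableOn (fun x => p.thetaD (π * x) - b.thetaD (π * x)) (Ioi 0) := by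
    simpa using (mellin_diff hp hb hk 1).1
  obtain ⟨i1, v1⟩ := mellin_diff hp hb hk (3 / 2 - s)
  have hm := moment_nonneg i0 htail (α := 3 / 2 - s - 1) (by linarith) i1
  set I := ∫ x in Ioi 0, x ^ (3 / 2 - s - 1) * (p.thetaD (π * x) - b.thetaD (π * x)) with hI
  have f1 := (pair hp).functional_equation₀ ((3 / 2 - s : ℝ) : ℂ)
  have f2 := (pair hb).functional_equation₀ ((3 / 2 - s : ℝ) : ℂ)
  have e1 : (((pair hp).k : ℝ) : ℂ) - ((3 / 2 - s : ℝ) : ℂ) = s := by
    simp only [pair]; push_cast; ring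
  have e2 : (((pair hb).k : ℝ) : ℂ) - ((3 / 2 - s : ℝ) : ℂ) = s := by
    simp only [pair]; push_cast; ring
  have e3 : (pair hp).ε = (((√p.kap)⁻¹ : ℝ) : ℂ) := rfl
  have e4 : (pair hb).ε = (((√p.kap)⁻¹ : ℝ) : ℂ) := by rw [← hk]; rfl
  rw [e1, e3, smul_eq_mul] at f1
  rw [e2, e4, smul_eq_mul] at f2
  have key : zet hp s - zet hb s = ((π ^ s * ((√p.kap)⁻¹ * I * (Gamma s)⁻¹) : ℝ) : ℂ) := by
    rw [zet, zet, f1, f2, hk, Complex.ofReal_mul, Complex.ofReal_mul, Complex.ofReal_mul, ← v1,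
      Complex.ofReal_cpow pi_pos.le, Complex.ofReal_inv (Gamma s), ← Complex.Gamma_ofReal]
    ring
  have h2 : 0 ≤ π ^ s * ((√p.kap)⁻¹ * I * (Gamma s)⁻¹) := by
    have := Gamma_pos_of_pos h0
    have := pi_pos
    positivity
  have h3 := congrArg Complex.re key
  rw [Complex.sub_re, Complex.ofReal_re] at h3
  linarith

end Z49

theorem st_ZETA (hY : St_Y) : St_ZETA := by
  classical
  refine ⟨fun p => if h : p.PD then Z49.zet h else 0, fun p hp => ?_, ?_⟩
  · simp only [dif_pos hp]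
    exact ⟨Z49.zet_diff hp, fun s hs => Z49.zet_hasSum hp hs⟩
  · rintro p b hp hb hk ⟨c, hc, hd⟩ s h0 h1
    simp only [dif_pos hp, dif_pos hb]
    exact Z49.compare hY hp hb hk hc hd h0 h1

end Pool.Agent.Lib.SS3
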